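import Pool.Agent.Q188.BT.Stmts

/-! # The integral of the width of a segment -/

set_option autoImplicit false

open Complex MeasureTheory Set Filter Topology
open scoped Real ContDiff ENNReal

namespace Pool.Agent.Q188.BT.Abs

open Pool.Agent.Q188.BT

lemma abs_dot (v : ℂ) (t : ℝ) : |dot v (nrm t)| = ‖v‖ * |Real.sin (t - Complex.arg v)| := by
  have h1 : (nrm t).re = Real.sin t := by
    unfold nrm e
    rw [Complex.exp_mul_I]
    simp [Complex.cos_ofReal_re, Complex.sin_ofReal_re, Complex.cos_ofReal_im, Complex.sin_ofReal_im]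
  have h2 : (nrm t).im = -Real.cos t := by
    unfold nrm e
    rw [Complex.exp_mul_I]
    simp [Complex.cos_ofReal_re, Complex.sin_ofReal_re, Complex.cos_ofReal_im, Complex.sin_ofReal_im]
  have h3 := Complex.norm_mul_cos_arg v
  have h4 := Complex.norm_mul_sin_arg v
  have h5 : dot v (nrm t) = ‖v‖ * Real.sin (t - Complex.arg v) := by
    unfold dot
    rw [h1, h2, Real.sin_sub, ← h3, ← h4]
    ring
  rw [h5, abs_mul, abs_norm]

lemma int_abs_sin : ∫ t in (0 : ℝ)..(2 * π), |Real.sin t| = 4 := by
  have hc : Continuous fun t : ℝ => |Real.sin t| := Real.continuous_sin.abs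
  rw [← intervalIntegral.integral_add_adjacent_intervals (b := π) (hc.intervalIntegrable _ _)
    (hc.intervalIntegrable _ _)]
  have h1 : ∫ t in (0 : ℝ)..π, |Real.sin t| = 2 := by
    rw [intervalIntegral.integral_congr (g := Real.sin), integral_sin]
    · norm_num
    · intro t ht
      rw [uIcc_of_le Real.pi_pos.le] at ht
      exact abs_of_nonneg (Real.sin_nonneg_of_mem_Icc ht)
  have h2 : ∫ t in π..(2 * π), |Real.sin t| = 2 := by
    rw [intervalIntegral.integral_congr (g := fun t => -Real.sin t), intervalIntegral.integral_neg, integral_sin]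
    · rw [Real.cos_two_pi]
      norm_num
    · intro t ht
      rw [uIcc_of_le (by linarith [Real.pi_pos])] at ht
      have h3 : 0 ≤ Real.sin (t - π) := Real.sin_nonneg_of_mem_Icc ⟨by linarith [ht.1], by linarith [ht.2]⟩
      rw [Real.sin_sub_pi] at h3
      exact abs_of_nonpos (by linarith)
  rw [h1, h2]
  norm_num

theorem main : TaskAbs := by
  intro v
  have h1 : (fun t : ℝ => |dot v (nrm t)|) = fun t => ‖v‖ * |Real.sin (t - Complex.arg v)| :=
    funext fun t => abs_dot v t
  rw [h1, intervalIntegral.integral_const_mul,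
    intervalIntegral.integral_comp_sub_right (fun t => |Real.sin t|) (Complex.arg v)]
  have hper : Function.Periodic (fun t : ℝ => |Real.sin t|) (2 * π) := fun t => by
    simp only [Real.sin_add_two_pi]
  have h2 := hper.intervalIntegral_add_eq (-Complex.arg v) 0
  have h3 : (0 : ℝ) - Complex.arg v = -Complex.arg v := by ring
  have h4 : 2 * π - Complex.arg v = -Complex.arg v + 2 * π := by ring
  rw [h3, h4, h2, zero_add, int_abs_sin]
  ring

end Pool.Agent.Q188.BT.Abs
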