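import Pool.Agent.Q188.BT.Stmts

set_option autoImplicit false

open Complex MeasureTheory Set Filter Topology
open scoped Real ContDiff ENNReal

namespace Pool.Agent.Q188.BT

lemma norm_e (t : ℝ) : ‖e t‖ = 1 := by unfold e; exact Complex.norm_exp_ofReal_mul_I t

lemma e_re (t : ℝ) : (e t).re = Real.cos t := by unfold e; exact Complex.exp_ofReal_mul_I_re t

lemma e_im (t : ℝ) : (e t).im = Real.sin t := by unfold e; exact Complex.exp_ofReal_mul_I_im t

lemma nrm_re (t : ℝ) : (nrm t).re = Real.sin t := by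
  simp [nrm, Complex.mul_re, e_re, e_im]

lemma nrm_im (t : ℝ) : (nrm t).im = - Real.cos t := by
  simp [nrm, Complex.mul_im, e_re, e_im]

lemma norm_nrm (t : ℝ) : ‖nrm t‖ = 1 := by
  simp [nrm, norm_e]

lemma dot_nrm_self (t : ℝ) : dot (nrm t) (nrm t) = 1 := by
  simp only [dot, nrm_re, nrm_im]
  nlinarith [Real.sin_sq_add_cos_sq t]

lemma dot_add_left (a b c : ℂ) : dot (a + b) c = dot a c + dot b c := by simp [dot]; ring
lemma dot_sub_left (a b c : ℂ) : dot (a - b) c = dot a c - dot b c := by simp [dot]; ring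
lemma dot_smul_left (r : ℝ) (a c : ℂ) : dot ((r : ℂ) * a) c = r * dot a c := by simp [dot]; ring

lemma isArc_add {S : ℝ → ℝ} (h : IsArc S) (c : ℝ) : IsArc (fun t => S t + c) := by
  have hd : ∀ t, deriv (fun t => S t + c) t = deriv S t := fun t => by simp
  refine ⟨h.smooth.add contDiff_const, fun t => ?_, fun t => ?_, ?_⟩
  · rw [hd]; exact h.pos t
  · simp only [h.quasi]; ring
  · simp only [hd]; exact h.closed

lemma pt_add (p : ℂ) (S : ℝ → ℝ) (c t : ℝ) : pt p (fun t => S t + c) t = pt p S t := by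
  have hd : ∀ t, deriv (fun t => S t + c) t = deriv S t := fun t => by simp
  simp only [pt, hd]

lemma tab_add (hInv : TaskInv) (p : ℂ) {S : ℝ → ℝ} (h : IsArc S) (c q : ℝ) :
    tab p (fun t => S t + c) q = tab p S (q - c) := by
  obtain ⟨θ, -, h1, -, -, -, -, h2, -⟩ := hInv S h
  obtain ⟨θ', -, -, h4, -, -, -, -, h6⟩ := hInv _ (isArc_add h c)
  have h7 := h6 p (θ (q - c))
  rw [pt_add, h1] at h7
  rw [h2 p (q - c), ← h7]
  congr 1; ring

end Pool.Agent.Q188.BT
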