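import Mathlib

/-!
Blueprint for MP_fd4af6_gt (billiard tables, geometric distance): every convex curve is the `C^0` limit of a
`d_B`-Cauchy sequence of billiard tables.

A table is described by its arc function `S`: `S t` = arc length parameter of the boundary point with tangent angle `t`
(`e t = exp (i t)`), `pt p S t` is that point, `tab p S` the arc length parametrization, `nrm t = -i e t` the outward normal.
Homotopy = Minkowski combination (linear in `S` and `p`).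
-/

set_option autoImplicit false

open Complex MeasureTheory Set Filter Topology
open scoped Real ContDiff ENNReal

namespace Pool.Agent.Q188.BT

/-- determinant of two vectors of the plane -/
noncomputable def det (u v : ℂ) : ℝ := u.re * v.im - u.im * v.re

/-- scalar product of two vectors of the plane -/
noncomputable def dot (u v : ℂ) : ℝ := u.re * v.re + u.im * v.im

/-- the unit vector with angle `t` -/
noncomputable def e (t : ℝ) : ℂ := Complex.exp (t * Complex.I)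

/-- the outward normal at the point with tangent vector `e t` -/
noncomputable def nrm (t : ℝ) : ℂ := -Complex.I * e t

/-- billiard tables: `γ` is the counterclockwise arc length parametrization (as a map on `ℝ` with period `1`) of the
boundary of a smooth convex body with boundary of length `1` and positive curvature. -/
structure IsTable (γ : ℝ → ℂ) : Prop where
  smooth : ContDiff ℝ ∞ γ
  periodic : ∀ q, γ (q + 1) = γ q
  unit : ∀ q, ‖deriv γ q‖ = 1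
  curvature : ∀ q, 0 < det (deriv γ q) (deriv (deriv γ) q)
  simple : ∀ q ∈ Ico (0 : ℝ) 1, ∀ r ∈ Ico (0 : ℝ) 1, γ q = γ r → q = r
  body : ∃ K : Set ℂ, IsCompact K ∧ Convex ℝ K ∧ (interior K).Nonempty ∧ frontier K = range γ

/-- `C` is a continuous simple closed curve of length `1` (period `1`), parametrized by arc length, the boundary of the
convex body `K`, and counterclockwise: `ψ` is a continuous polar angle of `C` about the interior point `z` of `K`, which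
increases by `2π` in a period. -/
structure Data (C : ℝ → ℂ) (K : Set ℂ) (z : ℂ) (ψ : ℝ → ℝ) : Prop where
  cont : Continuous C
  periodic : ∀ q, C (q + 1) = C q
  simple : ∀ q ∈ Ico (0 : ℝ) 1, ∀ r ∈ Ico (0 : ℝ) 1, C q = C r → q = r
  arclength : ∀ a b : ℝ, a ≤ b → eVariationOn C (Icc a b) = ENNReal.ofReal (b - a)
  compact : IsCompact K
  convex : Convex ℝ K
  mem : z ∈ interior K
  frontier_eq : frontier K = range C
  polar_cont : Continuous ψ
  polar_quasi : ∀ q, ψ (q + 1) = ψ q + 2 * π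
  polar : ∀ q, C q - z = (‖C q - z‖ : ℂ) * e (ψ q)

/-- the curves of the problem -/
def IsConvexCurve (C : ℝ → ℂ) : Prop := ∃ (K : Set ℂ) (z : ℂ) (ψ : ℝ → ℝ), Data C K z ψ

/-- smooth homotopies of tables from `α` to `β` -/
structure IsHomotopy (G : ℝ → ℝ → ℂ) (α β : ℝ → ℂ) : Prop where
  smooth : ContDiff ℝ ∞ (fun x : ℝ × ℝ => G x.1 x.2)
  table : ∀ s ∈ Icc (0 : ℝ) 1, IsTable (G s)
  start : G 0 = α
  finish : G 1 = β

/-- the length of a homotopy -/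
noncomputable def cost (G : ℝ → ℝ → ℂ) : ℝ≥0∞ :=
  ∫⁻ s in Icc (0 : ℝ) 1, ⨆ q : ℝ, ‖deriv (fun s' => G s' q) s‖ₑ

/-- the geometric distance (infinite if there is no homotopy) -/
noncomputable def dB (α β : ℝ → ℂ) : ℝ≥0∞ := ⨅ (G : ℝ → ℝ → ℂ) (_ : IsHomotopy G α β), cost G

/-! ### arc functions -/

/-- arc functions of tables -/
structure IsArc (S : ℝ → ℝ) : Prop where
  smooth : ContDiff ℝ ∞ S
  pos : ∀ t, 0 < deriv S t
  quasi : ∀ t, S (t + 2 * π) = S t + 1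
  closed : ∫ u in (0 : ℝ)..(2 * π), ((deriv S u : ℝ) : ℂ) * e u = 0

/-- the boundary point with tangent angle `t` -/
noncomputable def pt (p : ℂ) (S : ℝ → ℝ) (t : ℝ) : ℂ := p + ∫ u in (0 : ℝ)..t, ((deriv S u : ℝ) : ℂ) * e u

/-- the arc length parametrization -/
noncomputable def tab (p : ℂ) (S : ℝ → ℝ) (q : ℝ) : ℂ := pt p S (Function.invFun S q)

/-- support function of `K` in the direction `nrm t` -/
noncomputable def supp (K : Set ℂ) (t : ℝ) : ℝ := sSup ((fun x => dot x (nrm t)) '' K)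

/-- the smooth step from `0` to `1` -/
noncomputable def lam (s : ℝ) : ℝ := Real.smoothTransition s

/-! ### tasks -/

/-- inverse function of an arc function (`S` is a smooth increasing bijection; `Function.leftInverse_invFun`,
`Homeomorph.contDiff_symm_deriv` or the inverse function theorem) -/
def TaskInv : Prop := ∀ S : ℝ → ℝ, IsArc S → ∃ θ : ℝ → ℝ, ContDiff ℝ ∞ θ ∧ (∀ q, S (θ q) = q) ∧ (∀ t, θ (S t) = t) ∧
  (∀ q, 0 < deriv θ q) ∧ (∀ q, θ (q + 1) = θ q + 2 * π) ∧ (∀ q, HasDerivAt θ (deriv S (θ q))⁻¹ q) ∧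
  (∀ p q, tab p S q = pt p S (θ q)) ∧ ∀ p t, tab p S (S t) = pt p S t

/-- derivative, smoothness and period of `pt` -/
def TaskPt : Prop := ∀ (p : ℂ) (S : ℝ → ℝ), IsArc S → (∀ t, HasDerivAt (pt p S) (((deriv S t : ℝ) : ℂ) * e t) t) ∧
  ContDiff ℝ ∞ (pt p S) ∧ ∀ t, pt p S (t + 2 * π) = pt p S t

/-- `(tab p S)' q = e (θ q)`, `(tab p S)'' q = θ'(q) i e (θ q)` with `θ` from `TaskInv` -/
def TaskReg : Prop := ∀ (p : ℂ) (S : ℝ → ℝ), IsArc S → ContDiff ℝ ∞ (tab p S) ∧ (∀ q, tab p S (q + 1) = tab p S q) ∧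
  (∀ q, ‖deriv (tab p S) q‖ = 1) ∧ (∀ q, 0 < det (deriv (tab p S) q) (deriv (deriv (tab p S)) q)) ∧
  ∀ a b, ‖tab p S a - tab p S b‖ ≤ |a - b|

/-- `dot (pt u - pt t) (nrm t) = - ∫ v in t..u, S'(v) sin (v - t)`: negative for `t < u < t + 2π` (the integral over the
whole period `t..t + 2π` is zero by `closed`, and the integrand changes its sign at `t + π`) -/
def TaskStrict : Prop := ∀ (p : ℂ) (S : ℝ → ℝ), IsArc S → ∀ t u : ℝ, t < u → u < t + 2 * π →
  dot (pt p S u - pt p S t) (nrm t) < 0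

/-- the convex body (`K` = convex hull of the range of `pt p S`): by `TaskStrict` and periodicity every `pt t` is the only
maximum of `dot · (nrm t)` on `K`; a frontier point of `K` has a supporting direction `nrm t`, so it is `pt t` -/
def TaskBody : Prop := ∀ (p : ℂ) (S : ℝ → ℝ), IsArc S → ∃ K : Set ℂ, IsCompact K ∧ Convex ℝ K ∧ (interior K).Nonempty ∧
  frontier K = range (pt p S)

/-- `dot (pt u) (nrm t) ≤ dot (pt t) (nrm t)` for all `t`, `u` (from `TaskStrict` and periodicity) -/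
def TaskSuppLe : Prop := ∀ (p : ℂ) (S : ℝ → ℝ), IsArc S → ∀ t u : ℝ, dot (pt p S u) (nrm t) ≤ dot (pt p S t) (nrm t)

/-- `tab p S` is injective on `[0, 1)` (from `TaskStrict` and `TaskInv`) -/
def TaskSimple : Prop := ∀ (p : ℂ) (S : ℝ → ℝ), IsArc S → ∀ q ∈ Ico (0 : ℝ) 1, ∀ r ∈ Ico (0 : ℝ) 1,
  tab p S q = tab p S r → q = r

/-- the curve of an arc function is a table: from `TaskInv`, `TaskReg`, `TaskBody`, `TaskSimple` -/
def TaskTab : Prop := ∀ (p : ℂ) (S : ℝ → ℝ), IsArc S → IsTable (tab p S)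

/-- convex combinations of arc functions -/
def TaskComb : Prop := ∀ S₀ S₁ : ℝ → ℝ, IsArc S₀ → IsArc S₁ → ∀ c ∈ Icc (0 : ℝ) 1,
  IsArc (fun t => (1 - c) * S₀ t + c * S₁ t) ∧ ∀ (p₀ p₁ : ℂ) (t : ℝ),
    pt (((1 - c : ℝ) : ℂ) * p₀ + (c : ℂ) * p₁) (fun t => (1 - c) * S₀ t + c * S₁ t) t =
      ((1 - c : ℝ) : ℂ) * pt p₀ S₀ t + (c : ℂ) * pt p₁ S₁ t

/-- the inverse of `(s, t) ↦ (s, (1 - λ s) S₀ t + λ s S₁ t)` is smooth (`Homeomorph.contDiff_symm`, or the implicit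
function theorem and uniqueness); `lam = Real.smoothTransition` has values in `[0, 1]` -/
def TaskPhi : Prop := ∀ S₀ S₁ : ℝ → ℝ, IsArc S₀ → IsArc S₁ → ∃ Θ : ℝ × ℝ → ℝ, ContDiff ℝ ∞ Θ ∧
  (∀ s q, (1 - lam s) * S₀ (Θ (s, q)) + lam s * S₁ (Θ (s, q)) = q) ∧
  ∀ s t, Θ (s, (1 - lam s) * S₀ t + lam s * S₁ t) = t

/-- derivative of the homotopy in `s` (differentiate the relation for `Θ`; then integrate by parts
`∫ D'(u) e u du = D(t) e t - D(0) - ∫ D(u) i e u du` with `D = S₁ - S₀`) -/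
def TaskDeriv : Prop := ∀ (p₀ p₁ : ℂ) (S₀ S₁ : ℝ → ℝ) (Θ : ℝ × ℝ → ℝ), IsArc S₀ → IsArc S₁ → ContDiff ℝ ∞ Θ →
  (∀ s q, (1 - lam s) * S₀ (Θ (s, q)) + lam s * S₁ (Θ (s, q)) = q) → ∀ s q : ℝ,
  HasDerivAt (fun s : ℝ => ((1 - lam s : ℝ) : ℂ) * pt p₀ S₀ (Θ (s, q)) + ((lam s : ℝ) : ℂ) * pt p₁ S₁ (Θ (s, q)))
    (((deriv lam s : ℝ) : ℂ) * ((p₁ - p₀) - ((S₁ 0 - S₀ 0 : ℝ) : ℂ) -
      Complex.I * ∫ u in (0 : ℝ)..(Θ (s, q)), ((S₁ u - S₀ u : ℝ) : ℂ) * e u)) s

/-- the bound for the geometric distance: the homotopy is `G s q = (1 - λ s) pt p₀ S₀ (Θ (s, q)) + λ s pt p₁ S₁ (Θ (s, q))`,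
`G s = tab ..` by `TaskComb`; for the supremum over `q` use that `G s` has period `1`, so `0 ≤ Θ (s, q) ≤ 2π` can be
assumed; `∫_0^1 λ' = 1`, `λ' ≥ 0` (`lam` is monotone) -/
def TaskHom : Prop := ∀ (p₀ p₁ : ℂ) (S₀ S₁ : ℝ → ℝ), IsArc S₀ → IsArc S₁ →
  dB (tab p₀ S₀) (tab p₁ S₁) ≤ ENNReal.ofReal (‖p₁ - p₀‖ + |S₁ 0 - S₀ 0| + ∫ u in (0 : ℝ)..(2 * π), |S₁ u - S₀ u|)

/-- compactness: choose a subsequence along which `p i`, `S i 0` and all `S i t`, `t` rational, converge (compactness of a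
countable product of intervals); monotone functions with total increase `1` are `L¹`-close if they are close at a fine grid -/
def TaskCompact : Prop := ∀ (p : ℕ → ℂ) (S : ℕ → ℝ → ℝ) (R : ℝ), (∀ i, ‖p i‖ ≤ R) → (∀ i, Monotone (S i)) →
  (∀ i, Continuous (S i)) → (∀ i t, S i (t + 2 * π) = S i t + 1) → (∀ i, 0 ≤ S i 0 ∧ S i 0 ≤ 1) →
  ∃ k : ℕ → ℕ, StrictMono k ∧ ∀ ε : ℝ, 0 < ε → ∃ N : ℕ, ∀ i ≥ N, ∀ j ≥ N,
    ‖p (k j) - p (k i)‖ + |S (k j) 0 - S (k i) 0| + ∫ u in (0 : ℝ)..(2 * π), |S (k j) u - S (k i) u| < ε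

/-- a ray from an interior point meets the frontier once (`Convex.combo_interior_closure_mem_interior`) -/
def TaskRay : Prop := ∀ (K : Set ℂ) (z x y v : ℂ) (a b : ℝ), Convex ℝ K → z ∈ interior K → x ∈ frontier K →
  y ∈ frontier K → 0 < a → 0 < b → x - z = (a : ℂ) * v → y - z = (b : ℂ) * v → x = y

/-- the polar angle of `C` is strictly increasing: injective by `TaskRay` and `simple`, `Continuous.strictMono_of_inj` -/
def TaskPolarC : Prop := ∀ (C : ℝ → ℂ) (K : Set ℂ) (z : ℂ) (ψ : ℝ → ℝ), Data C K z ψ → StrictMono ψ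

/-- polar angle of a table: with `w t = pt p S t - z`, `dot (w t) (nrm t) > 0`, put
`ψ₁ t = t - π / 2 + arg (w t * conj (nrm t))` (continuous: slit plane; derivative `det (w, w') / |w|² > 0`, use `Complex.log`),
and `ψ q = ψ₁ (θ q)` -/
def TaskPolar : Prop := ∀ (p : ℂ) (S : ℝ → ℝ) (z : ℂ), IsArc S → (∀ t, dot (z - pt p S t) (nrm t) < 0) →
  ∃ ψ : ℝ → ℝ, Continuous ψ ∧ StrictMono ψ ∧ (∀ q, ψ (q + 1) = ψ q + 2 * π) ∧
    ∀ q, tab p S q - z = (‖tab p S q - z‖ : ℂ) * e (ψ q)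

/-- points of the two boundaries on the same ray are close -/
def TaskClose : Prop := ∀ (K : Set ℂ) (z x y v : ℂ) (r R η : ℝ) (H : ℝ → ℝ), IsCompact K → Convex ℝ K → 0 < r →
  Metric.closedBall z r ⊆ K → K ⊆ Metric.closedBall z R → 0 ≤ η → η ≤ r / 2 → (∀ t, |H t - supp K t| ≤ η) →
  (∀ t, dot y (nrm t) ≤ H t) → (∃ t, dot y (nrm t) = H t) → x ∈ frontier K → ‖v‖ = 1 →
  x - z = (‖x - z‖ : ℂ) * v → y - z = (‖y - z‖ : ℂ) * v → ‖x - y‖ ≤ 2 * η * R / r

/-- supporting directions: a frontier point of a compact convex set with interior is a maximum of some `dot · (nrm t)` -/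
def TaskSupport : Prop := ∀ (K : Set ℂ) (x : ℂ), IsCompact K → Convex ℝ K → (interior K).Nonempty → x ∈ frontier K →
  ∃ t : ℝ, (∀ y ∈ K, dot y (nrm t) ≤ dot x (nrm t)) ∧ dot x (nrm t) = supp K t

/-- properties of the support function -/
def TaskSuppProps : Prop := ∀ K : Set ℂ, IsCompact K → K.Nonempty → Continuous (supp K) ∧
  (∀ t, supp K (t + 2 * π) = supp K t) ∧ (∀ t s, 0 ≤ Real.cos s → 2 * Real.cos s * supp K t ≤ supp K (t - s) + supp K (t + s)) ∧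
  (∀ x ∈ K, ∀ t, dot x (nrm t) ≤ supp K t) ∧ (∀ t, ∃ x ∈ frontier K, dot x (nrm t) = supp K t)

/-- smoothing of a support function: convolution with a bump function, plus a small constant; the inequality for `h`
passes to the convolution and gives `H + H'' ≥ 0` in the limit `s → 0` -/
def TaskMollify : Prop := ∀ h : ℝ → ℝ, Continuous h → (∀ t, h (t + 2 * π) = h t) →
  (∀ t s, 0 ≤ Real.cos s → 2 * Real.cos s * h t ≤ h (t - s) + h (t + s)) → ∀ δ : ℝ, 0 < δ →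
  ∃ H : ℝ → ℝ, ContDiff ℝ ∞ H ∧ (∀ t, H (t + 2 * π) = H t) ∧ (∀ t, 0 < H t + deriv (deriv H) t) ∧ ∀ t, |H t - h t| ≤ δ

/-- the table with support function `H`: `S t = ∫_0^t (H + H'')`, `p = H 0 nrm 0 + H'(0) e 0`
(note `nrm' = e`, `e' = - nrm`) -/
def TaskFromSupp : Prop := ∀ H : ℝ → ℝ, ContDiff ℝ ∞ H → (∀ t, H (t + 2 * π) = H t) → (∀ t, 0 < H t + deriv (deriv H) t) →
  ∫ t in (0 : ℝ)..(2 * π), H t = 1 → ∃ (p : ℂ) (S : ℝ → ℝ), IsArc S ∧
    (∀ t, pt p S t = ((H t : ℝ) : ℂ) * nrm t + ((deriv H t : ℝ) : ℂ) * e t) ∧ ∀ t, dot (pt p S t) (nrm t) = H t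

/-- the integral of the width of a segment -/
def TaskAbs : Prop := ∀ v : ℂ, ∫ t in (0 : ℝ)..(2 * π), |dot v (nrm t)| = 4 * ‖v‖

/-- width and inscribed polygons: the extreme points of `K` in the directions `nrm t` and `nrm (t + π)` are points of `C`,
within `1 / N` of vertices; the two arcs of the closed polygon between two vertices -/
def TaskWidth : Prop := ∀ (C : ℝ → ℂ) (K : Set ℂ) (z : ℂ) (ψ : ℝ → ℝ), Data C K z ψ → ∀ (N : ℕ), 0 < N → ∀ t : ℝ,
  supp K t + supp K (t + π) ≤ (∑ j ∈ Finset.range N, |dot (C ((j + 1) / N) - C (j / N)) (nrm t)|) / 2 + 2 / N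

/-- from `TaskWidth`, `TaskAbs` and `TaskSuppProps` -/
def TaskPerim : Prop := ∀ (C : ℝ → ℂ) (K : Set ℂ) (z : ℂ) (ψ : ℝ → ℝ), Data C K z ψ →
  ∫ t in (0 : ℝ)..(2 * π), supp K t ≤ 1

/-- `C` is `1`-Lipschitz (`edist_le` of the variation), and the inscribed polygon with a fine equidistant partition has
almost the length `1` (take a partition of `[0, 1]` with almost the full variation and move its points to grid points) -/
def TaskFine : Prop := ∀ (C : ℝ → ℂ) (K : Set ℂ) (z : ℂ) (ψ : ℝ → ℝ), Data C K z ψ →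
  (∀ a b, ‖C a - C b‖ ≤ |a - b|) ∧ ∀ δ : ℝ, 0 < δ → ∃ M : ℕ, 0 < M ∧ 1 / (M : ℝ) < δ ∧
    1 - δ ≤ ∑ j ∈ Finset.range M, ‖C ((j + 1) / M) - C (j / M)‖

/-- from `TaskFine`: cut `[x, y]` at the grid points `k / M` in it (`m = M + 2`, repeat the last point if necessary): the
defects `1 / M - ‖C ((j + 1) / M) - C (j / M)‖ ≥ 0` of all pieces of a period have the sum at most `δ` -/
def TaskCut : Prop := ∀ (C : ℝ → ℂ) (K : Set ℂ) (z : ℂ) (ψ : ℝ → ℝ), Data C K z ψ → ∀ δ : ℝ, 0 < δ →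
  ∃ m : ℕ, ∀ x y : ℝ, x ≤ y → y ≤ x + 1 → ∃ s : ℕ → ℝ, Monotone s ∧ s 0 = x ∧ s m = y ∧
    y - x ≤ (∑ j ∈ Finset.range m, ‖C (s (j + 1)) - C (s j)‖) + δ

/-- comparison of parameters: for `a ≤ b ≤ a + 1` take `s` from `TaskCut` for `x = φ a`, `y = φ b`, points `a j` with
`φ (a j) = s j` (increasing), so `φ b - φ a ≤ ∑ (‖γ (a (j + 1)) - γ (a j)‖ + 2 η) + δ ≤ L (b - a) + 2 m η + δ`; with `b = a + 1` this
gives the bound for `L`, and the reverse bound for `φ b - φ a` from the complement of `[a, b]` in a period; `C` is `1`-Lipschitz -/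
def TaskPhiBound : Prop := ∀ (C : ℝ → ℂ) (K : Set ℂ) (z : ℂ) (ψ : ℝ → ℝ), Data C K z ψ → ∀ ε : ℝ, 0 < ε →
  ∃ η : ℝ, 0 < η ∧ ∀ (L : ℝ) (γ : ℝ → ℂ) (φ : ℝ → ℝ), L ≤ 1 + η → (∀ a b, ‖γ a - γ b‖ ≤ L * |a - b|) → Monotone φ →
    Continuous φ → (∀ q, φ (q + 1) = φ q + 1) → (∀ q, ‖C (φ q) - γ q‖ ≤ η) →
    1 - ε ≤ L ∧ ∀ q, ‖γ q - C (q + φ 0)‖ ≤ ε

/-- density of tables -/
def TaskDensity : Prop := ∀ C : ℝ → ℂ, IsConvexCurve C → ∀ ε : ℝ, 0 < ε → ∃ (p : ℂ) (S : ℝ → ℝ), IsArc S ∧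
  ∀ q, ‖tab p S q - C q‖ ≤ ε

/-- the final statement -/
def Goal : Prop := ∀ C : ℝ → ℂ, IsConvexCurve C → ∃ α : ℕ → ℝ → ℂ, (∀ i, IsTable (α i)) ∧
  (∀ ε : ℝ≥0∞, 0 < ε → ∃ N : ℕ, ∀ i ≥ N, ∀ j ≥ N, dB (α i) (α j) < ε) ∧ TendstoUniformly α C atTop

end Pool.Agent.Q188.BT
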