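import Mathlib
import Pool.Agent.Q188.BT.Stmts

set_option autoImplicit false

/-!
# The convex body of an arc function

`K` is the set of all `x` with `dot x (nrm t) ≤ dot (pt t) (nrm t)` for all `t`.
-/

open Complex MeasureTheory Set Filter Topology
open scoped Real ContDiff ENNReal

namespace Pool.Agent.Q188.BT.Body

open Pool.Agent.Q188.BT

theorem dot_nrm (x : ℂ) (t : ℝ) : dot x (nrm t) = x.re * Real.sin t - x.im * Real.cos t := by
  have h : nrm t = (Real.sin t : ℂ) - (Real.cos t : ℂ) * Complex.I := by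
    unfold nrm e
    rw [Complex.exp_mul_I]
    push_cast
    linear_combination (-(Complex.sin t)) * Complex.I_mul_I
  unfold dot
  rw [h]
  simp [Complex.sub_re, Complex.sub_im, -Complex.ofReal_sin, -Complex.ofReal_cos]
  ring

theorem norm_bound (x y : ℂ) (t : ℝ) : dot x (nrm t) ≤ dot y (nrm t) + ‖x - y‖ := by
  rw [dot_nrm, dot_nrm]
  have h1 : (x.re - y.re) * Real.sin t - (x.im - y.im) * Real.cos t ≤ ‖x - y‖ := by
    have h2 : ‖x - y‖ = √((x.re - y.re) ^ 2 + (x.im - y.im) ^ 2) := by
      rw [Complex.norm_eq_sqrt_sq_add_sq, Complex.sub_re, Complex.sub_im]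
    rw [h2]
    apply Real.le_sqrt_of_sq_le
    nlinarith [Real.sin_sq_add_cos_sq t, sq_nonneg ((x.re - y.re) * Real.cos t + (x.im - y.im) * Real.sin t)]
  linarith

theorem e_eq (t : ℝ) : e t = (Real.cos t : ℂ) + (Real.sin t : ℂ) * Complex.I := by
  unfold e
  rw [Complex.exp_mul_I]
  push_cast
  ring

theorem main (h1 : TaskPt) (h2 : TaskStrict) (h3 : TaskSuppLe) : TaskBody := by
  intro p S hS
  obtain ⟨hder, hsm, hper⟩ := h1 p S hS
  have hle := h3 p S hS
  have hstr := h2 p S hS
  have hP : Function.Periodic (pt p S) (2 * π) := hper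
  have hcont : Continuous (pt p S) := hsm.continuous
  have hre : ∀ t, HasDerivAt (fun u => (pt p S u).re) (deriv S t * Real.cos t) t := by
    intro t
    have h := Complex.reCLM.hasFDerivAt.comp_hasDerivAt t (hder t)
    have h' : Complex.reCLM (((deriv S t : ℝ) : ℂ) * e t) = deriv S t * Real.cos t := by
      rw [e_eq, Complex.reCLM_apply, Complex.re_ofReal_mul]
      simp [-Complex.ofReal_sin, -Complex.ofReal_cos]
    rw [h'] at h
    exact h
  have him : ∀ t, HasDerivAt (fun u => (pt p S u).im) (deriv S t * Real.sin t) t := by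
    intro t
    have h := Complex.imCLM.hasFDerivAt.comp_hasDerivAt t (hder t)
    have h' : Complex.imCLM (((deriv S t : ℝ) : ℂ) * e t) = deriv S t * Real.sin t := by
      rw [e_eq, Complex.imCLM_apply, Complex.im_ofReal_mul]
      simp [-Complex.ofReal_sin, -Complex.ofReal_cos]
    rw [h'] at h
    exact h
  -- the function `h t - dot x (nrm t)`
  have hg : ∀ (x : ℂ) (t : ℝ), HasDerivAt
      (fun u => dot (pt p S u) (nrm u) - dot x (nrm u))
      (((pt p S t).re - x.re) * Real.cos t + ((pt p S t).im - x.im) * Real.sin t) t := by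
    intro x t
    have e1 : (fun u => dot (pt p S u) (nrm u) - dot x (nrm u)) =
        fun u => ((pt p S u).re - x.re) * Real.sin u - ((pt p S u).im - x.im) * Real.cos u := by
      funext u
      rw [dot_nrm, dot_nrm]
      ring
    rw [e1]
    have h4 := (((hre t).sub_const x.re).mul (Real.hasDerivAt_sin t)).sub
      (((him t).sub_const x.im).mul (Real.hasDerivAt_cos t))
    refine h4.congr_deriv ?_
    ring
  have hgc : ∀ x : ℂ, Continuous (fun u => dot (pt p S u) (nrm u) - dot x (nrm u)) := fun x =>
    continuous_iff_continuousAt.2 fun t => (hg x t).continuousAt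
  have hnper : ∀ t, nrm (t + 2 * π) = nrm t := by
    intro t
    unfold nrm e
    congr 1
    rw [show ((t + 2 * π : ℝ) : ℂ) * Complex.I = (t : ℂ) * Complex.I + 2 * π * Complex.I by
      push_cast; ring]
    rw [Complex.exp_add, Complex.exp_two_pi_mul_I, mul_one]
  -- unique maximum
  have huniq : ∀ (x : ℂ) (t : ℝ), (∀ u, dot x (nrm u) ≤ dot (pt p S u) (nrm u)) →
      dot x (nrm t) = dot (pt p S t) (nrm t) → x = pt p S t := by
    intro x t hx ht
    have hmin : IsLocalMin (fun u => dot (pt p S u) (nrm u) - dot x (nrm u)) t := by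
      refine Filter.Eventually.of_forall fun u => ?_
      show dot (pt p S t) (nrm t) - dot x (nrm t) ≤ dot (pt p S u) (nrm u) - dot x (nrm u)
      rw [ht, sub_self]
      exact sub_nonneg.2 (hx u)
    have h5 := hmin.hasDerivAt_eq_zero (hg x t)
    rw [dot_nrm, dot_nrm] at ht
    have h6 := Real.sin_sq_add_cos_sq t
    apply Complex.ext
    · linear_combination (Real.sin t) * ht - (Real.cos t) * h5 +
        ((pt p S t).re - x.re) * h6
    · linear_combination (-Real.cos t) * ht - (Real.sin t) * h5 +
        ((pt p S t).im - x.im) * h6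
  set K : Set ℂ := {x | ∀ t, dot x (nrm t) ≤ dot (pt p S t) (nrm t)} with hK
  have hdc : ∀ t, Continuous fun x : ℂ => dot x (nrm t) := by
    intro t
    simp only [dot_nrm]
    fun_prop
  have hclosed : IsClosed K := by
    have : K = ⋂ t, {x : ℂ | dot x (nrm t) ≤ dot (pt p S t) (nrm t)} := by
      ext x
      simp [hK]
    rw [this]
    exact isClosed_iInter fun t => isClosed_le (hdc t) continuous_const
  have hconv : Convex ℝ K := by
    intro x hx y hy a b ha hb hab t
    have h7 := hx t
    have h8 := hy t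
    rw [dot_nrm] at h7 h8 ⊢
    have h9 : (a • x + b • y).re = a * x.re + b * y.re := by simp
    have h10 : (a • x + b • y).im = a * x.im + b * y.im := by simp
    rw [h9, h10]
    have h11 : dot (pt p S t) (nrm t) = a * dot (pt p S t) (nrm t) + b * dot (pt p S t) (nrm t) := by
      rw [← add_mul, hab, one_mul]
    rw [h11]
    nlinarith [mul_le_mul_of_nonneg_left h7 ha, mul_le_mul_of_nonneg_left h8 hb]
  -- bounded
  have hbdd : Bornology.IsBounded K := by
    have hc : IsCompact (range (pt p S)) := hP.compact_of_continuous (by positivity) hcont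
    obtain ⟨M, hM⟩ := hc.isBounded.exists_norm_le
    refine (Metric.isBounded_iff_subset_closedBall (0 : ℂ)).2 ⟨2 * M, fun x hx => ?_⟩
    rw [mem_closedBall_zero_iff]
    have hM' : ∀ t, dot (pt p S t) (nrm t) ≤ M := by
      intro t
      have h := norm_bound (pt p S t) 0 t
      have h0 : dot 0 (nrm t) = 0 := by rw [dot_nrm]; simp
      rw [h0, sub_zero] at h
      linarith [hM _ (mem_range_self t)]
    have hx1 := (hx (π / 2)).trans (hM' _)
    have hx2 := (hx 0).trans (hM' _)
    have hx3 := (hx π).trans (hM' _)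
    have hx4 := (hx (-(π / 2))).trans (hM' _)
    rw [dot_nrm] at hx1 hx2 hx3 hx4
    simp at hx1 hx2 hx3 hx4
    have h12 := Complex.norm_le_abs_re_add_abs_im x
    have h13 : |x.re| ≤ M := abs_le.2 ⟨by linarith, by linarith⟩
    have h14 : |x.im| ≤ M := abs_le.2 ⟨by linarith, by linarith⟩
    linarith
  have hcomp : IsCompact K := Metric.isCompact_of_isClosed_isBounded hclosed hbdd
  -- points with strict inequalities are interior
  have hint : ∀ x : ℂ, (∀ t, dot x (nrm t) < dot (pt p S t) (nrm t)) → x ∈ interior K := by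
    intro x hx
    obtain ⟨t₀, -, ht₀⟩ := (isCompact_Icc (a := (0 : ℝ)) (b := 2 * π)).exists_isMinOn
      ⟨0, left_mem_Icc.2 (by positivity)⟩ (hgc x).continuousOn
    set δ : ℝ := dot (pt p S t₀) (nrm t₀) - dot x (nrm t₀) with hδ
    have hδ0 : 0 < δ := sub_pos.2 (hx t₀)
    have hall : ∀ t, δ ≤ dot (pt p S t) (nrm t) - dot x (nrm t) := by
      have hgp : Function.Periodic (fun u => dot (pt p S u) (nrm u) - dot x (nrm u)) (2 * π) := by
        intro u
        show dot (pt p S (u + 2 * π)) (nrm (u + 2 * π)) - dot x (nrm (u + 2 * π)) = _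
        rw [hper, hnper]
      intro t
      obtain ⟨u, hu, hut⟩ := hgp.exists_mem_Ico₀ (by positivity) t
      have h15 := ht₀ (Ico_subset_Icc_self hu)
      have h16 : dot (pt p S t) (nrm t) - dot x (nrm t) = dot (pt p S u) (nrm u) - dot x (nrm u) :=
        hut
      rw [h16]
      exact h15
    rw [mem_interior_iff_mem_nhds, Metric.mem_nhds_iff]
    refine ⟨δ, hδ0, fun y hy t => ?_⟩
    have h17 := norm_bound y x t
    rw [Metric.mem_ball, dist_eq_norm] at hy
    linarith [hall t]
  refine ⟨K, hcomp, hconv, ?_, ?_⟩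
  · -- an interior point
    refine ⟨(1 / 2 : ℝ) • pt p S 0 + (1 / 2 : ℝ) • pt p S π, hint _ fun t => ?_⟩
    have hsum : dot ((1 / 2 : ℝ) • pt p S 0 + (1 / 2 : ℝ) • pt p S π) (nrm t) =
        (dot (pt p S 0) (nrm t) + dot (pt p S π) (nrm t)) / 2 := by
      simp only [dot_nrm]
      simp
      ring
    rw [hsum]
    have hlt : dot (pt p S 0) (nrm t) < dot (pt p S t) (nrm t) ∨
        dot (pt p S π) (nrm t) < dot (pt p S t) (nrm t) := by
      have hlt' : ∀ u, t < u → u < t + 2 * π →
          dot (pt p S u) (nrm t) < dot (pt p S t) (nrm t) := by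
        intro u hu hu'
        have h18 := hstr t u hu hu'
        rw [dot_nrm] at h18 ⊢
        rw [dot_nrm]
        simp only [Complex.sub_re, Complex.sub_im] at h18
        linarith
      set n := toIcoDiv Real.two_pi_pos t 0 with hn
      have h19 := toIcoMod_mem_Ico Real.two_pi_pos t 0
      rw [toIcoMod, ← hn] at h19
      have h20 : pt p S (0 - n • (2 * π)) = pt p S 0 := hP.sub_zsmul_eq n
      have h21 : pt p S (π - n • (2 * π)) = pt p S π := hP.sub_zsmul_eq n
      rcases eq_or_lt_of_le h19.1 with h | h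
      · right
        rw [← h21]
        refine hlt' _ ?_ ?_
        · rw [h]
          linarith [Real.pi_pos]
        · linarith [h19.2, Real.pi_pos]
      · left
        rw [← h20]
        exact hlt' _ h h19.2
    rcases hlt with h | h
    · linarith [hle t π]
    · linarith [hle t 0]
  · -- the frontier
    rw [hclosed.frontier_eq]
    ext x
    constructor
    · rintro ⟨hx, hxi⟩
      by_contra hne
      apply hxi
      refine hint x fun t => lt_of_le_of_ne (hx t) fun h => hne ?_
      exact ⟨t, (huniq x t hx h).symm⟩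
    · rintro ⟨t, rfl⟩
      refine ⟨fun u => hle u t, fun hi => ?_⟩
      rw [mem_interior_iff_mem_nhds, Metric.mem_nhds_iff] at hi
      obtain ⟨ε, hε, hb⟩ := hi
      have h22 : pt p S t + ((ε / 2 * Real.sin t : ℝ) : ℂ) - ((ε / 2 * Real.cos t : ℝ) : ℂ) * Complex.I
          ∈ K := by
        apply hb
        rw [Metric.mem_ball, dist_eq_norm, Complex.norm_eq_sqrt_sq_add_sq]
        have h23 : ((pt p S t + ((ε / 2 * Real.sin t : ℝ) : ℂ) -
            ((ε / 2 * Real.cos t : ℝ) : ℂ) * Complex.I - pt p S t).re) ^ 2 +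
            ((pt p S t + ((ε / 2 * Real.sin t : ℝ) : ℂ) -
            ((ε / 2 * Real.cos t : ℝ) : ℂ) * Complex.I - pt p S t).im) ^ 2 = (ε / 2) ^ 2 := by
          simp [-Complex.ofReal_sin, -Complex.ofReal_cos, -Complex.ofReal_mul]
          linear_combination (ε / 2) ^ 2 * Real.sin_sq_add_cos_sq t
        rw [h23, Real.sqrt_sq (by positivity)]
        linarith
      have h24 := h22 t
      rw [dot_nrm, dot_nrm] at h24
      simp [-Complex.ofReal_sin, -Complex.ofReal_cos, -Complex.ofReal_mul] at h24
      nlinarith [Real.sin_sq_add_cos_sq t]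

end Pool.Agent.Q188.BT.Body
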