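import Mathlib
import Pool.Agent.Q188.BT.Stmts

set_option autoImplicit false

open Complex MeasureTheory Set Filter Topology
open scoped Real

namespace Pool.Agent.Q188.BT.Close

theorem nrm_eq (t : ℝ) : (nrm t).re = Real.sin t ∧ (nrm t).im = -Real.cos t := by
  unfold nrm e
  rw [Complex.exp_mul_I]
  constructor <;> simp [Complex.cos_ofReal_re, Complex.sin_ofReal_re, Complex.cos_ofReal_im,
    Complex.sin_ofReal_im]

theorem dot_nn (t : ℝ) : dot (nrm t) (nrm t) = 1 := by
  unfold dot
  rw [(nrm_eq t).1, (nrm_eq t).2]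
  have := Real.sin_sq_add_cos_sq t
  nlinarith

theorem norm_nrm (t : ℝ) : ‖nrm t‖ = 1 := by
  unfold nrm e
  rw [norm_mul, norm_neg, Complex.norm_I, Complex.norm_exp_ofReal_mul_I, one_mul]

theorem dot_add_mul (z v n : ℂ) (a : ℝ) : dot (z + (a : ℂ) * v) n = dot z n + a * dot v n := by
  unfold dot
  simp only [Complex.add_re, Complex.add_im, Complex.re_ofReal_mul, Complex.im_ofReal_mul]
  ring

theorem le_supp {K : Set ℂ} (hK : IsCompact K) {w : ℂ} (hw : w ∈ K) (t : ℝ) :
    dot w (nrm t) ≤ supp K t := by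
  unfold supp
  refine le_csSup ?_ ⟨w, hw, rfl⟩
  have : Continuous fun x : ℂ => dot x (nrm t) := by
    unfold dot
    fun_prop
  exact (hK.image this).bddAbove

theorem main (hS : TaskSupport) : Pool.Agent.Q188.BT.TaskClose := by
  intro K z x y v r R η H hK hc hr hin hout h0 h1 hH hy hyt hx hv hxz hyz
  set a := ‖x - z‖ with ha
  set b := ‖y - z‖ with hb
  have ex : x = z + (a : ℂ) * v := by rw [← hxz]; ring
  have ey : y = z + (b : ℂ) * v := by rw [← hyz]; ring
  have hxK : x ∈ K := hK.isClosed.frontier_subset hx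
  have haR : a ≤ R := by
    have := hout hxK
    rwa [Metric.mem_closedBall, dist_eq_norm] at this
  have a0 : 0 ≤ a := norm_nonneg _
  have b0 : 0 ≤ b := norm_nonneg _
  have hR0 : 0 ≤ R := a0.trans haR
  have hn : ‖x - y‖ = |a - b| := by
    have : x - y = ((a - b : ℝ) : ℂ) * v := by
      rw [ex, ey]; push_cast; ring
    rw [this, norm_mul, hv, mul_one, Complex.norm_real, Real.norm_eq_abs]
  have hball : ∀ t, z + (r : ℂ) * nrm t ∈ K := fun t => hin (by
    rw [Metric.mem_closedBall, dist_eq_norm, add_sub_cancel_left, norm_mul, norm_nrm, mul_one,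
      Complex.norm_real, Real.norm_eq_abs, abs_of_pos hr])
  have hint : (interior K).Nonempty := by
    refine ⟨z, ?_⟩
    refine interior_mono ((Metric.ball_subset_closedBall).trans hin) ?_
    rw [Metric.isOpen_ball.interior_eq]
    exact Metric.mem_ball_self hr
  rw [hn]
  rcases le_or_gt a b with hab | hab
  · obtain ⟨t, ht1, ht2⟩ := hS K x hK hc hint hx
    set dv := dot v (nrm t) with hdv
    have e1 := ht1 _ (hball t)
    rw [dot_add_mul, dot_nn, mul_one, ex, dot_add_mul, ← hdv] at e1
    have e2 := hy t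
    have e3 := (abs_le.1 (hH t)).2
    rw [← ht2, ex, dot_add_mul, ← hdv] at e3
    rw [ey, dot_add_mul, ← hdv] at e2
    -- a dv ≥ r, (b - a) dv ≤ η
    have f1 : r ≤ a * dv := by linarith
    have f2 : (b - a) * dv ≤ η := by linarith
    have dvpos : 0 < dv := by
      by_contra hcon
      push Not at hcon
      have := mul_nonpos_of_nonneg_of_nonpos a0 hcon
      linarith
    have f3 : r ≤ R * dv := f1.trans (mul_le_mul_of_nonneg_right haR dvpos.le)
    rw [abs_sub_comm, abs_of_nonneg (by linarith), le_div_iff₀ hr]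
    have f4 : (b - a) * r ≤ (b - a) * (R * dv) := mul_le_mul_of_nonneg_left f3 (by linarith)
    have f5 : R * ((b - a) * dv) ≤ R * η := mul_le_mul_of_nonneg_left f2 hR0
    have f6 : 0 ≤ η * R := mul_nonneg h0 hR0
    nlinarith
  · obtain ⟨t, ht⟩ := hyt
    set dv := dot v (nrm t) with hdv
    have e0 := abs_le.1 (hH t)
    have e1 := le_supp hK (hball t) t
    have e2 := le_supp hK hxK t
    rw [dot_add_mul, dot_nn, mul_one] at e1
    rw [ex, dot_add_mul, ← hdv] at e2
    rw [ey, dot_add_mul, ← hdv] at ht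
    have f1 : r / 2 ≤ b * dv := by linarith [e0.1, e0.2]
    have f2 : (a - b) * dv ≤ η := by linarith [e0.1, e0.2]
    have dvpos : 0 < dv := by
      by_contra hcon
      push Not at hcon
      have := mul_nonpos_of_nonneg_of_nonpos b0 hcon
      linarith
    have f3 : r / 2 ≤ R * dv := f1.trans (mul_le_mul_of_nonneg_right (by linarith) dvpos.le)
    rw [abs_of_nonneg (by linarith), le_div_iff₀ hr]
    have f4 : (a - b) * (r / 2) ≤ (a - b) * (R * dv) := mul_le_mul_of_nonneg_left f3 (by linarith)
    have f5 : R * ((a - b) * dv) ≤ R * η := mul_le_mul_of_nonneg_left f2 hR0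
    nlinarith

end Pool.Agent.Q188.BT.Close
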