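import Pool.Agent.Q188.BT.Stmts

set_option autoImplicit false

open Complex MeasureTheory Set Filter Topology
open scoped Real

namespace Pool.Agent.Q188.BT.Compact

open Pool.Agent.Q188.BT

private theorem cint (A B : ℝ → ℝ) (hA : Monotone A) (hB : Monotone B) (hAc : Continuous A)
    (hBc : Continuous B) (hB1 : B (2 * π) = B 0 + 1) (n : ℕ) (hn : 0 < n) (η : ℝ)
    (h : ∀ j : ℕ, j ≤ n → |A (2 * π * j / n) - B (2 * π * j / n)| ≤ η) :
    ∫ u in (0 : ℝ)..(2 * π), |A u - B u| ≤ 2 * π / n + 2 * π * η := by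
  have hn' : (n : ℝ) ≠ 0 := by positivity
  set a : ℕ → ℝ := fun j => 2 * π * j / n with ha
  have ha0 : a 0 = 0 := by simp [ha]
  have han : a n = 2 * π := by simp only [ha]; field_simp
  have hstep : ∀ j, a (j + 1) - a j = 2 * π / n := by
    intro j
    simp only [ha]
    push_cast
    field_simp
    ring
  have hcont : Continuous fun u => |A u - B u| := (hAc.sub hBc).abs
  have hsum := intervalIntegral.sum_integral_adjacent_intervals (f := fun u => |A u - B u|)
    (μ := volume) (a := a) (n := n) (fun k _ => hcont.intervalIntegrable _ _)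
  rw [ha0, han] at hsum
  rw [← hsum]
  have hle : ∀ j < n, ∫ u in a j..a (j + 1), |A u - B u| ≤
      2 * π / n * ((B (a (j + 1)) - B (a j)) + η) := by
    intro j hj
    have hab : a j ≤ a (j + 1) := by
      have h1 := hstep j
      have h2 : 0 ≤ 2 * π / n := by positivity
      linarith
    calc ∫ u in a j..a (j + 1), |A u - B u|
        ≤ ∫ u in a j..a (j + 1), ((B (a (j + 1)) - B (a j)) + η) := by
          apply intervalIntegral.integral_mono_on hab (hcont.intervalIntegrable _ _)
            (continuous_const.intervalIntegrable _ _)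
          intro u hu
          have h1 := abs_le.1 (h j hj.le)
          have h2 := abs_le.1 (h (j + 1) hj)
          have h3 := hA hu.1
          have h4 := hA hu.2
          have h5 := hB hu.1
          have h6 := hB hu.2
          change -η ≤ A (a j) - B (a j) ∧ A (a j) - B (a j) ≤ η at h1
          change -η ≤ A (a (j + 1)) - B (a (j + 1)) ∧ A (a (j + 1)) - B (a (j + 1)) ≤ η at h2
          rw [abs_le]
          constructor <;> linarith [h1.1, h1.2, h2.1, h2.2]
      _ = _ := by rw [intervalIntegral.integral_const, hstep, smul_eq_mul]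
  calc ∑ k ∈ Finset.range n, ∫ u in a k..a (k + 1), |A u - B u|
      ≤ ∑ k ∈ Finset.range n, 2 * π / n * ((B (a (k + 1)) - B (a k)) + η) :=
        Finset.sum_le_sum fun k hk => hle k (Finset.mem_range.1 hk)
    _ = 2 * π / n * ((B (a n) - B (a 0)) + n * η) := by
        rw [← Finset.mul_sum, Finset.sum_add_distrib, Finset.sum_range_sub (fun k => B (a k)),
          Finset.sum_const, Finset.card_range, nsmul_eq_mul]
    _ = 2 * π / n + 2 * π * η := by
        rw [han, ha0, hB1]
        field_simp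
        ring

theorem main : Pool.Agent.Q188.BT.TaskCompact := by
  intro p S R hp hmono hcont hq h0
  have hS2 : ∀ i, S i (2 * π) = S i 0 + 1 := by
    intro i
    have := hq i 0
    rwa [zero_add] at this
  let F : ℕ → ℂ × (ℕ × ℕ → ℝ) :=
    fun i => (p i, fun nj => S i (2 * π * ((min nj.2 nj.1 : ℕ) : ℝ) / nj.1))
  have hF : ∀ i, F i ∈ (Metric.closedBall (0 : ℂ) R) ×ˢ
      (Set.pi univ fun _ : ℕ × ℕ => Icc (0 : ℝ) 2) := by
    intro i
    refine ⟨by simpa using hp i, ?_⟩
    intro nj _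
    have hm : (0 : ℝ) ≤ 2 * π * ((min nj.2 nj.1 : ℕ) : ℝ) / nj.1 := by positivity
    have hm2 : 2 * π * ((min nj.2 nj.1 : ℕ) : ℝ) / nj.1 ≤ 2 * π := by
      rcases Nat.eq_zero_or_pos nj.1 with h | h
      · rw [h]
        simp
        positivity
      · rw [div_le_iff₀ (by exact_mod_cast h)]
        have h3 : ((min nj.2 nj.1 : ℕ) : ℝ) ≤ (nj.1 : ℝ) := by exact_mod_cast min_le_right _ _
        exact mul_le_mul_of_nonneg_left h3 (by positivity)
    have h1 := hmono i hm
    have h2 := hmono i hm2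
    have h3 := h0 i
    have h4 := hS2 i
    change 0 ≤ S i (2 * π * ((min nj.2 nj.1 : ℕ) : ℝ) / nj.1) ∧
      S i (2 * π * ((min nj.2 nj.1 : ℕ) : ℝ) / nj.1) ≤ 2
    constructor <;> linarith [h3.1, h3.2]
  have hK : IsCompact ((Metric.closedBall (0 : ℂ) R) ×ˢ
      (Set.pi univ fun _ : ℕ × ℕ => Icc (0 : ℝ) 2)) :=
    (isCompact_closedBall 0 R).prod (isCompact_univ_pi fun _ => isCompact_Icc)
  obtain ⟨L, -, k, hk, hlim⟩ := hK.tendsto_subseq hF
  refine ⟨k, hk, fun ε hε => ?_⟩
  have hp' : CauchySeq (fun i => p (k i)) := ((continuous_fst.tendsto L).comp hlim).cauchySeq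
  have hS' : ∀ n j : ℕ, j ≤ n → CauchySeq (fun i => S (k i) (2 * π * (j : ℝ) / n)) := by
    intro n j hj
    have h := ((tendsto_pi_nhds.1 ((continuous_snd.tendsto L).comp hlim)) (n, j)).cauchySeq
    have he : (fun i => ((Prod.snd ∘ F ∘ k) i) (n, j)) =
        fun i => S (k i) (2 * π * (j : ℝ) / n) := by
      funext i
      change S (k i) (2 * π * ((min j n : ℕ) : ℝ) / n) = _
      rw [min_eq_left hj]
    rw [← he]
    exact h
  obtain ⟨n, hn⟩ := exists_nat_gt (2 * π / (ε / 8))
  have hn0 : 0 < (n : ℝ) := lt_of_le_of_lt (by positivity) hn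
  have hn0' : 0 < n := by exact_mod_cast hn0
  have hn1 : 2 * π / n < ε / 8 := by
    rw [div_lt_iff₀ (by positivity)] at hn
    rw [div_lt_iff₀ hn0]
    linarith
  have hchoose : ∀ j : ℕ, ∃ N : ℕ, j ≤ n → ∀ a ≥ N, ∀ b ≥ N,
      |S (k a) (2 * π * (j : ℝ) / n) - S (k b) (2 * π * (j : ℝ) / n)| ≤ ε / 32 := by
    intro j
    by_cases hj : j ≤ n
    · obtain ⟨N, hN⟩ := Metric.cauchySeq_iff.1 (hS' n j hj) (ε / 32) (by positivity)
      exact ⟨N, fun _ a ha b hb => (hN a ha b hb).le⟩
    · exact ⟨0, fun h => absurd h hj⟩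
  choose N hN using hchoose
  obtain ⟨Np, hNp⟩ := Metric.cauchySeq_iff.1 hp' (ε / 4) (by positivity)
  refine ⟨max Np ((Finset.range (n + 1)).sup N), fun i hi j hj => ?_⟩
  have hsup : ∀ l : ℕ, l ≤ n → N l ≤ (Finset.range (n + 1)).sup N := fun l hl =>
    Finset.le_sup (f := N) (Finset.mem_range.2 (Nat.lt_succ_of_le hl))
  have hgrid : ∀ l : ℕ, l ≤ n →
      |S (k j) (2 * π * (l : ℝ) / n) - S (k i) (2 * π * (l : ℝ) / n)| ≤ ε / 32 := by
    intro l hl
    exact hN l hl j ((hsup l hl).trans ((le_max_right _ _).trans hj)) i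
      ((hsup l hl).trans ((le_max_right _ _).trans hi))
  have h1 : ‖p (k j) - p (k i)‖ < ε / 4 := by
    have := hNp j ((le_max_left _ _).trans hj) i ((le_max_left _ _).trans hi)
    rwa [dist_eq_norm] at this
  have h2 : |S (k j) 0 - S (k i) 0| ≤ ε / 32 := by
    have := hgrid 0 (Nat.zero_le n)
    simpa using this
  have h3 := cint (S (k j)) (S (k i)) (hmono _) (hmono _) (hcont _) (hcont _) (hS2 _) n hn0'
    (ε / 32) hgrid
  have h4 : 2 * π * (ε / 32) ≤ ε / 4 := by
    have := Real.pi_le_four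
    nlinarith
  linarith

end Pool.Agent.Q188.BT.Compact
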