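import Pool.Agent.Q188.BT.Stmts

set_option autoImplicit false

namespace Pool.Agent.Q188.BT.Cut

open Pool.Agent.Q188.BT Finset

lemma window (f : ℤ → ℝ) (M : ℕ) (hf : ∀ k, f (k + M) = f k) (k : ℤ) :
    ∑ j ∈ range M, f (k + j) = ∑ j ∈ range M, f (0 + (j : ℤ)) := by
  have step : ∀ k : ℤ, ∑ j ∈ range M, f (k + 1 + j) = ∑ j ∈ range M, f (k + j) := by
    intro k
    have h1 := sum_range_succ (fun j : ℕ => f (k + j)) M
    have h2 := sum_range_succ' (fun j : ℕ => f (k + j)) M
    rw [h1] at h2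
    have h3 : ∀ j : ℕ, f (k + ((j + 1 : ℕ) : ℤ)) = f (k + 1 + j) := by
      intro j
      congr 1
      push_cast
      ring
    simp only [h3] at h2
    have h4 : f (k + ((0 : ℕ) : ℤ)) = f k := by simp
    rw [h4, hf k] at h2
    linarith
  induction k using Int.induction_on with
  | zero => rfl
  | succ i ih => rw [step]; exact ih
  | pred i ih =>
    rw [← ih]
    have := step (-(i : ℤ) - 1)
    rw [← this]
    refine sum_congr rfl fun j _ => ?_
    congr 1
    ring

lemma clamp (x y u v : ℝ) (hxy : x ≤ y) (huv : u ≤ v) :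
    max x (min y u) = max x (min y v) ∨ (u ≤ max x (min y u) ∧ max x (min y v) ≤ v) := by
  rcases le_or_gt v x with h | h
  · left
    rw [max_eq_left, max_eq_left]
    · exact (min_le_right _ _).trans h
    · exact (min_le_right _ _).trans (huv.trans h)
  · rcases le_or_gt y u with h' | h'
    · left
      rw [min_eq_left h', min_eq_left (h'.trans huv)]
    · right
      rw [min_eq_right h'.le]
      exact ⟨le_max_right _ _, max_le h.le (min_le_right _ _)⟩

theorem main (hFine : TaskFine) : Pool.Agent.Q188.BT.TaskCut := by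
  intro C K z ψ hD δ hδ
  obtain ⟨hLip, hF⟩ := hFine C K z ψ hD
  obtain ⟨M, hM, hM1, hsum⟩ := hF (δ / 2) (by linarith)
  have hM0 : (0 : ℝ) < M := by exact_mod_cast hM
  set f : ℤ → ℝ := fun k => 1 / M - ‖C ((k + 1) / M) - C (k / M)‖ with hf
  have hper : ∀ k : ℤ, f (k + M) = f k := by
    intro k
    simp only [hf]
    have e1 : (((k + M : ℤ) : ℝ) + 1) / M = ((k : ℝ) + 1) / M + 1 := by
      push_cast
      field_simp
      ring
    have e2 : ((k + M : ℤ) : ℝ) / M = (k : ℝ) / M + 1 := by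
      push_cast
      field_simp
    rw [e1, e2, hD.periodic, hD.periodic]
  have hpos : ∀ k : ℤ, 0 ≤ f k := by
    intro k
    simp only [hf]
    have h1 := hLip (((k : ℝ) + 1) / M) ((k : ℝ) / M)
    have h2 : |((k : ℝ) + 1) / M - (k : ℝ) / M| = 1 / M := by
      rw [← sub_div, add_sub_cancel_left, abs_of_pos (by positivity)]
    linarith
  have hS0 : ∑ j ∈ range M, f (0 + (j : ℤ)) ≤ δ / 2 := by
    simp only [hf]
    rw [sum_sub_distrib, sum_const, card_range, nsmul_eq_mul, mul_one_div, div_self hM0.ne']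
    have : ∑ j ∈ range M, ‖C ((((0 + (j : ℤ) : ℤ) : ℝ) + 1) / M) - C (((0 + (j : ℤ) : ℤ) : ℝ) / M)‖ =
        ∑ j ∈ range M, ‖C ((j + 1) / M) - C (j / M)‖ := by
      refine sum_congr rfl fun j _ => ?_
      push_cast
      simp
    rw [this]
    linarith
  have hS : ∀ k : ℤ, ∑ j ∈ range M, f (k + j) ≤ δ / 2 := fun k => (window f M hper k).trans_le hS0
  have hone : ∀ k : ℤ, f k ≤ δ / 2 := by
    intro k
    refine le_trans ?_ (hS k)
    have h1 := single_le_sum (f := fun j : ℕ => f (k + j)) (s := range M) (fun j _ => hpos _) (mem_range.2 hM)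
    simpa using h1
  refine ⟨M + 1, fun x y hxy hyx => ?_⟩
  set k₀ : ℤ := ⌊x * M⌋ with hk₀
  have hk1 : (k₀ : ℝ) ≤ x * M := Int.floor_le _
  have hk2 : x * M < k₀ + 1 := Int.lt_floor_add_one _
  set g : ℕ → ℝ := fun j => ((k₀ : ℝ) + j) / M with hg
  have hgm : Monotone g := by
    intro i j hij
    simp only [hg]
    have : (i : ℝ) ≤ j := by exact_mod_cast hij
    gcongr
  set s : ℕ → ℝ := fun j => max x (min y (g j)) with hs
  have hs0 : s 0 = x := by
    simp only [hs, hg]
    apply max_eq_left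
    refine (min_le_right _ _).trans ?_
    rw [div_le_iff₀ hM0]
    simpa using hk1
  have hsM : s (M + 1) = y := by
    simp only [hs, hg]
    rw [min_eq_left, max_eq_right hxy]
    rw [le_div_iff₀ hM0]
    push_cast
    nlinarith
  have hdef : ∀ j : ℕ, s (j + 1) - s j - ‖C (s (j + 1)) - C (s j)‖ ≤ f (k₀ + j) := by
    intro j
    have e1 : f (k₀ + j) = (g (j + 1) - g j) - ‖C (g (j + 1)) - C (g j)‖ := by
      simp only [hf, hg]
      have e2 : (((k₀ + j : ℤ) : ℝ) + 1) / M = ((k₀ : ℝ) + ((j + 1 : ℕ) : ℝ)) / M := by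
        push_cast
        ring
      have e3 : ((k₀ + j : ℤ) : ℝ) / M = ((k₀ : ℝ) + j) / M := by
        push_cast
        ring
      have e4 : ((k₀ : ℝ) + ((j + 1 : ℕ) : ℝ)) / M - ((k₀ : ℝ) + j) / M = 1 / M := by
        push_cast
        rw [← sub_div]
        congr 1
        ring
      rw [e2, e3, e4]
    rcases clamp x y (g j) (g (j + 1)) hxy (hgm (Nat.le_succ j)) with h | ⟨h1, h2⟩
    · have : s (j + 1) = s j := h.symm
      rw [this, sub_self, sub_self, norm_zero, sub_zero]
      exact hpos _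
    · rw [e1]
      have h1' : g j ≤ s j := h1
      have h2' : s (j + 1) ≤ g (j + 1) := h2
      have t1 := hLip (g (j + 1)) (s (j + 1))
      have t2 := hLip (s j) (g j)
      rw [abs_of_nonneg (by linarith)] at t1 t2
      have t3 : ‖C (g (j + 1)) - C (g j)‖ ≤ ‖C (g (j + 1)) - C (s (j + 1))‖ + ‖C (s (j + 1)) - C (s j)‖ + ‖C (s j) - C (g j)‖ := by
        have : C (g (j + 1)) - C (g j) = (C (g (j + 1)) - C (s (j + 1))) + (C (s (j + 1)) - C (s j)) + (C (s j) - C (g j)) := by ring
        rw [this]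
        exact norm_add₃_le
      linarith
  refine ⟨s, ?_, hs0, hsM, ?_⟩
  · intro i j hij
    exact max_le_max le_rfl (min_le_min le_rfl (hgm hij))
  · have h1 : ∑ j ∈ range (M + 1), (s (j + 1) - s j) = y - x := by
      rw [sum_range_sub, hs0, hsM]
    have h2 : ∑ j ∈ range (M + 1), (s (j + 1) - s j - ‖C (s (j + 1)) - C (s j)‖) ≤ ∑ j ∈ range (M + 1), f (k₀ + j) :=
      sum_le_sum fun j _ => hdef j
    rw [sum_sub_distrib, h1, sum_range_succ (fun j : ℕ => f (k₀ + j))] at h2
    have h3 := hS k₀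
    have h4 := hone (k₀ + M)
    linarith

end Pool.Agent.Q188.BT.Cut
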