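import Pool.Agent.Q188.BT.Basic

set_option autoImplicit false

open Complex MeasureTheory Set Filter Topology
open scoped Real ContDiff ENNReal

namespace Pool.Agent.Q188.BT

/-- the parameter change from polar angles -/
lemma exists_phi {ψ ψ' : ℝ → ℝ} (hc : Continuous ψ) (hm : StrictMono ψ) (hq : ∀ q, ψ (q + 1) = ψ q + 2 * π)
    (hc' : Continuous ψ') (hm' : StrictMono ψ') (hq' : ∀ q, ψ' (q + 1) = ψ' q + 2 * π) :
    ∃ φ : ℝ → ℝ, Continuous φ ∧ Monotone φ ∧ (∀ q, φ (q + 1) = φ q + 1) ∧ ∀ q, ψ (φ q) = ψ' q := by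
  have hn : ∀ n : ℕ, ψ n = ψ 0 + 2 * π * n := by
    intro n
    induction n with
    | zero => simp
    | succ n ih => push_cast; rw [hq, ih]; ring
  have hn' : ∀ n : ℕ, ψ (-n) = ψ 0 - 2 * π * n := by
    intro n
    induction n with
    | zero => simp
    | succ n ih =>
      have := hq (-((n : ℝ) + 1))
      rw [show -((n : ℝ) + 1) + 1 = -n by ring, ih] at this
      push_cast; linarith
  have hpi := Real.pi_pos
  have htop : Tendsto ψ atTop atTop := by
    refine tendsto_atTop_atTop_of_monotone hm.monotone fun b => ?_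
    obtain ⟨n, h⟩ := exists_nat_gt ((b - ψ 0) / (2 * π))
    refine ⟨n, ?_⟩
    rw [hn]
    rw [div_lt_iff₀ (by positivity)] at h
    linarith
  have hbot : Tendsto ψ atBot atBot := by
    refine tendsto_atBot_atBot_of_monotone hm.monotone fun b => ?_
    obtain ⟨n, h⟩ := exists_nat_gt ((ψ 0 - b) / (2 * π))
    refine ⟨-n, ?_⟩
    rw [hn']
    rw [div_lt_iff₀ (by positivity)] at h
    linarith
  have hs : Function.Surjective ψ := hc.surjective htop hbot
  let E := hm.orderIsoOfSurjective ψ hs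
  have hE : ∀ y, ψ (E.symm y) = y := fun y => hm.orderIsoOfSurjective_self_symm_apply ψ hs y
  refine ⟨fun q => E.symm (ψ' q), E.symm.continuous.comp hc', fun a b h => E.symm.monotone (hm'.monotone h), fun q => ?_,
    fun q => hE _⟩
  apply hm.injective
  rw [hE, hq, hE, hq']

theorem density (hInv : TaskInv) (hReg : TaskReg) (hPolC : TaskPolarC) (hPol : TaskPolar) (hClose : TaskClose)
    (hProps : TaskSuppProps) (hMol : TaskMollify) (hFS : TaskFromSupp) (hPer : TaskPerim) (hPB : TaskPhiBound)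
    (hLe : TaskSuppLe) : TaskDensity := by
  intro C hC ε hε
  obtain ⟨K, z, ψ, D⟩ := hC
  have hpi := Real.pi_pos
  obtain ⟨r, hr, hrK⟩ : ∃ r > 0, Metric.closedBall z r ⊆ K := by
    have h1 := mem_interior_iff_mem_nhds.1 D.mem
    obtain ⟨r, hr, h⟩ := Metric.nhds_basis_closedBall.mem_iff.1 h1
    exact ⟨r, hr, h⟩
  obtain ⟨R, hR⟩ := D.compact.isBounded.subset_closedBall z
  have hzr : ∀ t, z + (r : ℂ) * nrm t ∈ K := fun t => hrK (by
    rw [Metric.mem_closedBall, dist_eq_norm, add_sub_cancel_left, norm_mul, norm_nrm, Complex.norm_real,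
      Real.norm_eq_abs, abs_of_pos hr, mul_one])
  have hrR : r ≤ R := by
    have h1 := hR (hzr 0)
    rw [Metric.mem_closedBall, dist_eq_norm, add_sub_cancel_left, norm_mul, norm_nrm, Complex.norm_real,
      Real.norm_eq_abs, abs_of_pos hr, mul_one] at h1
    exact h1
  have hR0 : 0 < R := lt_of_lt_of_le hr hrR
  have hCK : ∀ q, C q ∈ K := fun q => D.compact.isClosed.frontier_subset (D.frontier_eq ▸ mem_range_self q)
  have hCB : ∀ q, ‖C q‖ ≤ ‖z‖ + R := by
    intro q
    have h1 := hR (hCK q)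
    rw [Metric.mem_closedBall, dist_eq_norm] at h1
    calc ‖C q‖ = ‖z + (C q - z)‖ := by congr 1; ring
      _ ≤ ‖z‖ + ‖C q - z‖ := norm_add_le _ _
      _ ≤ _ := by linarith
  set B := ‖z‖ + R with hBdef
  have hB : 0 < B := by positivity
  set ε₁ := min (1 / 2) (ε / (2 * (1 + B))) with hε₁
  have hε₁0 : 0 < ε₁ := by positivity
  have hε₁a : ε₁ ≤ 1 / 2 := min_le_left _ _
  have hε₁b : ε₁ * (2 * (1 + B)) ≤ ε := by
    have : ε₁ ≤ ε / (2 * (1 + B)) := min_le_right _ _
    rwa [le_div_iff₀ (by positivity)] at this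
  obtain ⟨η, hη, hη'⟩ := hPB C K z ψ D ε₁ hε₁0
  obtain ⟨δ, hδ, hδ1, hδ2, hδ3, hδ4⟩ : ∃ δ > 0, δ ≤ r / 2 ∧ 2 * δ * R / r ≤ η ∧ 2 * π * δ ≤ η ∧ 2 * π * δ ≤ ε₁ := by
    refine ⟨min (r / 2) (min (η * r / (2 * R)) (min (η / (2 * π)) (ε₁ / (2 * π)))), by positivity, min_le_left _ _, ?_, ?_, ?_⟩
    · have h : min (r / 2) (min (η * r / (2 * R)) (min (η / (2 * π)) (ε₁ / (2 * π)))) ≤ η * r / (2 * R) :=
        (min_le_right _ _).trans (min_le_left _ _)
      rw [div_le_iff₀ hr]
      rw [le_div_iff₀ (by positivity)] at h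
      linarith
    · have h : min (r / 2) (min (η * r / (2 * R)) (min (η / (2 * π)) (ε₁ / (2 * π)))) ≤ η / (2 * π) :=
        (min_le_right _ _).trans ((min_le_right _ _).trans (min_le_left _ _))
      rw [le_div_iff₀ (by positivity)] at h
      linarith
    · have h : min (r / 2) (min (η * r / (2 * R)) (min (η / (2 * π)) (ε₁ / (2 * π)))) ≤ ε₁ / (2 * π) :=
        (min_le_right _ _).trans ((min_le_right _ _).trans (min_le_right _ _))
      rw [le_div_iff₀ (by positivity)] at h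
      linarith
  obtain ⟨hsc, hsp, hst, hsle, -⟩ := hProps K D.compact ⟨z, interior_subset D.mem⟩
  obtain ⟨H, Hs, Hp, Hpos, Hcl⟩ := hMol (supp K) hsc hsp hst δ hδ
  set L := ∫ t in (0 : ℝ)..(2 * π), H t with hL
  have h2pi : (0 : ℝ) < 2 * π := by positivity
  have hLle : L ≤ 1 + 2 * π * δ := by
    calc L ≤ ∫ t in (0 : ℝ)..(2 * π), (supp K t + δ) := by
          apply intervalIntegral.integral_mono_on h2pi.le (Hs.continuous.intervalIntegrable _ _)
            ((hsc.add continuous_const).intervalIntegrable _ _)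
          intro t _
          have := abs_le.1 (Hcl t)
          show H t ≤ supp K t + δ
          linarith
      _ = (∫ t in (0 : ℝ)..(2 * π), supp K t) + 2 * π * δ := by
          rw [intervalIntegral.integral_add (hsc.intervalIntegrable _ _) (continuous_const.intervalIntegrable _ _)]
          simp
      _ ≤ _ := by linarith [hPer C K z ψ D]
  have Hs1 : ContDiff ℝ ∞ (deriv H) := (contDiff_infty_iff_deriv.1 Hs).2
  have Hs2 : ContDiff ℝ ∞ (deriv (deriv H)) := (contDiff_infty_iff_deriv.1 Hs1).2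
  have Hd1 : Differentiable ℝ (deriv H) := (contDiff_infty_iff_deriv.1 Hs1).1
  have Hper1 : ∀ t, deriv H (t + 2 * π) = deriv H t := by
    intro t
    have : (fun t => H (t + 2 * π)) = H := funext Hp
    rw [← deriv_comp_add_const, this]
  have hLpos : 0 < L := by
    have h1 : ∫ t in (0 : ℝ)..(2 * π), (H t + deriv (deriv H) t) = L := by
      rw [intervalIntegral.integral_add (Hs.continuous.intervalIntegrable _ _) (Hs2.continuous.intervalIntegrable _ _)]
      rw [intervalIntegral.integral_eq_sub_of_hasDerivAt (f := deriv H) (fun x _ => (Hd1 x).hasDerivAt)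
        (Hs2.continuous.intervalIntegrable _ _)]
      have := Hper1 0
      rw [zero_add] at this
      rw [this]; simp [hL]
    rw [← h1]
    exact intervalIntegral.intervalIntegral_pos_of_pos ((Hs.continuous.add Hs2.continuous).intervalIntegrable _ _) Hpos h2pi
  -- the normalised support function
  have hH1d : ∀ t, deriv (fun t => L⁻¹ * H t) t = L⁻¹ * deriv H t := fun t => deriv_const_mul_field _
  have hH1dd : ∀ t, deriv (deriv (fun t => L⁻¹ * H t)) t = L⁻¹ * deriv (deriv H) t := by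
    intro t
    rw [show deriv (fun t => L⁻¹ * H t) = fun t => L⁻¹ * deriv H t from funext hH1d]
    exact deriv_const_mul_field _
  obtain ⟨p, S, hS, -, hdot⟩ := hFS (fun t => L⁻¹ * H t) (contDiff_const.mul Hs) (fun t => by simp only [Hp])
    (fun t => by
      rw [hH1dd, ← mul_add]
      exact mul_pos (inv_pos.2 hLpos) (Hpos t))
    (by rw [intervalIntegral.integral_const_mul, ← hL, inv_mul_cancel₀ hLpos.ne'])
  have hdot' : ∀ t, dot (pt p S t) (nrm t) = L⁻¹ * H t := hdot
  have hzH : ∀ t, dot z (nrm t) < H t := by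
    intro t
    have h1 := hsle _ (hzr t) t
    rw [dot_add_left, dot_smul_left, dot_nrm_self, mul_one] at h1
    have h2 := abs_le.1 (Hcl t)
    linarith
  obtain ⟨ψ', c', m', qp', pol'⟩ := hPol p S (((L⁻¹ : ℝ) : ℂ) * z) hS (fun t => by
    rw [dot_sub_left, dot_smul_left, hdot', ← mul_sub]
    exact mul_neg_of_pos_of_neg (inv_pos.2 hLpos) (by linarith [hzH t]))
  obtain ⟨φ, hφc, hφm, hφq, hφ⟩ := exists_phi D.polar_cont (hPolC C K z ψ D) D.polar_quasi c' m' qp'
  obtain ⟨-, htabp, -, -, htabl⟩ := hReg p S hS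
  obtain ⟨θ, -, hθ1, -, -, -, -, hθ2, -⟩ := hInv S hS
  have hLC : (L : ℂ) ≠ 0 := by exact_mod_cast hLpos.ne'
  have hdotγ : ∀ q t, dot ((L : ℂ) * tab p S q) (nrm t) ≤ H t := by
    intro q t
    rw [dot_smul_left, hθ2 p q]
    calc L * dot (pt p S (θ q)) (nrm t) ≤ L * dot (pt p S t) (nrm t) := by
          apply mul_le_mul_of_nonneg_left (hLe p S hS t (θ q)) hLpos.le
      _ = H t := by rw [hdot', ← mul_assoc, mul_inv_cancel₀ hLpos.ne', one_mul]
  have hnear : ∀ q, ‖C (φ q) - (L : ℂ) * tab p S q‖ ≤ η := by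
    intro q
    have h1 := hClose K z (C (φ q)) ((L : ℂ) * tab p S q) (e (ψ' q)) r R δ H D.compact D.convex hr hrK hR hδ.le hδ1 Hcl
      (hdotγ q) ⟨θ q, by
        rw [dot_smul_left, hθ2 p q, hdot', ← mul_assoc, mul_inv_cancel₀ hLpos.ne', one_mul]⟩
      (D.frontier_eq ▸ mem_range_self _) (norm_e _) (by rw [← hφ q]; exact D.polar (φ q)) (by
        have h2 := pol' q
        have h3 : (L : ℂ) * tab p S q - z = (L : ℂ) * (tab p S q - ((L⁻¹ : ℝ) : ℂ) * z) := by
          push_cast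
          rw [mul_sub, ← mul_assoc, mul_inv_cancel₀ hLC, one_mul]
        rw [h3, norm_mul, Complex.norm_real, Real.norm_eq_abs, abs_of_pos hLpos]
        rw [Complex.ofReal_mul, mul_assoc, ← h2])
    exact h1.trans hδ2
  obtain ⟨hL1, hfin⟩ := hη' L (fun q => (L : ℂ) * tab p S q) φ (by linarith) (fun a b => by
      rw [← mul_sub, norm_mul, Complex.norm_real, Real.norm_eq_abs, abs_of_pos hLpos]
      exact mul_le_mul_of_nonneg_left (htabl a b) hLpos.le) hφm hφc hφq hnear
  refine ⟨p, fun t => S t + φ 0, isArc_add hS _, fun q => ?_⟩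
  rw [tab_add hInv p hS]
  have h5 := hfin (q - φ 0)
  rw [sub_add_cancel] at h5
  set α := tab p S (q - φ 0) with hα
  have h6 : α - C q = ((L⁻¹ : ℝ) : ℂ) * ((L : ℂ) * α - C q) + (((L⁻¹ - 1 : ℝ)) : ℂ) * C q := by
    push_cast
    field_simp
    ring
  have hLinv : L⁻¹ ≤ 2 := by
    rw [inv_le_comm₀ hLpos (by norm_num)]
    linarith
  have h7 : |L⁻¹ - 1| ≤ 2 * ε₁ := by
    have h8 : L⁻¹ - 1 = L⁻¹ * (1 - L) := by field_simp
    rw [h8, abs_mul, abs_of_pos (inv_pos.2 hLpos)]
    have h9 : |1 - L| ≤ ε₁ := abs_le.2 ⟨by linarith, by linarith⟩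
    exact mul_le_mul hLinv h9 (abs_nonneg _) (by norm_num)
  rw [h6]
  calc _ ≤ ‖((L⁻¹ : ℝ) : ℂ) * ((L : ℂ) * α - C q)‖ + ‖(((L⁻¹ - 1 : ℝ)) : ℂ) * C q‖ := norm_add_le _ _
    _ = L⁻¹ * ‖(L : ℂ) * α - C q‖ + |L⁻¹ - 1| * ‖C q‖ := by
        rw [norm_mul, norm_mul, Complex.norm_real, Complex.norm_real, Real.norm_eq_abs, Real.norm_eq_abs,
          abs_of_pos (inv_pos.2 hLpos)]
    _ ≤ 2 * ε₁ + 2 * ε₁ * B := by
        have := mul_le_mul hLinv h5 (norm_nonneg _) (by norm_num)
        have := mul_le_mul h7 (hCB q) (norm_nonneg _) (by positivity)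
        linarith
    _ = ε₁ * (2 * (1 + B)) := by ring
    _ ≤ ε := hε₁b

end Pool.Agent.Q188.BT
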