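import Pool.Agent.Q188.BT.Basic

set_option autoImplicit false

open Complex MeasureTheory Set Filter Topology
open scoped Real ContDiff ENNReal

namespace Pool.Agent.Q188.BT

theorem final (hInv : TaskInv) (hReg : TaskReg) (hTab : TaskTab) (hHom : TaskHom) (hComp : TaskCompact)
    (hDens : TaskDensity) : Goal := by
  intro C hC
  choose p S hS hclose using fun n : ℕ => hDens C hC (1 / ((n : ℝ) + 1)) (by positivity)
  obtain ⟨K, z, ψ, D⟩ := id hC
  obtain ⟨R, hR⟩ := D.compact.isBounded.subset_closedBall (0 : ℂ)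
  have hCB : ∀ q, ‖C q‖ ≤ R := by
    intro q
    have h1 : C q ∈ K := D.compact.isClosed.frontier_subset (D.frontier_eq ▸ mem_range_self q)
    have h2 := hR h1
    rwa [Metric.mem_closedBall, dist_zero_right] at h2
  have hper : ∀ n q, ∀ k : ℤ, tab (p n) (S n) (q + k) = tab (p n) (S n) q := by
    intro n q k
    have h1 : Function.Periodic (tab (p n) (S n)) 1 := (hReg (p n) (S n) (hS n)).2.1
    have := h1.int_mul k q
    simpa using this
  -- normalisation
  set T : ℕ → ℝ → ℝ := fun n t => S n t + (-(⌊S n 0⌋ : ℝ)) with hT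
  have hTarc : ∀ n, IsArc (T n) := fun n => isArc_add (hS n) _
  have hTtab : ∀ n q, tab (p n) (T n) q = tab (p n) (S n) q := by
    intro n q
    rw [hT, tab_add hInv (p n) (hS n)]
    rw [sub_neg_eq_add]
    exact hper n q _
  have hT0 : ∀ n, 0 ≤ T n 0 ∧ T n 0 ≤ 1 := by
    intro n
    have h1 := Int.floor_le (S n 0)
    have h2 := Int.lt_floor_add_one (S n 0)
    simp only [hT]
    constructor <;> linarith
  have hTmono : ∀ n, Monotone (T n) := fun n => (strictMono_of_deriv_pos (hTarc n).pos).monotone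
  have hp : ∀ n, ‖p n‖ ≤ R + 1 := by
    intro n
    obtain ⟨θ, -, -, -, -, -, -, -, h2⟩ := hInv (S n) (hS n)
    have h3 := h2 (p n) 0
    have h4 : pt (p n) (S n) 0 = p n := by simp [pt]
    rw [h4] at h3
    have h5 := hclose n (S n 0)
    rw [h3] at h5
    have h6 : (1 : ℝ) / ((n : ℝ) + 1) ≤ 1 := by
      rw [div_le_one (by positivity)]
      have : (0 : ℝ) ≤ n := Nat.cast_nonneg n
      linarith
    calc ‖p n‖ = ‖(p n - C (S n 0)) + C (S n 0)‖ := by congr 1; ring
      _ ≤ ‖p n - C (S n 0)‖ + ‖C (S n 0)‖ := norm_add_le _ _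
      _ ≤ R + 1 := by linarith [hCB (S n 0)]
  obtain ⟨k, hk, hCauchy⟩ := hComp p T (R + 1) hp hTmono (fun n => (hTarc n).smooth.continuous) (fun n => (hTarc n).quasi) hT0
  refine ⟨fun i => tab (p (k i)) (T (k i)), fun i => hTab _ _ (hTarc _), fun ε hε => ?_, ?_⟩
  · by_cases hε' : ε = ⊤
    · obtain ⟨N, hN⟩ := hCauchy 1 one_pos
      refine ⟨N, fun i _ j _ => ?_⟩
      rw [hε']
      exact lt_of_le_of_lt (hHom _ _ _ _ (hTarc _) (hTarc _)) ENNReal.ofReal_lt_top
    · obtain ⟨N, hN⟩ := hCauchy ε.toReal (ENNReal.toReal_pos hε.ne' hε')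
      refine ⟨N, fun i hi j hj => ?_⟩
      refine lt_of_le_of_lt (hHom _ _ _ _ (hTarc _) (hTarc _)) ?_
      rw [ENNReal.ofReal_lt_iff_lt_toReal ?_ hε']
      · exact hN i hi j hj
      · have : 0 ≤ ∫ u in (0 : ℝ)..(2 * π), |T (k j) u - T (k i) u| :=
          intervalIntegral.integral_nonneg (by positivity) (fun u _ => abs_nonneg _)
        positivity
  · rw [Metric.tendstoUniformly_iff]
    intro ε hε
    obtain ⟨N, hN⟩ := exists_nat_gt (1 / ε)
    filter_upwards [eventually_ge_atTop N] with i hi q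
    rw [dist_comm, dist_eq_norm, hTtab]
    refine lt_of_le_of_lt (hclose (k i) q) ?_
    have h1 : (N : ℝ) ≤ k i := by exact_mod_cast hi.trans (hk.id_le i)
    rw [div_lt_iff₀ (by positivity)]
    rw [div_lt_iff₀ hε] at hN
    nlinarith
end Pool.Agent.Q188.BT
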