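import Pool.Agent.Q188.BT.Stmts

set_option autoImplicit false

open Complex MeasureTheory Set Filter Topology
open scoped Real ContDiff ENNReal

namespace Pool.Agent.Q188.BT.FromSupp

open Pool.Agent.Q188.BT

lemma e_hasDeriv (t : ℝ) : HasDerivAt e (-(nrm t)) t := by
  have h1 : HasDerivAt (fun s : ℝ => (s : ℂ) * Complex.I) (1 * Complex.I) t :=
    (Complex.ofRealCLM.hasDerivAt (x := t)).mul_const Complex.I
  have h2 := h1.cexp
  have h3 : HasDerivAt e (Complex.exp ((t : ℂ) * Complex.I) * (1 * Complex.I)) t := h2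
  refine h3.congr_deriv ?_
  unfold nrm e
  ring

lemma nrm_hasDeriv (t : ℝ) : HasDerivAt nrm (e t) t := by
  have h := (e_hasDeriv t).const_mul (-Complex.I)
  have h3 : HasDerivAt nrm (-Complex.I * -(nrm t)) t := h
  refine h3.congr_deriv ?_
  unfold nrm
  linear_combination -(e t) * Complex.I_sq

lemma e_two_pi (t : ℝ) : e (t + 2 * π) = e t := by
  unfold e
  push_cast
  rw [add_mul, Complex.exp_periodic]

lemma nrm_two_pi (t : ℝ) : nrm (t + 2 * π) = nrm t := by
  unfold nrm
  rw [e_two_pi]

lemma e_cont : Continuous e := by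
  unfold e
  fun_prop

lemma dot_eq (a b t : ℝ) : dot ((a : ℂ) * nrm t + (b : ℂ) * e t) (nrm t) = a := by
  have he : e t = (Real.cos t : ℂ) + (Real.sin t : ℂ) * Complex.I := by
    unfold e
    rw [Complex.exp_mul_I]
    push_cast
    rfl
  have hn : nrm t = (Real.sin t : ℂ) + ((-Real.cos t : ℝ) : ℂ) * Complex.I := by
    unfold nrm
    rw [he]
    push_cast
    linear_combination -(Complex.sin t) * Complex.I_sq
  have h1 : (e t).re = Real.cos t := by
    rw [he]
    simp only [Complex.add_re, Complex.mul_re, Complex.ofReal_re, Complex.ofReal_im, Complex.I_re,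
      Complex.I_im]
    ring
  have h2 : (e t).im = Real.sin t := by
    rw [he]
    simp only [Complex.add_im, Complex.mul_im, Complex.ofReal_re, Complex.ofReal_im, Complex.I_re,
      Complex.I_im]
    ring
  have h3 : (nrm t).re = Real.sin t := by
    rw [hn]
    simp only [Complex.add_re, Complex.mul_re, Complex.ofReal_re, Complex.ofReal_im, Complex.I_re,
      Complex.I_im]
    ring
  have h4 : (nrm t).im = -Real.cos t := by
    rw [hn]
    simp only [Complex.add_im, Complex.mul_im, Complex.ofReal_re, Complex.ofReal_im, Complex.I_re,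
      Complex.I_im]
    ring
  unfold dot
  simp only [Complex.add_re, Complex.add_im, Complex.mul_re, Complex.mul_im, Complex.ofReal_re,
    Complex.ofReal_im, h1, h2, h3, h4, zero_mul, sub_zero, add_zero]
  linear_combination a * Real.sin_sq_add_cos_sq t

theorem main : Pool.Agent.Q188.BT.TaskFromSupp := by
  intro H hH hper hpos hint
  have hH0 : Differentiable ℝ H := (contDiff_infty_iff_deriv.1 hH).1
  have hH1 : ContDiff ℝ ∞ (deriv H) := (contDiff_infty_iff_deriv.1 hH).2
  have hH1d : Differentiable ℝ (deriv H) := (contDiff_infty_iff_deriv.1 hH1).1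
  have hH2 : ContDiff ℝ ∞ (deriv (deriv H)) := (contDiff_infty_iff_deriv.1 hH1).2
  have hper1 : ∀ t, deriv H (t + 2 * π) = deriv H t := by
    intro t
    have h1 : (fun t => H (t + 2 * π)) = H := funext hper
    have h2 : deriv (fun t => H (t + 2 * π)) t = deriv H (t + 2 * π) := deriv_comp_add_const _ _ _
    rw [← h2, h1]
  -- the curve
  set F : ℝ → ℂ := fun t => ((H t : ℝ) : ℂ) * nrm t + ((deriv H t : ℝ) : ℂ) * e t with hF
  have hF' : ∀ t, HasDerivAt F (((H t + deriv (deriv H) t : ℝ) : ℂ) * e t) t := by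
    intro t
    have h1 : HasDerivAt (fun t => ((H t : ℝ) : ℂ)) ((deriv H t : ℝ) : ℂ) t :=
      (hH0 t).hasDerivAt.ofReal_comp
    have h2 : HasDerivAt (fun t => ((deriv H t : ℝ) : ℂ)) ((deriv (deriv H) t : ℝ) : ℂ) t :=
      (hH1d t).hasDerivAt.ofReal_comp
    have h3 := (h1.mul (nrm_hasDeriv t)).add (h2.mul (e_hasDeriv t))
    have h4 : HasDerivAt F (((deriv H t : ℝ) : ℂ) * nrm t + ((H t : ℝ) : ℂ) * e t +
        (((deriv (deriv H) t : ℝ) : ℂ) * e t + ((deriv H t : ℝ) : ℂ) * -(nrm t))) t := h3
    refine h4.congr_deriv ?_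
    push_cast
    ring
  -- the arc function
  set S : ℝ → ℝ := fun t => (∫ u in (0 : ℝ)..t, H u) + (deriv H t - deriv H 0) with hS
  have hS' : ∀ t, HasDerivAt S (H t + deriv (deriv H) t) t := by
    intro t
    have h1 := (hH.continuous.integral_hasStrictDerivAt 0 t).hasDerivAt
    exact h1.add ((hH1d t).hasDerivAt.sub_const _)
  have hSd : deriv S = fun t => H t + deriv (deriv H) t := funext fun t => (hS' t).deriv
  have hint' : ∀ t, ∫ u in (0 : ℝ)..t, ((deriv S u : ℝ) : ℂ) * e u = F t - F 0 := by
    intro t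
    rw [hSd]
    refine intervalIntegral.integral_eq_sub_of_hasDerivAt (fun x _ => hF' x) ?_
    apply Continuous.intervalIntegrable
    have h1 := hH.continuous
    have h2 := hH2.continuous
    have h3 := e_cont
    fun_prop
  have hF2 : ∀ t, F (t + 2 * π) = F t := by
    intro t
    simp only [hF]
    rw [hper, hper1, nrm_two_pi, e_two_pi]
  refine ⟨F 0, S, ⟨?_, ?_, ?_, ?_⟩, ?_, ?_⟩
  · rw [contDiff_infty_iff_deriv]
    refine ⟨fun t => (hS' t).differentiableAt, ?_⟩
    rw [hSd]
    exact hH.add hH2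
  · intro t
    rw [hSd]
    exact hpos t
  · intro t
    simp only [hS]
    have h1 : ∫ u in (0 : ℝ)..(t + 2 * π), H u = (∫ u in (0 : ℝ)..t, H u) + 1 := by
      rw [← intervalIntegral.integral_add_adjacent_intervals (b := t)
        (hH.continuous.intervalIntegrable _ _) (hH.continuous.intervalIntegrable _ _)]
      have h2 : Function.Periodic H (2 * π) := hper
      rw [h2.intervalIntegral_add_eq t 0, zero_add, hint]
    rw [h1, hper1]
    ring
  · rw [hint']
    have := hF2 0
    rw [zero_add] at this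
    rw [this, sub_self]
  · intro t
    unfold pt
    rw [hint']
    ring
  · intro t
    have : pt (F 0) S t = ((H t : ℝ) : ℂ) * nrm t + ((deriv H t : ℝ) : ℂ) * e t := by
      unfold pt
      rw [hint']
      ring
    rw [this, dot_eq]

end Pool.Agent.Q188.BT.FromSupp
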