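import Pool.Agent.Q188.BT.Stmts

set_option autoImplicit false

open Complex MeasureTheory Set Filter Topology
open scoped Real ContDiff ENNReal

namespace Pool.Agent.Q188.BT.Hom

open Pool.Agent.Q188.BT

lemma norm_e (t : ℝ) : ‖e t‖ = 1 := by
  unfold e
  exact Complex.norm_exp_ofReal_mul_I t

lemma continuous_e : Continuous e := by
  unfold e
  fun_prop

theorem main (hInv : TaskInv) (hPt : TaskPt) (hTab : TaskTab) (hComb : TaskComb) (hPhi : TaskPhi)
    (hDeriv : TaskDeriv) : TaskHom := by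
  intro p₀ p₁ S₀ S₁ h₀ h₁
  obtain ⟨Θ, hΘ, hΘ1, hΘ2⟩ := hPhi S₀ S₁ h₀ h₁
  obtain ⟨-, hs₀, hper₀⟩ := hPt p₀ S₀ h₀
  obtain ⟨-, hs₁, hper₁⟩ := hPt p₁ S₁ h₁
  have hlamc : ContDiff ℝ ∞ lam := Real.smoothTransition.contDiff
  have hlam0 : lam 0 = 0 := Real.smoothTransition.zero
  have hlam1 : lam 1 = 1 := Real.smoothTransition.one
  have hlamI : ∀ s, lam s ∈ Icc (0 : ℝ) 1 := fun s =>
    ⟨Real.smoothTransition.nonneg s, Real.smoothTransition.le_one s⟩
  have hc₀ : Continuous S₀ := h₀.smooth.continuous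
  have hc₁ : Continuous S₁ := h₁.smooth.continuous
  set B : ℝ := ‖p₁ - p₀‖ + |S₁ 0 - S₀ 0| + ∫ u in (0 : ℝ)..(2 * π), |S₁ u - S₀ u| with hB
  let G : ℝ → ℝ → ℂ := fun s q => ((1 - lam s : ℝ) : ℂ) * pt p₀ S₀ (Θ (s, q)) +
    ((lam s : ℝ) : ℂ) * pt p₁ S₁ (Θ (s, q))
  have hof : ContDiff ℝ ∞ (fun x : ℝ => (x : ℂ)) := Complex.ofRealCLM.contDiff
  have hGs : ContDiff ℝ ∞ (fun x : ℝ × ℝ => G x.1 x.2) := by
    have h1 : ContDiff ℝ ∞ (fun x : ℝ × ℝ => Θ (x.1, x.2)) := hΘ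
    have h2 : ContDiff ℝ ∞ (fun x : ℝ × ℝ => lam x.1) := hlamc.comp contDiff_fst
    have h3 : ContDiff ℝ ∞ (fun x : ℝ × ℝ => ((1 - lam x.1 : ℝ) : ℂ)) := hof.comp (contDiff_const.sub h2)
    have h4 : ContDiff ℝ ∞ (fun x : ℝ × ℝ => ((lam x.1 : ℝ) : ℂ)) := hof.comp h2
    exact (h3.mul (hs₀.comp h1)).add (h4.mul (hs₁.comp h1))
  have hGtab : ∀ s, G s = tab (((1 - lam s : ℝ) : ℂ) * p₀ + ((lam s : ℝ) : ℂ) * p₁)
      (fun t => (1 - lam s) * S₀ t + lam s * S₁ t) := by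
    intro s
    obtain ⟨hA, hpt⟩ := hComb S₀ S₁ h₀ h₁ (lam s) (hlamI s)
    obtain ⟨θ, -, -, -, -, -, -, -, hθ⟩ := hInv _ hA
    funext q
    have h1 := hθ (((1 - lam s : ℝ) : ℂ) * p₀ + ((lam s : ℝ) : ℂ) * p₁) (Θ (s, q))
    simp only [hΘ1 s q] at h1
    rw [h1, hpt]
  have hper : ∀ s, Function.Periodic (fun q => Θ (s, q) - 2 * π * q) 1 := by
    intro s q
    have h1 : Θ (s, q + 1) = Θ (s, q) + 2 * π := by
      have h2 := hΘ2 s (Θ (s, q) + 2 * π)
      rw [h₀.quasi, h₁.quasi] at h2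
      rw [← h2]
      congr 2
      have := hΘ1 s q
      linarith
    show Θ (s, q + 1) - 2 * π * (q + 1) = Θ (s, q) - 2 * π * q
    rw [h1]
    ring
  have hΘk : ∀ s q (k : ℤ), Θ (s, q + k) = Θ (s, q) + 2 * π * k := by
    intro s q k
    have h1 := (hper s).int_mul k q
    simp only [mul_one] at h1
    linarith
  have hGper : ∀ s, Function.Periodic (G s) 1 := by
    intro s q
    have h1 : Θ (s, q + 1) = Θ (s, q) + 2 * π := by
      have := hΘk s q 1
      push_cast at this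
      rw [this]
      ring
    show ((1 - lam s : ℝ) : ℂ) * pt p₀ S₀ (Θ (s, q + 1)) + ((lam s : ℝ) : ℂ) * pt p₁ S₁ (Θ (s, q + 1)) = _
    rw [h1, hper₀, hper₁]
  have hGk : ∀ s q (k : ℤ), G s (q + k) = G s q := by
    intro s q k
    have h1 := (hGper s).int_mul k q
    rwa [mul_one] at h1
  have hlam' : ∀ s, 0 ≤ deriv lam s := fun s => Real.smoothTransition.monotone.deriv_nonneg
  have hB0 : 0 ≤ B := by
    have h1 : 0 ≤ ∫ u in (0 : ℝ)..(2 * π), |S₁ u - S₀ u| :=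
      intervalIntegral.integral_nonneg (by positivity) fun u _ => abs_nonneg _
    positivity
  have hbound : ∀ s q, ‖deriv (fun s' => G s' q) s‖ ≤ deriv lam s * B := by
    intro s q
    have hk : ∃ k : ℤ, 0 ≤ Θ (s, q + k) ∧ Θ (s, q + k) ≤ 2 * π := by
      refine ⟨-⌊Θ (s, q) / (2 * π)⌋, ?_⟩
      rw [hΘk]
      have hp : (0 : ℝ) < 2 * π := by positivity
      have h1 := Int.floor_le (Θ (s, q) / (2 * π))
      have h2 := Int.lt_floor_add_one (Θ (s, q) / (2 * π))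
      rw [le_div_iff₀ hp] at h1
      rw [div_lt_iff₀ hp] at h2
      push_cast
      constructor <;> nlinarith
    obtain ⟨k, hk0, hk1⟩ := hk
    have h1 : (fun s' => G s' q) = fun s' => G s' (q + k) := by
      funext s'
      rw [hGk]
    rw [h1]
    set q' : ℝ := q + k
    have h2 := (hDeriv p₀ p₁ S₀ S₁ Θ h₀ h₁ hΘ hΘ1 s q').deriv
    have h3 : deriv (fun s' => G s' q') s = _ := h2
    rw [h3, norm_mul]
    have h4 : ‖((deriv lam s : ℝ) : ℂ)‖ = deriv lam s := by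
      rw [Complex.norm_real, Real.norm_of_nonneg (hlam' s)]
    rw [h4]
    refine mul_le_mul_of_nonneg_left ?_ (hlam' s)
    have h5 : ‖∫ u in (0 : ℝ)..(Θ (s, q')), ((S₁ u - S₀ u : ℝ) : ℂ) * e u‖ ≤
        ∫ u in (0 : ℝ)..(2 * π), |S₁ u - S₀ u| := by
      refine le_trans (intervalIntegral.norm_integral_le_integral_norm hk0) ?_
      have h6 : ∀ u, ‖((S₁ u - S₀ u : ℝ) : ℂ) * e u‖ = |S₁ u - S₀ u| := by
        intro u
        rw [norm_mul, norm_e, mul_one, Complex.norm_real, Real.norm_eq_abs]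
      simp_rw [h6]
      refine intervalIntegral.integral_mono_interval le_rfl hk0 hk1 ?_ ?_
      · exact Filter.Eventually.of_forall fun u => abs_nonneg _
      · exact ((hc₁.sub hc₀).abs).intervalIntegrable _ _
    calc ‖(p₁ - p₀) - ((S₁ 0 - S₀ 0 : ℝ) : ℂ) -
          Complex.I * ∫ u in (0 : ℝ)..(Θ (s, q')), ((S₁ u - S₀ u : ℝ) : ℂ) * e u‖
        ≤ ‖(p₁ - p₀) - ((S₁ 0 - S₀ 0 : ℝ) : ℂ)‖ +
          ‖Complex.I * ∫ u in (0 : ℝ)..(Θ (s, q')), ((S₁ u - S₀ u : ℝ) : ℂ) * e u‖ := norm_sub_le _ _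
      _ ≤ (‖p₁ - p₀‖ + ‖((S₁ 0 - S₀ 0 : ℝ) : ℂ)‖) +
          ‖Complex.I * ∫ u in (0 : ℝ)..(Θ (s, q')), ((S₁ u - S₀ u : ℝ) : ℂ) * e u‖ := by
          gcongr
          exact norm_sub_le _ _
      _ ≤ B := by
          rw [norm_mul, Complex.norm_I, one_mul, Complex.norm_real, Real.norm_eq_abs, hB]
          linarith
  have hcost : cost G ≤ ENNReal.ofReal B := by
    unfold cost
    have h1 : ∀ s : ℝ, (⨆ q : ℝ, ‖deriv (fun s' => G s' q) s‖ₑ) ≤ ENNReal.ofReal (deriv lam s * B) := by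
      intro s
      refine iSup_le fun q => ?_
      rw [← ofReal_norm_eq_enorm]
      exact ENNReal.ofReal_le_ofReal (hbound s q)
    refine le_trans (lintegral_mono fun s => h1 s) ?_
    have hcd : Continuous (deriv lam) := hlamc.continuous_deriv (by simp)
    have hint : IntegrableOn (fun s => deriv lam s * B) (Icc 0 1) :=
      (hcd.mul continuous_const).continuousOn.integrableOn_compact isCompact_Icc
    rw [← ofReal_integral_eq_lintegral_ofReal hint
      (Filter.Eventually.of_forall fun s => mul_nonneg (hlam' s) hB0)]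
    refine ENNReal.ofReal_le_ofReal (le_of_eq ?_)
    rw [integral_Icc_eq_integral_Ioc, ← intervalIntegral.integral_of_le zero_le_one,
      intervalIntegral.integral_mul_const, intervalIntegral.integral_deriv_eq_sub, hlam0, hlam1]
    · ring
    · intro x _
      exact (hlamc.differentiable (by simp)).differentiableAt
    · exact hcd.intervalIntegrable _ _
  refine le_trans (iInf₂_le G ?_) hcost
  refine ⟨hGs, ?_, ?_, ?_⟩
  · intro s _
    rw [hGtab s]
    exact hTab _ _ (hComb S₀ S₁ h₀ h₁ (lam s) (hlamI s)).1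
  · rw [hGtab 0, hlam0]
    congr 1
    · simp
    · funext t
      ring
  · rw [hGtab 1, hlam1]
    congr 1
    · simp
    · funext t
      ring

end Pool.Agent.Q188.BT.Hom
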