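import Pool.Agent.Q188.BT.Stmts

/-! `TaskInv` of the blueprint for `MP_fd4af6_gt` (helper7). -/

set_option autoImplicit false

open Complex MeasureTheory Set Filter Topology
open scoped Real ContDiff ENNReal

namespace Pool.Agent.Q188.BT.Inv

open Pool.Agent.Q188.BT

theorem main : TaskInv := by
  intro S hS
  have hdiff : Differentiable ℝ S := hS.smooth.differentiable (by simp)
  have hmono : StrictMono S := strictMono_of_deriv_pos hS.pos
  have hcont : Continuous S := hS.smooth.continuous
  have hup : ∀ n : ℕ, S (0 + n * (2 * π)) = S 0 + n := by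
    intro n
    induction n with
    | zero => simp
    | succ k ih =>
      have h := hS.quasi (0 + k * (2 * π))
      rw [ih] at h
      push_cast
      rw [show (0 : ℝ) + ((k : ℝ) + 1) * (2 * π) = 0 + k * (2 * π) + 2 * π by ring, h]
      ring
  have hdown : ∀ n : ℕ, S (0 - n * (2 * π)) = S 0 - n := by
    intro n
    induction n with
    | zero => simp
    | succ k ih =>
      have h := hS.quasi (0 - ((k : ℝ) + 1) * (2 * π))
      rw [show (0 : ℝ) - ((k : ℝ) + 1) * (2 * π) + 2 * π = 0 - k * (2 * π) by ring, ih] at h
      push_cast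
      linarith
  have htop : Tendsto S atTop atTop := by
    refine tendsto_atTop_atTop_of_monotone hmono.monotone fun b => ?_
    obtain ⟨n, hn⟩ := exists_nat_ge (b - S 0)
    exact ⟨0 + n * (2 * π), by rw [hup]; linarith⟩
  have hbot : Tendsto S atBot atBot := by
    refine tendsto_atBot_atBot_of_monotone hmono.monotone fun b => ?_
    obtain ⟨n, hn⟩ := exists_nat_ge (S 0 - b)
    exact ⟨0 - n * (2 * π), by rw [hdown]; linarith⟩
  have hsurj : Function.Surjective S := hcont.surjective htop hbot
  have hl : Function.LeftInverse (Function.invFun S) S := Function.leftInverse_invFun hmono.injective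
  have hr : Function.RightInverse (Function.invFun S) S := Function.rightInverse_invFun hsurj
  set f : ℝ ≃ₜ ℝ := (StrictMono.orderIsoOfSurjective S hmono hsurj).toHomeomorph with hf
  have hfS : (f : ℝ → ℝ) = S := rfl
  have hsym : (f.symm : ℝ → ℝ) = Function.invFun S := by
    funext q
    apply hmono.injective
    rw [hr q]
    have : f (f.symm q) = q := f.apply_symm_apply q
    rw [← hfS]
    exact this
  have hder : ∀ x, HasDerivAt (f : ℝ → ℝ) (deriv S x) x := by
    intro x; rw [hfS]; exact (hdiff x).hasDerivAt
  have hsm : ContDiff ℝ ∞ (Function.invFun S) := by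
    rw [← hsym]
    exact f.contDiff_symm_deriv (fun x => (hS.pos x).ne') hder (by rw [hfS]; exact hS.smooth)
  have hd : ∀ q, HasDerivAt (Function.invFun S) (deriv S (Function.invFun S q))⁻¹ q := by
    intro q
    refine HasDerivAt.of_local_left_inverse hsm.continuous.continuousAt
      ((hdiff _).hasDerivAt) (hS.pos _).ne' (Eventually.of_forall fun y => hr y)
  refine ⟨Function.invFun S, hsm, hr, hl, fun q => ?_, fun q => ?_, hd, fun p q => rfl, fun p t => ?_⟩
  · rw [(hd q).deriv]; exact inv_pos.mpr (hS.pos _)
  · apply hmono.injective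
    rw [hr, hS.quasi, hr]
  · show pt p S (Function.invFun S (S t)) = pt p S t
    rw [hl t]

end Pool.Agent.Q188.BT.Inv
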