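import Pool.Agent.Q188.BT.Stmts

set_option autoImplicit false

open Complex MeasureTheory Set Filter Topology
open scoped Real ContDiff ENNReal

namespace Pool.Agent.Q188.BT.Perim

open Pool.Agent.Q188.BT

theorem nrm_cont : Continuous nrm := by
  unfold nrm e
  fun_prop

theorem dot_cont (v : ℂ) : Continuous (fun t => |dot v (nrm t)|) := by
  unfold dot
  have h := nrm_cont
  have h1 : Continuous (fun t => (nrm t).re) := Complex.continuous_re.comp h
  have h2 : Continuous (fun t => (nrm t).im) := Complex.continuous_im.comp h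
  exact ((continuous_const.mul h1).add (continuous_const.mul h2)).abs

theorem piece (C : ℝ → ℂ) (K : Set ℂ) (z : ℂ) (ψ : ℝ → ℝ) (D : Data C K z ψ) (a b : ℝ) (hab : a ≤ b) :
    ‖C b - C a‖ ≤ b - a := by
  have h1 : edist (C b) (C a) ≤ eVariationOn C (Icc a b) :=
    eVariationOn.edist_le C ⟨hab, le_rfl⟩ ⟨le_rfl, hab⟩
  rw [D.arclength a b hab, edist_dist, dist_eq_norm] at h1
  exact (ENNReal.ofReal_le_ofReal_iff (by linarith)).1 h1

theorem main (hW : TaskWidth) (hA : TaskAbs) (hS : TaskSuppProps) : TaskPerim := by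
  intro C K z ψ D
  have hne : K.Nonempty := ⟨z, interior_subset D.mem⟩
  obtain ⟨hcont, hper, -⟩ := hS K D.compact hne
  have hper' : Function.Periodic (supp K) (2 * π) := hper
  have hshift : ∫ t in (0 : ℝ)..(2 * π), supp K (t + π) = ∫ t in (0 : ℝ)..(2 * π), supp K t := by
    rw [intervalIntegral.integral_comp_add_right (fun t => supp K t) π]
    have := hper'.intervalIntegral_add_eq (0 + π) 0
    rw [show (0 : ℝ) + π + 2 * π = 2 * π + π by ring, zero_add (2 * π)] at this
    exact this
  have hint : ∀ f : ℝ → ℝ, Continuous f → IntervalIntegrable f volume 0 (2 * π) :=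
    fun f hf => hf.intervalIntegrable _ _
  have hcont2 : Continuous (fun t => supp K (t + π)) := hcont.comp (continuous_id.add continuous_const)
  have hkey : ∀ N : ℕ, 0 < N → ∫ t in (0 : ℝ)..(2 * π), supp K t ≤ 1 + 2 * π / N := by
    intro N hN
    have hN' : (0 : ℝ) < N := by exact_mod_cast hN
    let v : ℕ → ℂ := fun j => C (((j : ℝ) + 1) / N) - C ((j : ℝ) / N)
    have h1 : ∫ t in (0 : ℝ)..(2 * π), (supp K t + supp K (t + π)) ≤
        ∫ t in (0 : ℝ)..(2 * π), ((∑ j ∈ Finset.range N, |dot (v j) (nrm t)|) / 2 + 2 / N) := by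
      apply intervalIntegral.integral_mono_on (by positivity)
      · exact hint _ (hcont.add hcont2)
      · apply hint
        refine Continuous.add (Continuous.div_const ?_ 2) continuous_const
        exact continuous_finsetSum _ (fun j _ => dot_cont (v j))
      · intro t _
        exact hW C K z ψ D N hN t
    rw [intervalIntegral.integral_add (hint _ hcont) (hint _ hcont2), hshift] at h1
    rw [intervalIntegral.integral_add (hint _ (Continuous.div_const
        (continuous_finsetSum _ (fun j _ => dot_cont (v j))) 2)) (hint _ continuous_const),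
      intervalIntegral.integral_div,
      intervalIntegral.integral_finsetSum (fun j _ => hint _ (dot_cont (v j)))] at h1
    have hA' : ∀ v : ℂ, ∫ t in (0 : ℝ)..(2 * π), |dot v (nrm t)| = 4 * ‖v‖ := hA
    simp only [hA', intervalIntegral.integral_const, smul_eq_mul, sub_zero] at h1
    have h2 : ∑ j ∈ Finset.range N, 4 * ‖v j‖ ≤ 4 := by
      have h3 : ∀ j ∈ Finset.range N, 4 * ‖v j‖ ≤ 4 * (1 / N) := by
        intro j _
        have h4 := piece C K z ψ D ((j : ℝ) / N) (((j : ℝ) + 1) / N) (by gcongr; linarith)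
        have h5 : ((j : ℝ) + 1) / N - (j : ℝ) / N = 1 / N := by ring
        rw [h5] at h4
        have h6 : ‖v j‖ ≤ 1 / N := h4
        linarith
      calc ∑ j ∈ Finset.range N, 4 * ‖v j‖ ≤ ∑ _j ∈ Finset.range N, 4 * (1 / (N : ℝ)) :=
            Finset.sum_le_sum h3
        _ = 4 := by
            rw [Finset.sum_const, Finset.card_range, nsmul_eq_mul]
            field_simp
    have h7 : 2 * π * (2 / (N : ℝ)) = 2 * (2 * π / N) := by ring
    rw [h7] at h1
    linarith
  refine le_of_forall_pos_le_add fun ε hε => ?_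
  obtain ⟨N, hN⟩ := exists_nat_gt (2 * π / ε)
  have hpos : (0 : ℝ) < 2 * π / ε := by positivity
  have hN0 : (0 : ℝ) < N := hpos.trans hN
  have hN1 : 0 < N := by exact_mod_cast hN0
  have h8 := hkey N hN1
  have h9 : 2 * π / N ≤ ε := by
    rw [div_le_iff₀ hN0]
    rw [div_lt_iff₀ hε] at hN
    linarith
  linarith

end Pool.Agent.Q188.BT.Perim
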