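import Pool.Agent.Q188.BT.Stmts

set_option autoImplicit false

open Complex MeasureTheory Set Filter Topology
open scoped Real ContDiff ENNReal

namespace Pool.Agent.Q188.BT.PhiBound

open Pool.Agent.Q188.BT

theorem main (hFine : TaskFine) (hCut : TaskCut) : TaskPhiBound := by
  intro C K z ψ hD ε hε
  obtain ⟨hLip, -⟩ := hFine C K z ψ hD
  obtain ⟨m, hm⟩ := hCut C K z ψ hD (ε / 2) (by positivity)
  have hm1 : (0 : ℝ) < (m : ℝ) + 1 := by positivity
  refine ⟨ε / (4 * ((m : ℝ) + 1)), by positivity, ?_⟩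
  set η : ℝ := ε / (4 * ((m : ℝ) + 1)) with hη
  have hη0 : 0 < η := by positivity
  have hηm : 2 * η + 2 * m * η = ε / 2 := by
    rw [hη]
    field_simp
    ring
  intro L γ φ hL hγ hφm hφc hφ1 hclose
  have hL0 : 0 ≤ L := by
    have := hγ 1 0
    have h2 : |(1:ℝ) - 0| = 1 := by norm_num
    rw [h2, mul_one] at this
    exact (norm_nonneg _).trans this
  -- the main comparison
  have main : ∀ a b : ℝ, a ≤ b → b ≤ a + 1 → φ b - φ a ≤ L * (b - a) + 2 * m * η + ε / 2 := by
    intro a b hab hab1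
    have hxy : φ a ≤ φ b := hφm hab
    have hy1 : φ b ≤ φ a + 1 := by rw [← hφ1 a]; exact hφm hab1
    obtain ⟨s, hs, hs0, hsm, hsum⟩ := hm (φ a) (φ b) hxy hy1
    have hsurj : ∀ v ∈ Icc (φ a) (φ b), ∃ t ∈ Icc a b, φ t = v := by
      intro v hv
      exact intermediate_value_Icc hab hφc.continuousOn hv
    choose! σ hσ1 hσ2 using hsurj
    have hsj : ∀ j, j ≤ m → s j ∈ Icc (φ a) (φ b) := by
      intro j hj
      refine ⟨?_, ?_⟩
      · rw [← hs0]; exact hs (Nat.zero_le j)
      · rw [← hsm]; exact hs hj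
    set t : ℕ → ℝ := fun j => σ (s j) with ht
    have htφ : ∀ j, j ≤ m → φ (t j) = s j := fun j hj => hσ2 _ (hsj j hj)
    have htm : ∀ j, j < m → t j ≤ t (j + 1) := by
      intro j hj
      rcases (hs (Nat.le_succ j)).lt_or_eq with h | h
      · by_contra hlt
        push Not at hlt
        have h1 := hφm hlt.le
        rw [htφ j hj.le, htφ (j + 1) hj] at h1
        exact absurd h (not_lt.2 h1)
      · simp only [ht]
        rw [show s j = s (j + 1) from h]
    have hterm : ∀ j ∈ Finset.range m, ‖C (s (j + 1)) - C (s j)‖ ≤ L * (t (j + 1) - t j) + 2 * η := by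
      intro j hj
      have hj' := Finset.mem_range.1 hj
      rw [← htφ (j + 1) hj', ← htφ j hj'.le]
      have h1 := hclose (t (j + 1))
      have h2 := hclose (t j)
      have h3 := hγ (t (j + 1)) (t j)
      rw [abs_of_nonneg (sub_nonneg.2 (htm j hj'))] at h3
      have h4 : C (φ (t (j + 1))) - C (φ (t j)) = (C (φ (t (j + 1))) - γ (t (j + 1))) +
          (γ (t (j + 1)) - γ (t j)) - (C (φ (t j)) - γ (t j)) := by ring
      rw [h4]
      calc _ ≤ ‖(C (φ (t (j + 1))) - γ (t (j + 1))) + (γ (t (j + 1)) - γ (t j))‖ +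
            ‖C (φ (t j)) - γ (t j)‖ := norm_sub_le _ _
        _ ≤ ‖C (φ (t (j + 1))) - γ (t (j + 1))‖ + ‖γ (t (j + 1)) - γ (t j)‖ +
            ‖C (φ (t j)) - γ (t j)‖ := by gcongr; exact norm_add_le _ _
        _ ≤ _ := by linarith
    have hS := Finset.sum_le_sum hterm
    rw [Finset.sum_add_distrib, ← Finset.mul_sum, Finset.sum_range_sub, Finset.sum_const,
      Finset.card_range, nsmul_eq_mul] at hS
    have ht0 : a ≤ t 0 := (hσ1 _ (hsj 0 (Nat.zero_le m))).1
    have htb : t m ≤ b := (hσ1 _ (hsj m le_rfl)).2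
    have h5 : L * (t m - t 0) ≤ L * (b - a) := mul_le_mul_of_nonneg_left (by linarith) hL0
    linarith
  have hφ01 : φ 1 = φ 0 + 1 := by
    have := hφ1 0
    rwa [zero_add] at this
  refine ⟨?_, ?_⟩
  · have h1 := main 0 1 (by norm_num) (by norm_num)
    rw [hφ01] at h1
    have : 0 < η := hη0
    nlinarith
  · -- the displacement
    have hunit : ∀ q, 0 ≤ q → q < 1 → |φ q - (q + φ 0)| ≤ η + (2 * m * η + ε / 2) := by
      intro q hq0 hq1
      have h1 := main 0 q hq0 (by linarith)
      have h2 := main q 1 hq1.le (by linarith)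
      rw [hφ01] at h2
      have h3 : L * (q - 0) ≤ q + η := by
        have : L * q ≤ (1 + η) * q := mul_le_mul_of_nonneg_right hL hq0
        nlinarith
      have h4 : L * (1 - q) ≤ (1 - q) + η := by
        have : L * (1 - q) ≤ (1 + η) * (1 - q) := mul_le_mul_of_nonneg_right hL (by linarith)
        nlinarith
      rw [abs_le]
      constructor <;> linarith
    have hint : ∀ (n : ℤ) (q : ℝ), φ (q + n) = φ q + n := by
      intro n
      induction n using Int.induction_on with
      | zero => intro q; simp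
      | succ k ih =>
        intro q
        have : q + ((k : ℤ) + 1 : ℤ) = (q + (k : ℤ)) + 1 := by push_cast; ring
        rw [this, hφ1, ih]
        push_cast
        ring
      | pred k ih =>
        intro q
        have h1 := hφ1 (q + ((-(k : ℤ) - 1 : ℤ) : ℝ))
        have h2 : q + ((-(k : ℤ) - 1 : ℤ) : ℝ) + 1 = q + ((-(k : ℤ) : ℤ) : ℝ) := by push_cast; ring
        rw [h2, ih] at h1
        push_cast at h1 ⊢
        linarith
    intro q
    have hq : |φ q - (q + φ 0)| ≤ η + (2 * m * η + ε / 2) := by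
      have h1 := hunit (Int.fract q) (Int.fract_nonneg q) (Int.fract_lt_one q)
      have h2 := hint ⌊q⌋ (Int.fract q)
      rw [Int.fract_add_floor] at h2
      have h3 : φ q - (q + φ 0) = φ (Int.fract q) - (Int.fract q + φ 0) := by
        rw [h2]
        have := Int.fract_add_floor q
        linarith
      rw [h3]
      exact h1
    have h5 : γ q - C (q + φ 0) = -(C (φ q) - γ q) + (C (φ q) - C (q + φ 0)) := by ring
    rw [h5]
    calc _ ≤ ‖-(C (φ q) - γ q)‖ + ‖C (φ q) - C (q + φ 0)‖ := norm_add_le _ _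
      _ ≤ η + |φ q - (q + φ 0)| := by
          rw [norm_neg]
          exact add_le_add (hclose q) (hLip _ _)
      _ ≤ ε := by linarith

end Pool.Agent.Q188.BT.PhiBound
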