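import Pool.Agent.Q188.BT.Stmts

/-! Crowd lemma (helper234) for helper188's blueprint BT. -/

namespace Pool.Agent.Q188.BT.Polar
open Complex MeasureTheory Set Filter Topology Pool.Agent.Q188.BT
open scoped Real ContDiff ENNReal ComplexConjugate

theorem hasDerivAt_e (t : ℝ) : HasDerivAt e (Complex.I * e t) t := by
  have h1 : HasDerivAt (fun t : ℝ => ((t : ℂ) * Complex.I)) (Complex.I) t := by
    simpa using (Complex.ofRealCLM.hasDerivAt (x := t)).mul_const Complex.I
  have h2 := h1.cexp
  have : (Complex.I * e t) = Complex.exp (t * Complex.I) * Complex.I := by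
    unfold e; ring
  rw [this]; exact h2

theorem e_add (s t : ℝ) : e (s + t) = e s * e t := by
  unfold e; rw [← Complex.exp_add]; congr 1; push_cast; ring

theorem e_twopi : e (2 * π) = 1 := by
  unfold e
  have := Complex.exp_two_pi_mul_I
  simpa using this

theorem norm_e (t : ℝ) : ‖e t‖ = 1 := by
  unfold e; exact Complex.norm_exp_ofReal_mul_I t

theorem nrm_eq (t : ℝ) : nrm t = e (t - π / 2) := by
  have : t = (t - π / 2) + π / 2 := by ring
  unfold nrm
  conv_lhs => rw [this, e_add]
  have h : e (π / 2) = Complex.I := by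
    unfold e
    have := Complex.exp_pi_div_two_mul_I
    simpa using this
  rw [h]
  linear_combination (-(e (t - π / 2))) * Complex.I_mul_I

theorem conj_e (t : ℝ) : conj (e t) = e (-t) := by
  unfold e
  rw [← Complex.exp_conj]
  congr 1
  simp

theorem main (hInv : TaskInv) (hPt : TaskPt) : TaskPolar := by
  intro p S z hS hz
  obtain ⟨θ, hθs, hSθ, hθS, hθd, hθ1, -, htab, -⟩ := hInv S hS
  obtain ⟨hd, -, hper⟩ := hPt p S hS
  set w : ℝ → ℂ := fun t => pt p S t - z with hw
  set u : ℝ → ℂ := fun t => w t * e (-(t - π / 2)) with hu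
  have hure : ∀ t, (u t).re = dot (w t) (nrm t) := by
    intro t
    simp only [hu, nrm_eq, dot]
    rw [← conj_e]
    simp
  have hpos : ∀ t, 0 < dot (w t) (nrm t) := by
    intro t
    have h := hz t
    simp only [dot, hw, Complex.sub_re, Complex.sub_im] at h ⊢
    linarith
  have huslit : ∀ t, u t ∈ Complex.slitPlane := by
    intro t
    left; rw [hure]; exact hpos t
  have hune : ∀ t, u t ≠ 0 := fun t => Complex.slitPlane_ne_zero (huslit t)
  have hwne : ∀ t, w t ≠ 0 := by
    intro t h0
    apply hune t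
    simp only [hu, h0, zero_mul]
  have hwd : ∀ t, HasDerivAt w (((deriv S t : ℝ) : ℂ) * e t) t := fun t => (hd t).sub_const z
  have hed : ∀ t, HasDerivAt (fun t : ℝ => e (-(t - π / 2))) (-(Complex.I * e (-(t - π / 2)))) t := by
    intro t
    have h1 : HasDerivAt (fun t : ℝ => -(t - π / 2)) (-1) t := ((hasDerivAt_id t).sub_const _).neg
    have h2 := (hasDerivAt_e (-(t - π / 2))).scomp t h1
    have h3 : HasDerivAt (fun t : ℝ => e (-(t - π / 2)))
      ((-1 : ℝ) • (Complex.I * e (-(t - π / 2)))) t := h2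
    rwa [neg_one_smul] at h3
  have hud : ∀ t, HasDerivAt u (((deriv S t : ℝ) : ℂ) * e t * e (-(t - π / 2)) +
      w t * (-(Complex.I * e (-(t - π / 2))))) t := fun t => (hwd t).mul (hed t)
  set ψ₁ : ℝ → ℝ := fun t => t - π / 2 + (Complex.log (u t)).im with hψ
  have hψd : ∀ t, HasDerivAt ψ₁ (1 + ((((deriv S t : ℝ) : ℂ) * e t * e (-(t - π / 2)) +
      w t * (-(Complex.I * e (-(t - π / 2))))) / u t).im) t := by
    intro t
    have h1 := (hud t).clog_real (huslit t)
    have h2 := Complex.imCLM.hasFDerivAt.comp_hasDerivAt t h1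
    have h3 : HasDerivAt (fun t : ℝ => t - π / 2) 1 t := (hasDerivAt_id t).sub_const _
    exact h3.add h2
  have hval : ∀ t, (1 + ((((deriv S t : ℝ) : ℂ) * e t * e (-(t - π / 2)) +
      w t * (-(Complex.I * e (-(t - π / 2))))) / u t).im) =
      deriv S t * dot (w t) (nrm t) / Complex.normSq (w t) := by
    intro t
    have hen : e (-(t - π / 2)) ≠ 0 := by
      intro h; have := norm_e (-(t - π / 2)); rw [h] at this; simp at this
    have h1 : (((deriv S t : ℝ) : ℂ) * e t * e (-(t - π / 2)) +
      w t * (-(Complex.I * e (-(t - π / 2))))) / u t = ((deriv S t : ℝ) : ℂ) * (e t / w t) - Complex.I := by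
      simp only [hu]
      have hc : e t / w t * w t = e t := div_mul_cancel₀ _ (hwne t)
      rw [div_eq_iff (mul_ne_zero (hwne t) hen)]
      linear_combination (-(((deriv S t : ℝ) : ℂ) * e (-(t - π / 2)))) * hc
    rw [h1]
    have hr : (nrm t).re = (e t).im := by simp [nrm]
    have hi : (nrm t).im = -(e t).re := by simp [nrm]
    unfold dot
    rw [hr, hi, Complex.sub_im, Complex.I_im, Complex.im_ofReal_mul, Complex.div_im]
    ring
  have hψpos : ∀ t, 0 < deriv ψ₁ t := by
    intro t
    rw [(hψd t).deriv, hval t]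
    exact div_pos (mul_pos (hS.pos t) (hpos t)) (Complex.normSq_pos.mpr (hwne t))
  have hψmono : StrictMono ψ₁ := strictMono_of_deriv_pos hψpos
  have hψcont : Continuous ψ₁ := by
    rw [continuous_iff_continuousAt]
    exact fun t => (hψd t).continuousAt
  have hθcont : Continuous θ := hθs.continuous
  have hθmono : StrictMono θ := strictMono_of_deriv_pos hθd
  refine ⟨ψ₁ ∘ θ, hψcont.comp hθcont, hψmono.comp hθmono, ?_, ?_⟩
  · intro q
    simp only [Function.comp, hθ1]
    simp only [hψ, hu, hw, hper]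
    have : e (-(θ q + 2 * π - π / 2)) = e (-(θ q - π / 2)) := by
      have h1 : -(θ q - π / 2) = -(θ q + 2 * π - π / 2) + 2 * π := by ring
      rw [h1, e_add, e_twopi, mul_one]
    rw [this]
    ring
  · intro q
    rw [htab]
    have h0 : pt p S (θ q) - z = w (θ q) := rfl
    rw [h0]
    set t := θ q with ht
    have h1 : w t = u t * e (t - π / 2) := by
      simp only [hu]
      rw [mul_assoc, ← e_add]
      have : -(t - π / 2) + (t - π / 2) = 0 := by ring
      have e0 : e 0 = 1 := by simp [e]
      rw [this, e0, mul_one]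
    have h2 : ‖u t‖ = ‖w t‖ := by
      have h5 : ‖w t‖ = ‖u t * e (t - π / 2)‖ := congrArg norm h1
      calc ‖u t‖ = ‖u t‖ * ‖e (t - π / 2)‖ := by rw [norm_e, mul_one]
        _ = ‖u t * e (t - π / 2)‖ := (norm_mul _ _).symm
        _ = ‖w t‖ := h5.symm
    have h3 : u t = (‖u t‖ : ℂ) * Complex.exp ((Complex.log (u t)).im * Complex.I) := by
      rw [Complex.log_im]
      exact (Complex.norm_mul_exp_arg_mul_I (u t)).symm
    simp only [Function.comp]
    rw [← h2]
    have h4 : e (ψ₁ t) = Complex.exp ((Complex.log (u t)).im * Complex.I) * e (t - π / 2) := by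
      have : ψ₁ t = (Complex.log (u t)).im + (t - π / 2) := by simp only [hψ]; ring
      rw [this, e_add]; rfl
    rw [h4, ← mul_assoc, ← h3, ← h1]

end Pool.Agent.Q188.BT.Polar
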