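import Pool.Agent.Q188.BT.Stmts

set_option autoImplicit false

open Complex MeasureTheory Set Filter Topology
open scoped Real ContDiff ENNReal

namespace Pool.Agent.Q188.BT.Pt

open Pool.Agent.Q188.BT

theorem e_smooth : ContDiff ℝ ∞ e := by
  unfold e
  exact ((Complex.ofRealCLM.contDiff).mul contDiff_const).cexp

theorem e_per (t : ℝ) : e (t + 2 * π) = e t := by
  unfold e
  have : ((t + 2 * π : ℝ) : ℂ) * Complex.I = t * Complex.I + 2 * π * Complex.I := by
    push_cast; ring
  rw [this, Complex.exp_add, Complex.exp_two_pi_mul_I, mul_one]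

theorem main : Pool.Agent.Q188.BT.TaskPt := by
  intro p S hS
  have hdS : ContDiff ℝ ∞ (deriv S) := (contDiff_infty_iff_deriv.1 hS.smooth).2
  have hg : ContDiff ℝ ∞ (fun u : ℝ => ((deriv S u : ℝ) : ℂ) * e u) :=
    ((Complex.ofRealCLM.contDiff).comp hdS).mul e_smooth
  have hgc := hg.continuous
  have hder : ∀ t, HasDerivAt (pt p S) (((deriv S t : ℝ) : ℂ) * e t) t := by
    intro t
    have h := intervalIntegral.integral_hasDerivAt_right (hgc.intervalIntegrable 0 t)
      (hgc.stronglyMeasurableAtFilter _ _) hgc.continuousAt
    exact h.const_add p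
  refine ⟨hder, ?_, ?_⟩
  · rw [contDiff_infty_iff_deriv]
    refine ⟨fun t => (hder t).differentiableAt, ?_⟩
    have : deriv (pt p S) = fun u : ℝ => ((deriv S u : ℝ) : ℂ) * e u := by
      funext t
      exact (hder t).deriv
    rw [this]
    exact hg
  · intro t
    have hdp : ∀ u, deriv S (u + 2 * π) = deriv S u := by
      intro u
      have h1 : (fun t => S (t + 2 * π)) = fun t => S t + 1 := by
        funext t; exact hS.quasi t
      have h2 := congrArg (fun f => deriv f u) h1
      simp only [deriv_comp_add_const, deriv_add_const] at h2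
      exact h2
    have hper : Function.Periodic (fun u : ℝ => ((deriv S u : ℝ) : ℂ) * e u) (2 * π) := by
      intro u
      simp only [hdp, e_per]
    have h1 := intervalIntegral.integral_add_adjacent_intervals
      (hgc.intervalIntegrable 0 t : IntervalIntegrable _ volume 0 t)
      (hgc.intervalIntegrable t (t + 2 * π))
    have h2 := hper.intervalIntegral_add_eq t 0
    rw [zero_add, hS.closed] at h2
    rw [h2, add_zero] at h1
    unfold pt
    rw [h1]

end Pool.Agent.Q188.BT.Pt
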