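import Mathlib
import Pool.Agent.Q188.BT.Stmts

set_option autoImplicit false

namespace Pool.Agent.Q188.BT.Ray

open Pool.Agent.Q188.BT

private theorem ray_aux (K : Set ℂ) (z x y v : ℂ) (a b : ℝ) (hK : Convex ℝ K)
    (hz : z ∈ interior K) (hx : x ∈ frontier K) (hy : y ∈ frontier K) (ha : 0 < a)
    (hab : a < b) (h1 : x - z = (a : ℂ) * v) (h2 : y - z = (b : ℂ) * v) : False := by
  have hb : 0 < b := ha.trans hab
  have h3 : x = (1 - a / b : ℝ) • z + (a / b : ℝ) • y := by
    have hbC : (b : ℂ) ≠ 0 := by exact_mod_cast hb.ne'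
    have hx' : x = z + (a : ℂ) * v := by rw [← h1]; ring
    have hy' : y = z + (b : ℂ) * v := by rw [← h2]; ring
    rw [hx', hy', Complex.real_smul, Complex.real_smul]
    push_cast
    field_simp
    ring
  have h4 : a / b < 1 := (div_lt_one hb).2 hab
  have h5 : x ∈ interior K := by
    rw [h3]
    exact hK.combo_interior_closure_mem_interior hz (frontier_subset_closure hy) (by linarith)
      (by positivity) (by ring)
  exact hx.2 h5

theorem main : TaskRay := by
  intro K z x y v a b hK hz hx hy ha hb h1 h2
  rcases lt_trichotomy a b with h | h | h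
  · exact (ray_aux K z x y v a b hK hz hx hy ha h h1 h2).elim
  · rw [h, ← h2] at h1
    exact sub_left_injective h1
  · exact (ray_aux K z y x v b a hK hz hy hx hb h h2 h1).elim

end Pool.Agent.Q188.BT.Ray
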