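import Pool.Agent.Q188.BT.Stmts

set_option autoImplicit false

open Complex MeasureTheory Set Filter Topology
open scoped Real ContDiff ENNReal

namespace Pool.Agent.Q188.BT.Reg

open Pool.Agent.Q188.BT

lemma e_re (t : ℝ) : (e t).re = Real.cos t := by
  unfold e; exact Complex.exp_ofReal_mul_I_re t

lemma e_im (t : ℝ) : (e t).im = Real.sin t := by
  unfold e; exact Complex.exp_ofReal_mul_I_im t

lemma e_norm (t : ℝ) : ‖e t‖ = 1 := by
  unfold e; exact Complex.norm_exp_ofReal_mul_I t

lemma e_deriv (t : ℝ) : HasDerivAt e (e t * Complex.I) t := by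
  have h : HasDerivAt (fun t : ℝ => Complex.exp (t * Complex.I))
      (Complex.exp (t * Complex.I) * (1 * Complex.I)) t :=
    ((hasDerivAt_id t).ofReal_comp.mul_const Complex.I).cexp
  rw [one_mul] at h
  exact h

theorem main (hInv : TaskInv) (hPt : TaskPt) : TaskReg := by
  intro p S hS
  obtain ⟨θ, hθ, -, -, hθpos, hθper, hθd, htab, -⟩ := hInv S hS
  obtain ⟨hpd, hpsm, hpper⟩ := hPt p S hS
  have htab' : tab p S = pt p S ∘ θ := funext fun q => htab p q
  have hd1 : ∀ q, HasDerivAt (tab p S) (e (θ q)) q := by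
    intro q
    rw [htab']
    have h := HasDerivAt.scomp q (hpd (θ q)) (hθd q)
    have hne : ((deriv S (θ q) : ℝ) : ℂ) ≠ 0 := by
      exact_mod_cast (hS.pos (θ q)).ne'
    have heq : (deriv S (θ q))⁻¹ • (((deriv S (θ q) : ℝ) : ℂ) * e (θ q)) = e (θ q) := by
      rw [Complex.real_smul, Complex.ofReal_inv, ← mul_assoc, inv_mul_cancel₀ hne, one_mul]
    rw [heq] at h
    exact h
  have hderiv : deriv (tab p S) = fun q => e (θ q) := funext fun q => (hd1 q).deriv
  have hd2 : ∀ q, HasDerivAt (fun q => e (θ q)) ((deriv θ q) • (e (θ q) * Complex.I)) q := by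
    intro q
    have h2 : HasDerivAt θ (deriv θ q) q := (hθd q).differentiableAt.hasDerivAt
    exact HasDerivAt.scomp q (e_deriv (θ q)) h2
  refine ⟨?_, ?_, ?_, ?_, ?_⟩
  · rw [htab']
    exact hpsm.comp hθ
  · intro q
    rw [htab, htab, hθper, hpper]
  · intro q
    rw [(hd1 q).deriv, e_norm]
  · intro q
    rw [hderiv, (hd2 q).deriv]
    have h1 : det (e (θ q)) ((deriv θ q) • (e (θ q) * Complex.I)) = deriv θ q := by
      unfold det
      simp only [Complex.real_smul, Complex.mul_re, Complex.mul_im, Complex.ofReal_re,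
        Complex.ofReal_im, Complex.I_re, Complex.I_im, e_re, e_im]
      have := Real.sin_sq_add_cos_sq (θ q)
      linear_combination (deriv θ q) * this
    rw [h1]
    exact hθpos q
  · intro a b
    have hL : LipschitzWith 1 (tab p S) := by
      refine lipschitzWith_of_nnnorm_deriv_le (fun q => (hd1 q).differentiableAt) fun q => ?_
      rw [← NNReal.coe_le_coe, coe_nnnorm, (hd1 q).deriv, e_norm, NNReal.coe_one]
    have := hL.dist_le_mul a b
    rwa [dist_eq_norm, Real.dist_eq, NNReal.coe_one, one_mul] at this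

end Pool.Agent.Q188.BT.Reg
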