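import Pool.Agent.Q188.BT.Stmts

/-! Blueprint of helper188 for MP_fd4af6_gt: `TaskSimple`. -/

set_option autoImplicit false

open Complex MeasureTheory Set Filter Topology
open scoped Real ContDiff ENNReal

namespace Pool.Agent.Q188.BT.Simple

open Pool.Agent.Q188.BT

theorem main (h1 : TaskInv) (h2 : TaskStrict) : TaskSimple := by
  intro p S hS
  obtain ⟨θ, -, -, -, hd, hper, -, htab, -⟩ := h1 S hS
  have hmono : StrictMono θ := strictMono_of_deriv_pos hd
  have key : ∀ q r : ℝ, 0 ≤ q → r < 1 → q < r → tab p S q ≠ tab p S r := by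
    intro q r hq hr hqr he
    have a1 : θ q < θ r := hmono hqr
    have a2 : θ r < θ q + 2 * π := by
      rw [← hper q]
      exact hmono (by linarith)
    have a3 := h2 p S hS (θ q) (θ r) a1 a2
    rw [← htab, ← htab, he, sub_self] at a3
    simp [dot] at a3
  intro q hq r hr he
  rcases lt_trichotomy q r with h | h | h
  · exact absurd he (key q r hq.1 hr.2 h)
  · exact h
  · exact absurd he.symm (key r q hr.1 hq.2 h)

end Pool.Agent.Q188.BT.Simple
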