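import Mathlib
import Pool.Agent.Q188.BT.Stmts

set_option autoImplicit false

open scoped Real

namespace Pool.Agent.Q188.BT.Strict

open Pool.Agent.Q188.BT

private theorem nrm_re (t : ℝ) : (nrm t).re = Real.sin t := by
  simp [nrm, e, Complex.exp_ofReal_mul_I_im]

private theorem nrm_im (t : ℝ) : (nrm t).im = -Real.cos t := by
  simp [nrm, e, Complex.exp_ofReal_mul_I_re]

theorem main (hP : TaskPt) : TaskStrict := by
  intro p S hS t u htu hu
  obtain ⟨hd, -, hper⟩ := hP p S hS
  have hf : ∀ u, HasDerivAt (fun u => dot (pt p S u - pt p S t) (nrm t))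
      (-(deriv S u * Real.sin (u - t))) u := by
    intro u
    have hre : HasDerivAt (fun u => (pt p S u).re) (deriv S u * Real.cos u) u := by
      have h := Complex.reCLM.hasFDerivAt.comp_hasDerivAt u (hd u)
      have h2 : Complex.reCLM (((deriv S u : ℝ) : ℂ) * e u) = deriv S u * Real.cos u := by
        rw [Complex.reCLM_apply, Complex.re_ofReal_mul]
        simp [e, Complex.exp_ofReal_mul_I_re]
      rw [h2] at h
      exact h
    have him : HasDerivAt (fun u => (pt p S u).im) (deriv S u * Real.sin u) u := by
      have h := Complex.imCLM.hasFDerivAt.comp_hasDerivAt u (hd u)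
      have h2 : Complex.imCLM (((deriv S u : ℝ) : ℂ) * e u) = deriv S u * Real.sin u := by
        rw [Complex.imCLM_apply, Complex.im_ofReal_mul]
        simp [e, Complex.exp_ofReal_mul_I_im]
      rw [h2] at h
      exact h
    have h := ((hre.sub_const (pt p S t).re).mul_const (Real.sin t)).add
      ((him.sub_const (pt p S t).im).mul_const (-Real.cos t))
    refine (h.congr_deriv ?_).congr_of_eventuallyEq (Filter.Eventually.of_forall fun v => ?_)
    · rw [Real.sin_sub]
      ring
    · simp only [dot, nrm_re, nrm_im, Complex.sub_re, Complex.sub_im, Pi.add_apply]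
  have hc : Continuous fun u => dot (pt p S u - pt p S t) (nrm t) :=
    continuous_iff_continuousAt.2 fun u => (hf u).continuousAt
  have h0 : dot (pt p S t - pt p S t) (nrm t) = 0 := by simp [dot]
  have h1 : dot (pt p S (t + 2 * π) - pt p S t) (nrm t) = 0 := by
    rw [hper]
    exact h0
  rcases le_or_gt u (t + π) with h | h
  · have hanti : StrictAntiOn (fun u => dot (pt p S u - pt p S t) (nrm t)) (Set.Icc t (t + π)) := by
      refine strictAntiOn_of_deriv_neg (convex_Icc _ _) hc.continuousOn fun v hv => ?_
      rw [interior_Icc] at hv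
      rw [(hf v).deriv]
      have h2 := Real.sin_pos_of_pos_of_lt_pi (sub_pos.2 hv.1) (by linarith [hv.2])
      have h3 := hS.pos v
      have := mul_pos h3 h2
      linarith
    have h2 := hanti (Set.left_mem_Icc.2 (by linarith [Real.pi_pos])) ⟨htu.le, h⟩ htu
    simp only at h2
    rwa [h0] at h2
  · have hmono : StrictMonoOn (fun u => dot (pt p S u - pt p S t) (nrm t))
        (Set.Icc (t + π) (t + 2 * π)) := by
      refine strictMonoOn_of_deriv_pos (convex_Icc _ _) hc.continuousOn fun v hv => ?_
      rw [interior_Icc] at hv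
      rw [(hf v).deriv]
      have h2 : Real.sin (v - t) < 0 := by
        have h3 := Real.sin_pos_of_pos_of_lt_pi (x := v - t - π) (by linarith [hv.1])
          (by linarith [hv.2])
        rw [Real.sin_sub_pi] at h3
        linarith
      have h3 := hS.pos v
      have := mul_neg_of_pos_of_neg h3 h2
      linarith
    have h2 := hmono ⟨h.le, hu.le⟩ (Set.right_mem_Icc.2 (by linarith [Real.pi_pos])) hu
    simp only at h2
    rwa [h1] at h2

end Pool.Agent.Q188.BT.Strict
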