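import Pool.Agent.Q188.BT.Stmts

set_option autoImplicit false

open Complex MeasureTheory Set Filter Topology
open scoped Real ContDiff ENNReal

namespace Pool.Agent.Q188.BT.Support

theorem nrm_eq (t : ℝ) : nrm t = Complex.exp (((t - π / 2 : ℝ) : ℂ) * Complex.I) := by
  unfold nrm e
  push_cast
  rw [sub_mul, Complex.exp_sub]
  have h : Complex.exp ((π : ℂ) / 2 * Complex.I) = Complex.I := Complex.exp_pi_div_two_mul_I
  rw [h, div_eq_mul_inv, Complex.inv_I]
  ring

/-- every nonzero vector is a positive multiple of a normal -/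
theorem exists_nrm (w : ℂ) (_hw : w ≠ 0) : ∃ t : ℝ, w = ((‖w‖ : ℝ) : ℂ) * nrm t := by
  refine ⟨Complex.arg w + π / 2, ?_⟩
  rw [nrm_eq]
  rw [add_sub_cancel_right]
  exact (Complex.norm_mul_exp_arg_mul_I w).symm

theorem functional_eq (f : ℂ →L[ℝ] ℝ) (v : ℂ) : f v = v.re * f 1 + v.im * f Complex.I := by
  have hv : v = (v.re : ℝ) • (1 : ℂ) + (v.im : ℝ) • Complex.I := by
    apply Complex.ext <;> simp
  conv_lhs => rw [hv]
  rw [map_add, map_smul, map_smul]
  simp [smul_eq_mul]

theorem main : TaskSupport := by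
  intro K x hK hc hi hx
  have hclosed : IsClosed K := hK.isClosed
  have hxK : x ∈ K := hclosed.frontier_subset hx
  have hxi : x ∉ interior K := by
    intro h
    exact hx.2 h
  obtain ⟨f, hf⟩ := geometric_hahn_banach_open_point hc.interior isOpen_interior hxi
  -- extend to K
  have hcl : K ⊆ closure (interior K) := by
    rw [hc.closure_interior_eq_closure_of_nonempty_interior hi]
    exact subset_closure
  have hfK : ∀ y ∈ K, f y ≤ f x := by
    intro y hy
    have h1 : y ∈ closure (interior K) := hcl hy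
    have h2 : IsClosed {z : ℂ | f z ≤ f x} := isClosed_le f.continuous continuous_const
    exact (closure_minimal (fun z hz => (hf z hz).le) h2) h1
  obtain ⟨y0, hy0⟩ := hi
  set w : ℂ := ⟨f 1, f Complex.I⟩ with hw
  have hfw : ∀ v : ℂ, f v = dot v w := by
    intro v
    rw [functional_eq f v]
    simp [dot, hw]
  have hw0 : w ≠ 0 := by
    intro h
    have h1 := hf y0 hy0
    rw [hfw, hfw, h] at h1
    simp [dot] at h1
  obtain ⟨t, ht⟩ := exists_nrm w hw0
  have hpos : 0 < ‖w‖ := norm_pos_iff.2 hw0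
  have hdot : ∀ v : ℂ, dot v w = ‖w‖ * dot v (nrm t) := by
    intro v
    have hre : w.re = ‖w‖ * (nrm t).re := by
      conv_lhs => rw [ht]
      rw [Complex.re_ofReal_mul]
    have him : w.im = ‖w‖ * (nrm t).im := by
      conv_lhs => rw [ht]
      rw [Complex.im_ofReal_mul]
    unfold dot
    rw [hre, him]
    ring
  have key : ∀ y ∈ K, dot y (nrm t) ≤ dot x (nrm t) := by
    intro y hy
    have h1 := hfK y hy
    rw [hfw, hfw, hdot, hdot] at h1
    exact le_of_mul_le_mul_left h1 hpos
  refine ⟨t, key, ?_⟩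
  unfold supp
  symm
  apply IsGreatest.csSup_eq
  refine ⟨⟨x, hxK, rfl⟩, ?_⟩
  rintro _ ⟨y, hy, rfl⟩
  exact key y hy

end Pool.Agent.Q188.BT.Support
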