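import Mathlib
import Pool.Agent.Q188.BT.Stmts

set_option autoImplicit false

open Complex MeasureTheory Set Filter Topology
open scoped Real ContDiff ENNReal

namespace Pool.Agent.Q188.BT

/-- Convex combinations of arc functions are arc functions, and `pt` is linear. -/
theorem taskComb : TaskComb := by
  intro S₀ S₁ h₀ h₁ c hc
  have hd₀ : Differentiable ℝ S₀ := h₀.smooth.differentiable (by simp)
  have hd₁ : Differentiable ℝ S₁ := h₁.smooth.differentiable (by simp)
  have hder : ∀ t, deriv (fun t => (1 - c) * S₀ t + c * S₁ t) t =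
      (1 - c) * deriv S₀ t + c * deriv S₁ t := by
    intro t
    exact (((hd₀ t).hasDerivAt.const_mul (1 - c)).add ((hd₁ t).hasDerivAt.const_mul c)).deriv
  have hc₀ : Continuous (deriv S₀) := h₀.smooth.continuous_deriv (by simp)
  have hc₁ : Continuous (deriv S₁) := h₁.smooth.continuous_deriv (by simp)
  have hce : Continuous e := by
    unfold e
    fun_prop
  have hf₀ : Continuous (fun u => ((deriv S₀ u : ℝ) : ℂ) * e u) :=
    (Complex.continuous_ofReal.comp hc₀).mul hce
  have hf₁ : Continuous (fun u => ((deriv S₁ u : ℝ) : ℂ) * e u) :=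
    (Complex.continuous_ofReal.comp hc₁).mul hce
  have hint : ∀ t : ℝ, (∫ u in (0 : ℝ)..t,
      ((deriv (fun t => (1 - c) * S₀ t + c * S₁ t) u : ℝ) : ℂ) * e u) =
      ((1 - c : ℝ) : ℂ) * (∫ u in (0 : ℝ)..t, ((deriv S₀ u : ℝ) : ℂ) * e u) +
      (c : ℂ) * (∫ u in (0 : ℝ)..t, ((deriv S₁ u : ℝ) : ℂ) * e u) := by
    intro t
    have i₀ : IntervalIntegrable (fun u => ((1 - c : ℝ) : ℂ) * (((deriv S₀ u : ℝ) : ℂ) * e u))
        volume 0 t := Continuous.intervalIntegrable (by fun_prop) _ _
    have i₁ : IntervalIntegrable (fun u => (c : ℂ) * (((deriv S₁ u : ℝ) : ℂ) * e u))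
        volume 0 t := Continuous.intervalIntegrable (by fun_prop) _ _
    rw [← intervalIntegral.integral_const_mul, ← intervalIntegral.integral_const_mul,
      ← intervalIntegral.integral_add i₀ i₁]
    apply intervalIntegral.integral_congr
    intro u _
    simp only [hder]
    push_cast
    ring
  refine ⟨⟨?_, ?_, ?_, ?_⟩, ?_⟩
  · exact (contDiff_const.mul h₀.smooth).add (contDiff_const.mul h₁.smooth)
  · intro t
    rw [hder]
    have p₀ := h₀.pos t
    have p₁ := h₁.pos t
    rcases eq_or_lt_of_le hc.1 with h | h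
    · rw [← h]
      simpa using p₀
    · have : 0 ≤ 1 - c := by linarith [hc.2]
      positivity
  · intro t
    simp only [h₀.quasi, h₁.quasi]
    ring
  · rw [hint, h₀.closed, h₁.closed]
    simp
  · intro p₀ p₁ t
    unfold pt
    rw [hint]
    ring

end Pool.Agent.Q188.BT

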