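import Pool.Agent.Q188.BT.Stmts

set_option autoImplicit false

open Complex MeasureTheory Set Filter Topology
open scoped Real ContDiff ENNReal

namespace Pool.Agent.Q188.BT.TaskDerivAux

theorem e_zero : e 0 = 1 := by simp [e]

theorem hasDerivAt_e (t : ℝ) : HasDerivAt e (Complex.I * e t) t := by
  have h : HasDerivAt (fun t : ℝ => (t : ℂ) * Complex.I) Complex.I t := by
    simpa using (Complex.ofRealCLM.hasDerivAt (x := t)).mul_const Complex.I
  have h2 := h.cexp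
  rw [mul_comm] at h2
  exact h2

theorem continuous_e : Continuous e :=
  continuous_iff_continuousAt.2 fun t => (hasDerivAt_e t).continuousAt

theorem hasDerivAt_lam (s : ℝ) : HasDerivAt lam (deriv lam s) s := by
  have h : ContDiff ℝ 1 lam := by
    unfold lam
    exact Real.smoothTransition.contDiff
  exact (h.differentiable (by norm_num) s).hasDerivAt

theorem hasDerivAt_S {S : ℝ → ℝ} (h : IsArc S) (t : ℝ) : HasDerivAt S (deriv S t) t :=
  (h.smooth.differentiable (by simp) t).hasDerivAt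

theorem continuous_deriv_S {S : ℝ → ℝ} (h : IsArc S) : Continuous (deriv S) :=
  h.smooth.continuous_deriv (by simp)

theorem pt_sub {p₀ p₁ : ℂ} {S₀ S₁ : ℝ → ℝ} (h₀ : IsArc S₀) (h₁ : IsArc S₁) (t : ℝ) :
    pt p₁ S₁ t - pt p₀ S₀ t = (p₁ - p₀) + ((S₁ t - S₀ t : ℝ) : ℂ) * e t - ((S₁ 0 - S₀ 0 : ℝ) : ℂ)
      - Complex.I * ∫ u in (0 : ℝ)..t, ((S₁ u - S₀ u : ℝ) : ℂ) * e u := by
  have hc0 := continuous_deriv_S h₀
  have hc1 := continuous_deriv_S h₁
  have hS0 : Continuous S₀ := h₀.smooth.continuous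
  have hS1 : Continuous S₁ := h₁.smooth.continuous
  have hd : ∀ u : ℝ, HasDerivAt (fun u : ℝ => ((S₁ u - S₀ u : ℝ) : ℂ) * e u)
      ((((deriv S₁ u : ℝ) : ℂ) * e u - ((deriv S₀ u : ℝ) : ℂ) * e u) +
        Complex.I * (((S₁ u - S₀ u : ℝ) : ℂ) * e u)) u := by
    intro u
    have h1 : HasDerivAt (fun u : ℝ => ((S₁ u - S₀ u : ℝ) : ℂ))
        ((deriv S₁ u - deriv S₀ u : ℝ) : ℂ) u :=
      ((hasDerivAt_S h₁ u).sub (hasDerivAt_S h₀ u)).ofReal_comp
    have h2 := h1.mul (hasDerivAt_e u)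
    refine h2.congr_deriv ?_
    push_cast
    ring
  have hI1 : Continuous fun u : ℝ => ((deriv S₁ u : ℝ) : ℂ) * e u :=
    (Complex.continuous_ofReal.comp hc1).mul continuous_e
  have hI0 : Continuous fun u : ℝ => ((deriv S₀ u : ℝ) : ℂ) * e u :=
    (Complex.continuous_ofReal.comp hc0).mul continuous_e
  have hID : Continuous fun u : ℝ => ((S₁ u - S₀ u : ℝ) : ℂ) * e u :=
    (Complex.continuous_ofReal.comp (hS1.sub hS0)).mul continuous_e
  have hFTC := intervalIntegral.integral_eq_sub_of_hasDerivAt (a := 0) (b := t) (fun u _ => hd u)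
    (((hI1.sub hI0).add (continuous_const.mul hID)).intervalIntegrable 0 t)
  have i1 : IntervalIntegrable (fun u : ℝ => ((deriv S₁ u : ℝ) : ℂ) * e u - ((deriv S₀ u : ℝ) : ℂ) * e u)
      volume 0 t := (hI1.sub hI0).intervalIntegrable 0 t
  have i2 : IntervalIntegrable (fun u : ℝ => Complex.I * (((S₁ u - S₀ u : ℝ) : ℂ) * e u))
      volume 0 t := (continuous_const.mul hID).intervalIntegrable 0 t
  rw [intervalIntegral.integral_add i1 i2,
    intervalIntegral.integral_sub (hI1.intervalIntegrable 0 t) (hI0.intervalIntegrable 0 t),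
    intervalIntegral.integral_const_mul, e_zero, mul_one] at hFTC
  unfold pt
  linear_combination hFTC

end Pool.Agent.Q188.BT.TaskDerivAux

namespace Pool.Agent.Q188.BT

open TaskDerivAux

theorem taskDeriv (hPt : TaskPt) : TaskDeriv := by
  intro p₀ p₁ S₀ S₁ Θ h₀ h₁ hΘ hrel s q
  set θ : ℝ → ℝ := fun s => Θ (s, q) with hθ
  have hθd : HasDerivAt θ (deriv θ s) s := by
    have : Differentiable ℝ θ :=
      (hΘ.differentiable (by simp)).comp (differentiable_id.prodMk (differentiable_const q))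
    exact (this s).hasDerivAt
  set θ' := deriv θ s with hθ'
  have hl := hasDerivAt_lam s
  set l' := deriv lam s with hl'
  -- differentiate the relation
  have hr1 : HasDerivAt (fun s => (1 - lam s) * S₀ (θ s) + lam s * S₁ (θ s))
      ((-l') * S₀ (θ s) + (1 - lam s) * (deriv S₀ (θ s) * θ') +
        (l' * S₁ (θ s) + lam s * (deriv S₁ (θ s) * θ'))) s := by
    have a1 : HasDerivAt (fun s => 1 - lam s) (-l') s := by
      simpa using hl.const_sub 1
    have a2 : HasDerivAt (fun s => S₀ (θ s)) (deriv S₀ (θ s) * θ') s :=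
      (hasDerivAt_S h₀ (θ s)).comp s hθd
    have a3 : HasDerivAt (fun s => S₁ (θ s)) (deriv S₁ (θ s) * θ') s :=
      (hasDerivAt_S h₁ (θ s)).comp s hθd
    exact (a1.mul a2).add (hl.mul a3)
  have hr2 : (fun s => (1 - lam s) * S₀ (θ s) + lam s * S₁ (θ s)) = fun _ => q := by
    funext s
    exact hrel s q
  rw [hr2] at hr1
  have hr3 := hr1.unique (hasDerivAt_const s q)
  have hrC : (-(l' : ℂ)) * (S₀ (θ s) : ℂ) + (1 - (lam s : ℂ)) * ((deriv S₀ (θ s) : ℝ) * (θ' : ℂ)) +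
        ((l' : ℂ) * (S₁ (θ s) : ℂ) + (lam s : ℂ) * ((deriv S₁ (θ s) : ℝ) * (θ' : ℂ))) = 0 := by
    exact_mod_cast hr3
  -- derivative
  have b1 : HasDerivAt (fun s : ℝ => ((1 - lam s : ℝ) : ℂ)) ((-l' : ℝ) : ℂ) s := by
    have a1 : HasDerivAt (fun s => 1 - lam s) (-l') s := by
      simpa using hl.const_sub 1
    exact a1.ofReal_comp
  have b2 : HasDerivAt (fun s : ℝ => ((lam s : ℝ) : ℂ)) ((l' : ℝ) : ℂ) s := hl.ofReal_comp
  have b3 : HasDerivAt (fun s => pt p₀ S₀ (θ s)) ((θ' : ℂ) * (((deriv S₀ (θ s) : ℝ) : ℂ) * e (θ s))) s := by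
    have : HasDerivAt (fun s => pt p₀ S₀ (θ s)) (θ' • (((deriv S₀ (θ s) : ℝ) : ℂ) * e (θ s))) s :=
      ((hPt p₀ S₀ h₀).1 (θ s)).scomp s hθd
    rwa [Complex.real_smul] at this
  have b4 : HasDerivAt (fun s => pt p₁ S₁ (θ s)) ((θ' : ℂ) * (((deriv S₁ (θ s) : ℝ) : ℂ) * e (θ s))) s := by
    have : HasDerivAt (fun s => pt p₁ S₁ (θ s)) (θ' • (((deriv S₁ (θ s) : ℝ) : ℂ) * e (θ s))) s :=
      ((hPt p₁ S₁ h₁).1 (θ s)).scomp s hθd
    rwa [Complex.real_smul] at this
  have b5 := (b1.mul b3).add (b2.mul b4)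
  refine b5.congr_deriv ?_
  have h6 := pt_sub (p₀ := p₀) (p₁ := p₁) h₀ h₁ (θ s)
  push_cast at h6 ⊢
  linear_combination (l' : ℂ) * h6 + e (θ s) * hrC

end Pool.Agent.Q188.BT
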