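import Pool.Agent.Q188.BT.Stmts

set_option autoImplicit false

open Complex MeasureTheory Set Filter Topology
open scoped Real ContDiff ENNReal

namespace Pool.Agent.Q188.BT.TaskFine

open Pool.Agent.Q188.BT

theorem chain (d : ℕ → ℝ) (k : ℕ → ℕ) (hk : Monotone k) (n : ℕ) :
    ∑ i ∈ Finset.range n, ∑ j ∈ Finset.Ico (k i) (k (i + 1)), d j =
      ∑ j ∈ Finset.Ico (k 0) (k n), d j := by
  induction n with
  | zero => simp
  | succ n ih =>
    rw [Finset.sum_range_succ, ih, Finset.sum_Ico_consecutive d (hk (Nat.zero_le n)) (hk (Nat.le_succ n))]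

theorem main : Pool.Agent.Q188.BT.TaskFine := by
  intro C K z ψ hD
  have hL1 : ∀ a b : ℝ, a ≤ b → ‖C a - C b‖ ≤ b - a := by
    intro a b hab
    have h := eVariationOn.edist_le C (s := Icc a b) (x := a) (y := b) ⟨le_refl a, hab⟩
      ⟨hab, le_refl b⟩
    rw [hD.arclength a b hab, edist_dist, dist_eq_norm] at h
    exact (ENNReal.ofReal_le_ofReal_iff (by linarith)).1 h
  have hL : ∀ a b : ℝ, ‖C a - C b‖ ≤ |a - b| := by
    intro a b
    rcases le_total a b with h | h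
    · rw [abs_sub_comm, abs_of_nonneg (by linarith)]
      exact hL1 a b h
    · rw [norm_sub_rev, abs_of_nonneg (by linarith)]
      exact hL1 b a h
  refine ⟨hL, fun δ hδ => ?_⟩
  have hvar : ENNReal.ofReal (1 - δ / 2) < eVariationOn C (Icc 0 1) := by
    rw [hD.arclength 0 1 zero_le_one, ENNReal.ofReal_lt_ofReal_iff (by norm_num)]
    linarith
  unfold eVariationOn at hvar
  obtain ⟨⟨n, u, hmono, humem⟩, hsum⟩ := lt_iSup_iff.1 hvar
  have hconv : ∑ i ∈ Finset.range n, edist (C (u (i + 1))) (C (u i)) =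
      ENNReal.ofReal (∑ i ∈ Finset.range n, ‖C (u (i + 1)) - C (u i)‖) := by
    rw [ENNReal.ofReal_sum_of_nonneg fun _ _ => norm_nonneg _]
    exact Finset.sum_congr rfl fun i _ => by rw [edist_dist, dist_eq_norm]
  have hS : 1 - δ / 2 < ∑ i ∈ Finset.range n, ‖C (u (i + 1)) - C (u i)‖ := by
    have h := hsum
    simp only at h
    rw [hconv, ENNReal.ofReal_lt_ofReal_iff'] at h
    exact h.1
  obtain ⟨M, hM⟩ := exists_nat_gt ((4 * n + 1) / δ)
  have hM0 : (0 : ℝ) < M := lt_trans (by positivity) hM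
  have hMd : 4 * (n : ℝ) + 1 < M * δ := by rwa [div_lt_iff₀ hδ] at hM
  have hn0 : (0 : ℝ) ≤ n := Nat.cast_nonneg n
  refine ⟨M, by exact_mod_cast hM0, ?_, ?_⟩
  · rw [div_lt_iff₀ hM0]
    nlinarith
  set k : ℕ → ℕ := fun i => ⌊(M : ℝ) * u i⌋₊ with hk
  have hkm : Monotone k := fun i j hij =>
    Nat.floor_mono (mul_le_mul_of_nonneg_left (hmono hij) hM0.le)
  have hkM : ∀ i, k i ≤ M := fun i => by
    refine Nat.floor_le_of_le ?_
    have := (humem i).2
    nlinarith
  have hclose : ∀ i, ‖C ((k i : ℝ) / M) - C (u i)‖ ≤ 1 / M := by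
    intro i
    refine (hL _ _).trans ?_
    have h1 : (k i : ℝ) ≤ M * u i := Nat.floor_le (mul_nonneg hM0.le (humem i).1)
    have h2 : (M : ℝ) * u i < k i + 1 := Nat.lt_floor_add_one _
    have h3 : (k i : ℝ) / M - u i = ((k i : ℝ) - M * u i) / M := by field_simp
    rw [h3, abs_div, abs_of_pos hM0, div_le_div_iff_of_pos_right hM0, abs_le]
    constructor <;> linarith
  have hstep : ∀ i, ‖C (u (i + 1)) - C (u i)‖ ≤
      dist (C ((k i : ℝ) / M)) (C ((k (i + 1) : ℝ) / M)) + 2 / M := by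
    intro i
    have h1 := hclose i
    have h2 := hclose (i + 1)
    have h3 : ‖C (u (i + 1)) - C (u i)‖ ≤ ‖C ((k (i + 1) : ℝ) / M) - C (u (i + 1))‖ +
        (‖C ((k (i + 1) : ℝ) / M) - C ((k i : ℝ) / M)‖ + ‖C ((k i : ℝ) / M) - C (u i)‖) := by
      have e1 : C (u (i + 1)) - C (u i) = -(C ((k (i + 1) : ℝ) / M) - C (u (i + 1))) +
        ((C ((k (i + 1) : ℝ) / M) - C ((k i : ℝ) / M)) + (C ((k i : ℝ) / M) - C (u i))) := by ring
      rw [e1]
      refine (norm_add_le _ _).trans ?_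
      rw [norm_neg]
      gcongr
      exact norm_add_le _ _
    rw [dist_comm, dist_eq_norm]
    have e2 : (2 : ℝ) / M = 1 / M + 1 / M := by ring
    linarith
  have hdist : ∀ i, dist (C ((k i : ℝ) / M)) (C ((k (i + 1) : ℝ) / M)) ≤
      ∑ j ∈ Finset.Ico (k i) (k (i + 1)), ‖C (((j : ℝ) + 1) / M) - C ((j : ℝ) / M)‖ := by
    intro i
    refine (dist_le_Ico_sum_dist (fun j : ℕ => C ((j : ℝ) / M)) (hkm (Nat.le_succ i))).trans ?_
    refine le_of_eq (Finset.sum_congr rfl fun j _ => ?_)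
    rw [dist_comm, dist_eq_norm]
    push_cast
    rfl
  have htot : ∑ i ∈ Finset.range n, ‖C (u (i + 1)) - C (u i)‖ ≤
      (∑ j ∈ Finset.range M, ‖C (((j : ℝ) + 1) / M) - C ((j : ℝ) / M)‖) + n * (2 / M) := by
    calc ∑ i ∈ Finset.range n, ‖C (u (i + 1)) - C (u i)‖
        ≤ ∑ i ∈ Finset.range n, ((∑ j ∈ Finset.Ico (k i) (k (i + 1)),
            ‖C (((j : ℝ) + 1) / M) - C ((j : ℝ) / M)‖) + 2 / M) :=
          Finset.sum_le_sum fun i _ => (hstep i).trans (by linarith [hdist i])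
      _ = (∑ j ∈ Finset.Ico (k 0) (k n), ‖C (((j : ℝ) + 1) / M) - C ((j : ℝ) / M)‖) +
            n * (2 / M) := by
          rw [Finset.sum_add_distrib, chain _ k hkm, Finset.sum_const, Finset.card_range,
            nsmul_eq_mul]
      _ ≤ _ := by
          have hsub : Finset.Ico (k 0) (k n) ⊆ Finset.range M := fun j hj =>
            Finset.mem_range.2 (lt_of_lt_of_le (Finset.mem_Ico.1 hj).2 (hkM n))
          have h9 := Finset.sum_le_sum_of_subset_of_nonneg
            (f := fun j : ℕ => ‖C (((j : ℝ) + 1) / M) - C ((j : ℝ) / M)‖) hsub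
            fun _ _ _ => norm_nonneg _
          linarith
  have hfin : (n : ℝ) * (2 / M) ≤ δ / 2 := by
    rw [mul_div_assoc', div_le_iff₀ hM0]
    nlinarith
  linarith

end Pool.Agent.Q188.BT.TaskFine
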