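import Mathlib
import Pool.Agent.Q188.BT.Stmts

set_option autoImplicit false

open MeasureTheory Set Filter Topology
open scoped Real ContDiff Convolution

namespace Pool.Agent.Q188.BT.TaskMollify

/-- if `F` satisfies the inequality, then `F + F'' ≥ 0` -/
lemma second (F : ℝ → ℝ) (hF : ContDiff ℝ ∞ F) (t : ℝ)
    (h : ∀ s, 0 ≤ Real.cos s → 2 * Real.cos s * F t ≤ F (t - s) + F (t + s)) :
    0 ≤ F t + deriv (deriv F) t := by
  by_contra hneg
  push Not at hneg
  have hd : Differentiable ℝ F := (contDiff_infty_iff_deriv.1 hF).1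
  have hF' : ContDiff ℝ ∞ (deriv F) := (contDiff_infty_iff_deriv.1 hF).2
  have hd' : Differentiable ℝ (deriv F) := (contDiff_infty_iff_deriv.1 hF').1
  set g : ℝ → ℝ := fun s => F (t - s) + F (t + s) - 2 * Real.cos s * F t with hg
  have h1 : ∀ s, HasDerivAt g (-deriv F (t - s) + deriv F (t + s) + 2 * Real.sin s * F t) s := by
    intro s
    have a1 : HasDerivAt (fun s => F (t - s)) (-deriv F (t - s)) s :=
      HasDerivAt.comp_const_sub t s (hd (t - s)).hasDerivAt
    have a2 : HasDerivAt (fun s => F (t + s)) (deriv F (t + s)) s :=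
      HasDerivAt.comp_const_add t s (hd (t + s)).hasDerivAt
    have a3 : HasDerivAt (fun s => 2 * Real.cos s * F t) (2 * (-Real.sin s) * F t) s :=
      ((Real.hasDerivAt_cos s).const_mul 2).mul_const _
    have a4 := (a1.add a2).sub a3
    refine a4.congr_deriv ?_
    ring
  have h2 : deriv g = fun s => -deriv F (t - s) + deriv F (t + s) + 2 * Real.sin s * F t :=
    funext fun s => (h1 s).deriv
  have h3 : HasDerivAt (deriv g) (2 * (F t + deriv (deriv F) t)) 0 := by
    rw [h2]
    have a1 : HasDerivAt (fun s => -deriv F (t - s)) (-(-deriv (deriv F) (t - 0))) 0 :=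
      (HasDerivAt.comp_const_sub t 0 (hd' (t - 0)).hasDerivAt).neg
    have a2 : HasDerivAt (fun s => deriv F (t + s)) (deriv (deriv F) (t + 0)) 0 :=
      HasDerivAt.comp_const_add t 0 (hd' (t + 0)).hasDerivAt
    have a3 : HasDerivAt (fun s => 2 * Real.sin s * F t) (2 * (Real.cos 0) * F t) 0 :=
      ((Real.hasDerivAt_sin 0).const_mul 2).mul_const _
    have a4 := (a1.add a2).add a3
    refine a4.congr_deriv ?_
    rw [Real.cos_zero, sub_zero, add_zero]
    ring
  have hg0 : g 0 = 0 := by
    simp only [hg, Real.cos_zero, sub_zero, add_zero]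
    ring
  have hmax : IsLocalMax g 0 := by
    apply isLocalMax_of_deriv_deriv_neg
    · rw [h3.deriv]
      linarith
    · rw [h2]
      simp
    · exact (h1 0).continuousAt
  have hcos : ∀ᶠ s in 𝓝 (0 : ℝ), 0 ≤ Real.cos s := by
    have hc : ∀ᶠ s in 𝓝 (0 : ℝ), 0 < Real.cos s := by
      apply Real.continuous_cos.continuousAt.eventually (lt_mem_nhds _)
      simp
    exact hc.mono fun s hs => hs.le
  have heq : g =ᶠ[𝓝 0] fun _ => (0 : ℝ) := by
    filter_upwards [hmax, hcos] with s hs1 hs2
    apply le_antisymm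
    · rw [← hg0]
      exact hs1
    · have := h s hs2
      simp only [hg]
      linarith
  have h4 : deriv g =ᶠ[𝓝 0] deriv (fun _ => (0 : ℝ)) := heq.deriv
  have h5 : deriv (deriv g) 0 = 0 := by
    rw [h4.deriv_eq]
    simp
  rw [h3.deriv] at h5
  linarith

lemma unif (h : ℝ → ℝ) (hc : Continuous h) (hp : ∀ t, h (t + 2 * π) = h t) (ε : ℝ) (hε : 0 < ε) :
    ∃ r : ℝ, 0 < r ∧ ∀ x y : ℝ, dist x y < r → dist (h x) (h y) ≤ ε := by
  have hK : IsCompact (Icc (-1 : ℝ) (2 * π + 1)) := isCompact_Icc
  have hu := hK.uniformContinuousOn_of_continuous hc.continuousOn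
  rw [Metric.uniformContinuousOn_iff] at hu
  obtain ⟨r, hr, hu⟩ := hu ε hε
  refine ⟨min r 1, lt_min hr one_pos, fun x y hxy => ?_⟩
  have hper : Function.Periodic h (2 * π) := hp
  have h2π : (0 : ℝ) < 2 * π := by positivity
  have hx : h (y - toIcoDiv h2π 0 y • (2 * π)) = h y := hper.sub_zsmul_eq _
  have hx' : h (x - toIcoDiv h2π 0 y • (2 * π)) = h x := hper.sub_zsmul_eq _
  have hmem := toIcoMod_mem_Ico h2π 0 y
  rw [toIcoMod] at hmem
  rw [← hx, ← hx']
  have hd : dist (x - toIcoDiv h2π 0 y • (2 * π)) (y - toIcoDiv h2π 0 y • (2 * π)) < min r 1 := by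
    simpa [Real.dist_eq] using hxy
  have hd1 := lt_of_lt_of_le hd (min_le_right _ _)
  have hd2 := lt_of_lt_of_le hd (min_le_left _ _)
  rw [Real.dist_eq, abs_lt] at hd1
  refine (hu _ ?_ _ ?_ hd2).le
  · constructor
    · linarith [hmem.1, hd1.1]
    · linarith [hmem.2, hd1.2]
  · constructor
    · linarith [hmem.1]
    · linarith [hmem.2]

theorem main : Pool.Agent.Q188.BT.TaskMollify := by
  intro h hc hp hineq δ hδ
  obtain ⟨r, hr, hu⟩ := unif h hc hp (δ / 2) (by linarith)
  let φ : ContDiffBump (0 : ℝ) := ⟨r / 2, r, by linarith, by linarith⟩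
  let F : ℝ → ℝ := (φ.normed volume) ⋆[ContinuousLinearMap.lsmul ℝ ℝ, volume] h
  have hFdef : ∀ t, F t = ∫ u, φ.normed volume u * h (t - u) := by
    intro t
    simp only [F, convolution_def, ContinuousLinearMap.lsmul_apply, smul_eq_mul]
  have hFs : ContDiff ℝ ∞ F := by
    apply HasCompactSupport.contDiff_convolution_left
    · exact φ.hasCompactSupport_normed
    · exact φ.contDiff_normed
    · exact hc.locallyIntegrable
  have hint : ∀ t, Integrable (fun u => φ.normed volume u * h (t - u)) volume := by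
    intro t
    apply Continuous.integrable_of_hasCompactSupport
    · exact φ.continuous_normed.mul (hc.comp (continuous_const.sub continuous_id))
    · exact φ.hasCompactSupport_normed.mul_right
  have hFp : ∀ t, F (t + 2 * π) = F t := by
    intro t
    rw [hFdef, hFdef]
    congr 1
    funext u
    rw [show t + 2 * π - u = (t - u) + 2 * π by ring, hp]
  have hFi : ∀ t s, 0 ≤ Real.cos s → 2 * Real.cos s * F t ≤ F (t - s) + F (t + s) := by
    intro t s hs
    rw [hFdef, hFdef, hFdef, ← integral_const_mul, ← integral_add (hint _) (hint _)]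
    apply integral_mono ((hint t).const_mul _) ((hint _).add (hint _))
    intro u
    have h1 := hineq (t - u) s hs
    have h2 : 0 ≤ φ.normed volume u := φ.nonneg_normed u
    have h3 := mul_le_mul_of_nonneg_left h1 h2
    simp only [Pi.add_apply]
    rw [show t - s - u = t - u - s by ring, show t + s - u = t - u + s by ring]
    linarith
  have hFd : ∀ t, |F t - h t| ≤ δ / 2 := by
    intro t
    have := ContDiffBump.dist_normed_convolution_le (μ := volume) (φ := φ) (g := h) (x₀ := t)
      (ε := δ / 2) hc.aestronglyMeasurable (fun x hx => hu x t hx)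
    rwa [Real.dist_eq] at this
  have hderiv : deriv (fun t => F t + δ / 2) = deriv F := by
    funext t
    rw [deriv_add_const]
  refine ⟨fun t => F t + δ / 2, hFs.add contDiff_const, fun t => ?_, fun t => ?_, fun t => ?_⟩
  · simp only [hFp]
  · rw [hderiv]
    have := second F hFs t (hFi t)
    simp only
    linarith
  · have := hFd t
    rw [abs_le] at this ⊢
    constructor <;> linarith [this.1, this.2]

end Pool.Agent.Q188.BT.TaskMollify
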