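import Pool.Agent.Q188.BT.Stmts
set_option autoImplicit false

open Complex MeasureTheory Set Filter Topology
open scoped Real ContDiff ENNReal

namespace Pool.Agent.Q188.BT.TaskPhi

theorem main : Pool.Agent.Q188.BT.TaskPhi := by
  intro S₀ S₁ h₀ h₁
  have hl0 : ∀ s, 0 ≤ lam s := fun s => Real.smoothTransition.nonneg s
  have hl1 : ∀ s, lam s ≤ 1 := fun s => Real.smoothTransition.le_one s
  have hls : ContDiff ℝ ∞ lam := Real.smoothTransition.contDiff
  set g : ℝ → ℝ → ℝ := fun s t => (1 - lam s) * S₀ t + lam s * S₁ t with hg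
  have hd0 : ∀ t, HasDerivAt S₀ (deriv S₀ t) t := fun t =>
    ((h₀.smooth.differentiable (by simp)) t).hasDerivAt
  have hd1 : ∀ t, HasDerivAt S₁ (deriv S₁ t) t := fun t =>
    ((h₁.smooth.differentiable (by simp)) t).hasDerivAt
  have hgd : ∀ s t, HasDerivAt (g s) ((1 - lam s) * deriv S₀ t + lam s * deriv S₁ t) t := fun s t =>
    ((hd0 t).const_mul _).add ((hd1 t).const_mul _)
  have hgp : ∀ s t, 0 < (1 - lam s) * deriv S₀ t + lam s * deriv S₁ t := by
    intro s t
    rcases (hl0 s).eq_or_lt with h | h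
    · rw [← h]; simpa using h₀.pos t
    · have h2 := mul_pos h (h₁.pos t)
      have h3 := mul_nonneg (sub_nonneg.2 (hl1 s)) (h₀.pos t).le
      linarith
  have hmono : ∀ s, StrictMono (g s) := fun s => strictMono_of_deriv_pos
    (fun t => by rw [(hgd s t).deriv]; exact hgp s t)
  have hcont : ∀ s, Continuous (g s) := fun s =>
    continuous_iff_continuousAt.2 fun t => (hgd s t).continuousAt
  have hper : ∀ s, ∀ n : ℤ, g s (n * (2 * π)) = g s 0 + n := by
    intro s n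
    have h1 : Function.Periodic (fun t => g s t - t / (2 * π)) (2 * π) := by
      intro t
      simp only [hg]
      rw [h₀.quasi, h₁.quasi]
      have : (2 * π) ≠ 0 := by positivity
      field_simp
      ring
    have h2 := h1.int_mul n 0
    simp only [zero_add, zero_div, sub_zero] at h2
    have h3 : (n : ℝ) * (2 * π) / (2 * π) = n := by
      have : (2 * π) ≠ 0 := by positivity
      field_simp
    rw [h3] at h2
    linarith
  have hsurj : ∀ s q, ∃ t, g s t = q := by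
    intro s q
    set n : ℤ := ⌊q - g s 0⌋ with hn
    have h1 : (n : ℝ) ≤ q - g s 0 := Int.floor_le _
    have h2 : q - g s 0 < n + 1 := Int.lt_floor_add_one _
    have h3 := hper s n
    have h4 := hper s (n + 1)
    have h5 := intermediate_value_Icc (f := g s) (a := (n : ℝ) * (2 * π))
      (b := ((n + 1 : ℤ) : ℝ) * (2 * π)) (by push_cast; nlinarith [Real.pi_pos]) (hcont s).continuousOn
    rw [h3, h4] at h5
    obtain ⟨t, _, ht⟩ := h5 (⟨by linarith, by push_cast; linarith⟩ : q ∈ Icc (g s 0 + n) (g s 0 + ((n + 1 : ℤ) : ℝ)))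
    exact ⟨t, ht⟩
  choose Θ hΘ using hsurj
  refine ⟨fun x => Θ x.1 x.2, ?_, fun s q => hΘ s q, fun s t => (hmono s).injective (hΘ s _)⟩
  let G : ℝ × ℝ → ℝ := fun x => g x.1 x.2
  have hG : ContDiff ℝ ∞ G := by
    have a1 : ContDiff ℝ ∞ (fun x : ℝ × ℝ => lam x.1) := hls.comp contDiff_fst
    have a2 : ContDiff ℝ ∞ (fun x : ℝ × ℝ => S₀ x.2) := h₀.smooth.comp contDiff_snd
    have a3 : ContDiff ℝ ∞ (fun x : ℝ × ℝ => S₁ x.2) := h₁.smooth.comp contDiff_snd
    exact ((contDiff_const.sub a1).mul a2).add (a1.mul a3)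
  let F : ℝ × ℝ → ℝ × ℝ := fun x => (x.1, G x)
  have hF : ContDiff ℝ ∞ F := contDiff_fst.prodMk hG
  have hFinj : Function.Injective F := by
    rintro ⟨s, t⟩ ⟨s', t'⟩ h
    simp only [F, G, Prod.mk.injEq] at h
    obtain ⟨rfl, h⟩ := h
    rw [(hmono s).injective h]
  rw [contDiff_iff_contDiffAt]
  intro x0
  let a : ℝ × ℝ := (x0.1, Θ x0.1 x0.2)
  have hFa : F a = x0 := by
    simp only [F, G, a]
    rw [hΘ]
  have hGa : HasFDerivAt G (fderiv ℝ G a) a := ((hG.differentiable (by simp)) a).hasFDerivAt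
  set L2 := fderiv ℝ G a with hL2d
  let L : ℝ × ℝ →L[ℝ] ℝ × ℝ := (ContinuousLinearMap.fst ℝ ℝ ℝ).prod L2
  have hFL : HasFDerivAt F L a := hasFDerivAt_fst.prodMk hGa
  have hL2 : L2 (0, 1) = (1 - lam a.1) * deriv S₀ a.2 + lam a.1 * deriv S₁ a.2 := by
    have h1 : HasDerivAt (fun t : ℝ => (a.1, t)) ((0 : ℝ), (1 : ℝ)) a.2 :=
      (hasDerivAt_const _ _).prodMk (hasDerivAt_id _)
    have h2 := HasFDerivAt.comp_hasDerivAt (f := fun t : ℝ => (a.1, t)) a.2 hGa h1
    exact h2.unique (hgd a.1 a.2)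
  have hinj : Function.Injective (L : ℝ × ℝ →ₗ[ℝ] ℝ × ℝ) := by
    rw [← LinearMap.ker_eq_bot, LinearMap.ker_eq_bot']
    rintro ⟨u, v⟩ h
    have h1 : u = 0 := congrArg Prod.fst h
    have h2 : L2 (u, v) = 0 := congrArg Prod.snd h
    subst h1
    have h3 : L2 (0, v) = v * L2 (0, 1) := by
      have : ((0 : ℝ), v) = v • ((0 : ℝ), (1 : ℝ)) := by simp
      rw [this, map_smul, smul_eq_mul]
    rw [h3, hL2] at h2
    have h4 := hgp a.1 a.2
    rcases mul_eq_zero.1 h2 with h5 | h5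
    · rw [h5]; rfl
    · exact absurd h5 h4.ne'
  let E := (LinearEquiv.ofInjectiveEndo (L : ℝ × ℝ →ₗ[ℝ] ℝ × ℝ) hinj).toContinuousLinearEquiv
  have hE : (E : ℝ × ℝ →L[ℝ] ℝ × ℝ) = L := by
    ext v <;> rfl
  have hFE : HasFDerivAt F (E : ℝ × ℝ →L[ℝ] ℝ × ℝ) a := by rw [hE]; exact hFL
  have hc := (hF.contDiffAt (x := a)).to_localInverse hFE (by simp)
  have hev := ((hF.contDiffAt (x := a)).hasStrictFDerivAt' hFE (by simp)).eventually_right_inverse
  rw [hFa] at hc hev
  refine (contDiff_snd.contDiffAt.comp _ hc).congr_of_eventuallyEq ?_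
  filter_upwards [hev] with y hy
  have h1 : F (y.1, Θ y.1 y.2) = y := by
    simp only [F, G]
    rw [hΘ]
  exact congrArg Prod.snd (hFinj (h1.trans hy.symm))

end Pool.Agent.Q188.BT.TaskPhi
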