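import Pool.Agent.Q188.BT.Stmts

/-! The polar angle of a table about an interior point. -/

set_option autoImplicit false

open Complex MeasureTheory Set Filter Topology
open scoped Real ContDiff ENNReal ComplexConjugate

namespace Pool.Agent.Q188.BT.TaskPolar

theorem e_add (s t : ℝ) : e (s + t) = e s * e t := by
  unfold e
  rw [← Complex.exp_add]
  congr 1
  push_cast
  ring

theorem e_two_pi : e (2 * π) = 1 := by
  unfold e
  push_cast
  exact Complex.exp_two_pi_mul_I

theorem norm_e (t : ℝ) : ‖e t‖ = 1 := Complex.norm_exp_ofReal_mul_I t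

theorem hasDerivAt_e (t : ℝ) : HasDerivAt e (e t * Complex.I) t := by
  have h1 : HasDerivAt (fun s : ℝ => (s : ℂ) * Complex.I) Complex.I t := by
    simpa using (Complex.ofRealCLM.hasDerivAt (x := t)).mul_const Complex.I
  exact h1.cexp

theorem e_half : e (-(π / 2)) = -Complex.I := by
  unfold e
  push_cast
  rw [show -((π : ℂ) / 2) * Complex.I = -(π / 2 * Complex.I) by ring, Complex.exp_neg,
    Complex.exp_pi_div_two_mul_I, Complex.inv_I]

theorem nrm_eq (t : ℝ) : nrm t = e (t - π / 2) := by
  rw [sub_eq_add_neg, e_add, e_half, nrm]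
  ring

theorem nrm_mul_conj (t : ℝ) : nrm t * conj (nrm t) = 1 := by
  rw [Complex.mul_conj, Complex.normSq_eq_norm_sq, nrm_eq, norm_e]
  simp

theorem re_mul_conj (w v : ℂ) : (w * conj v).re = dot w v := by
  unfold dot
  simp

theorem main (hI : TaskInv) (hP : TaskPt) : Pool.Agent.Q188.BT.TaskPolar := by
  intro p S z hS hz
  obtain ⟨θ, hθs, -, -, hθp, hθq, -, htab, -⟩ := hI S hS
  obtain ⟨hd, hsm, hper⟩ := hP p S hS
  have hpos : ∀ t, 0 < dot (pt p S t - z) (nrm t) := by
    intro t
    have h := hz t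
    unfold dot at h ⊢
    simp only [Complex.sub_re, Complex.sub_im] at h ⊢
    nlinarith
  obtain ⟨g, hg⟩ : ∃ g : ℝ → ℂ, g = fun t => (pt p S t - z) * conj (nrm t) := ⟨_, rfl⟩
  have hgre : ∀ t, 0 < (g t).re := fun t => by
    rw [hg]
    show 0 < ((pt p S t - z) * conj (nrm t)).re
    rw [re_mul_conj]
    exact hpos t
  have hgs : ∀ t, g t ∈ slitPlane := fun t => Or.inl (hgre t)
  have hg0 : ∀ t, g t ≠ 0 := fun t => Complex.slitPlane_ne_zero (hgs t)
  have hgd : ∀ t, HasDerivAt g (Complex.I * ((deriv S t : ℝ) : ℂ) - Complex.I * g t) t := by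
    intro t
    have h1 : HasDerivAt (fun t => pt p S t - z) (((deriv S t : ℝ) : ℂ) * e t) t :=
      (hd t).sub_const z
    have h2 : HasDerivAt nrm (e t) t := by
      have := (hasDerivAt_e t).const_mul (-Complex.I)
      refine this.congr_deriv ?_
      linear_combination (-(e t)) * Complex.I_mul_I
    have h3 : HasDerivAt (fun t => conj (nrm t)) (conj (e t)) t := h2.star
    have h4 := h1.mul h3
    rw [hg]
    refine h4.congr_deriv ?_
    have e1 : e t = Complex.I * nrm t := by
      unfold nrm
      linear_combination (e t) * Complex.I_mul_I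
    have e2 : conj (e t) = -Complex.I * conj (nrm t) := by
      rw [e1]; simp
    rw [e2, e1]
    linear_combination (Complex.I * ((deriv S t : ℝ) : ℂ)) * nrm_mul_conj t
  obtain ⟨ψ, hψ⟩ : ∃ ψ : ℝ → ℝ, ψ = fun t => t - π / 2 + (Complex.log (g t)).im := ⟨_, rfl⟩
  have hψd : ∀ t, HasDerivAt ψ (deriv S t * (g t).re / Complex.normSq (g t)) t := by
    intro t
    have h1 := (hgd t).clog_real (hgs t)
    have h2 : HasDerivAt (fun t => (Complex.log (g t)).im)
        ((Complex.I * ((deriv S t : ℝ) : ℂ) - Complex.I * g t) / g t).im t :=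
      Complex.imCLM.hasFDerivAt.comp_hasDerivAt t h1
    have h3 := ((hasDerivAt_id t).sub_const (π / 2)).add h2
    rw [hψ]
    refine h3.congr_deriv ?_
    have h4 : (Complex.I * ((deriv S t : ℝ) : ℂ) - Complex.I * g t) / g t =
        Complex.I * (((deriv S t : ℝ) : ℂ) * (g t)⁻¹) - Complex.I := by
      field_simp [hg0 t]
    rw [h4]
    simp [Complex.inv_re]
    ring
  have hψpos : ∀ t, 0 < deriv S t * (g t).re / Complex.normSq (g t) := fun t =>
    div_pos (mul_pos (hS.pos t) (hgre t)) (Complex.normSq_pos.2 (hg0 t))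
  have hψm : StrictMono ψ := strictMono_of_deriv_pos fun t => by
    rw [(hψd t).deriv]; exact hψpos t
  have hψc : Continuous ψ := continuous_iff_continuousAt.2 fun t => (hψd t).continuousAt
  have hψq : ∀ t, ψ (t + 2 * π) = ψ t + 2 * π := by
    intro t
    have h1 : g (t + 2 * π) = g t := by
      rw [hg]
      simp only [hper t]
      unfold nrm
      rw [e_add, e_two_pi, mul_one]
    rw [hψ]
    simp only [h1]
    ring
  have hψe : ∀ t, pt p S t - z = (‖pt p S t - z‖ : ℂ) * e (ψ t) := by
    intro t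
    have h1 : ‖g t‖ = ‖pt p S t - z‖ := by
      rw [hg]
      simp only [norm_mul, RCLike.norm_conj]
      rw [nrm_eq, norm_e, mul_one]
    have h2 : e (ψ t) = nrm t * Complex.exp ((Complex.arg (g t) : ℝ) * Complex.I) := by
      rw [hψ]
      simp only
      rw [e_add, ← nrm_eq, Complex.log_im]
      rfl
    have h3 := Complex.norm_mul_exp_arg_mul_I (g t)
    have h4 : pt p S t - z = g t * nrm t := by
      rw [hg]
      linear_combination (-(pt p S t - z)) * nrm_mul_conj t
    rw [h2, ← h1]
    calc pt p S t - z = g t * nrm t := h4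
      _ = ((‖g t‖ : ℂ) * Complex.exp ((Complex.arg (g t) : ℝ) * Complex.I)) * nrm t := by rw [h3]
      _ = _ := by ring
  have hθm : StrictMono θ := strictMono_of_deriv_pos hθp
  refine ⟨fun q => ψ (θ q), hψc.comp hθs.continuous, hψm.comp hθm, fun q => ?_, fun q => ?_⟩
  · simp only [hθq, hψq]
  · rw [htab p q]
    exact hψe (θ q)

end Pool.Agent.Q188.BT.TaskPolar
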