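import Pool.Agent.Q188.BT.Stmts

set_option autoImplicit false

open Complex MeasureTheory Set Filter Topology
open scoped Real ContDiff ENNReal

namespace Pool.Agent.Q188.BT

theorem taskPolarC (hR : TaskRay) : TaskPolarC := by
  intro C K z ψ hD
  have hper : Function.Periodic C 1 := hD.periodic
  have hper2 : Function.Periodic (fun q => ψ q - 2 * π * q) 1 := by
    intro q
    simp only
    rw [hD.polar_quasi]
    ring
  have hfr : ∀ q : ℝ, C (Int.fract q) = C q := by
    intro q
    have h := hper.sub_int_mul_eq (x := q) ⌊q⌋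
    rw [mul_one] at h
    exact h
  have hfr2 : ∀ q : ℝ, ψ (Int.fract q) - 2 * π * Int.fract q = ψ q - 2 * π * q := by
    intro q
    have h := hper2.sub_int_mul_eq (x := q) ⌊q⌋
    rw [mul_one] at h
    exact h
  have hfront : ∀ q, C q ∈ frontier K := by
    intro q
    rw [hD.frontier_eq]
    exact mem_range_self q
  have hpos : ∀ q, 0 < ‖C q - z‖ := by
    intro q
    rw [norm_pos_iff, sub_ne_zero]
    intro h
    have h1 := hfront q
    rw [h] at h1
    exact h1.2 hD.mem
  have hinj : Function.Injective ψ := by
    intro q r hqr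
    have h1 : C q = C r := by
      refine hR K z (C q) (C r) (e (ψ q)) ‖C q - z‖ ‖C r - z‖ hD.convex hD.mem (hfront q)
        (hfront r) (hpos q) (hpos r) (hD.polar q) ?_
      rw [hqr]
      exact hD.polar r
    have h2 : Int.fract q = Int.fract r := by
      refine hD.simple _ ⟨Int.fract_nonneg q, Int.fract_lt_one q⟩ _
        ⟨Int.fract_nonneg r, Int.fract_lt_one r⟩ ?_
      rw [hfr, hfr, h1]
    have h3 := hfr2 q
    have h4 := hfr2 r
    rw [h2, h4, hqr] at h3
    have h5 : 2 * π * (q - r) = 0 := by linarith
    have h6 : (2 * π : ℝ) ≠ 0 := by positivity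
    rcases mul_eq_zero.1 h5 with h | h
    · exact absurd h h6
    · linarith
  rcases hD.polar_cont.strictMono_of_inj hinj with h | h
  · exact h
  · exfalso
    have h1 := h (show (0:ℝ) < 0 + 1 by norm_num)
    rw [hD.polar_quasi] at h1
    have := Real.pi_pos
    linarith

end Pool.Agent.Q188.BT
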