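import Pool.Agent.Q188.BT.Stmts

/-!
# Task SuppLe
-/

set_option autoImplicit false

open Complex MeasureTheory Set Filter Topology
open scoped Real ContDiff ENNReal

namespace Pool.Agent.Q188.BT

theorem taskSuppLe (h1 : TaskPt) (h2 : TaskStrict) : TaskSuppLe := by
  intro p S hS t u
  have hper : Function.Periodic (pt p S) (2 * π) := (h1 p S hS).2.2
  have hp : (0 : ℝ) < 2 * π := Real.two_pi_pos
  obtain ⟨v, hv⟩ : ∃ v, v = toIcoMod hp t u := ⟨_, rfl⟩
  have hmem := toIcoMod_mem_Ico hp t u
  rw [← hv] at hmem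
  have hpt : pt p S v = pt p S u := by
    rw [hv, toIcoMod]
    exact hper.sub_zsmul_eq _
  rw [← hpt]
  rcases hmem.1.eq_or_lt with h | h
  · rw [h]
  · have h3 := h2 p S hS t v h hmem.2
    unfold dot at h3 ⊢
    simp only [Complex.sub_re, Complex.sub_im] at h3
    nlinarith

end Pool.Agent.Q188.BT
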