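import Pool.Agent.Q188.BT.Stmts

set_option autoImplicit false

open Complex MeasureTheory Set Filter Topology
open scoped Real ContDiff ENNReal

namespace Pool.Agent.Q188.BT

theorem dot_nrm_sp (x : ℂ) (t : ℝ) : dot x (nrm t) = x.re * Real.sin t - x.im * Real.cos t := by
  have h1 : (nrm t).re = Real.sin t := by
    simp [nrm, e, Complex.exp_re, Complex.exp_im]
  have h2 : (nrm t).im = -Real.cos t := by
    simp [nrm, e, Complex.exp_re, Complex.exp_im]
  unfold dot
  rw [h1, h2]
  ring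

theorem dot_cont_sp : Continuous (fun p : ℝ × ℂ => dot p.2 (nrm p.1)) := by
  simp only [dot_nrm_sp]
  fun_prop

theorem taskSuppProps : TaskSuppProps := by
  intro K hK hne
  have hc : ∀ t, ContinuousOn (fun x => dot x (nrm t)) K := fun t =>
    (dot_cont_sp.comp (Continuous.prodMk continuous_const continuous_id)).continuousOn
  have hbdd : ∀ t, BddAbove ((fun x => dot x (nrm t)) '' K) := fun t =>
    (hK.image_of_continuousOn (hc t)).bddAbove
  have hle : ∀ x ∈ K, ∀ t, dot x (nrm t) ≤ supp K t := fun x hx t =>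
    le_csSup (hbdd t) ⟨x, hx, rfl⟩
  have hmax : ∀ t, ∃ x ∈ K, dot x (nrm t) = supp K t := by
    intro t
    obtain ⟨x, hx, h⟩ := (hK.image_of_continuousOn (hc t)).sSup_mem (hne.image _)
    exact ⟨x, hx, h⟩
  refine ⟨?_, fun t => ?_, fun t s _ => ?_, hle, fun t => ?_⟩
  · exact hK.continuous_sSup (f := fun t x => dot x (nrm t)) dot_cont_sp
  · unfold supp
    simp only [dot_nrm_sp, Real.sin_add_two_pi, Real.cos_add_two_pi]
  · obtain ⟨x, hx, h⟩ := hmax t
    have h1 := hle x hx (t - s)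
    have h2 := hle x hx (t + s)
    rw [← h]
    rw [dot_nrm_sp] at h1 h2 ⊢
    rw [Real.sin_sub, Real.cos_sub] at h1
    rw [Real.sin_add, Real.cos_add] at h2
    nlinarith [h1, h2]
  · obtain ⟨x, hx, h⟩ := hmax t
    refine ⟨x, ?_, h⟩
    rw [hK.isClosed.frontier_eq]
    refine ⟨hx, fun hint => ?_⟩
    have hcont : Continuous (fun ε : ℝ => x + (ε : ℂ) * nrm t) := by fun_prop
    have h0 : (fun ε : ℝ => x + (ε : ℂ) * nrm t) 0 = x := by simp
    have hnhds : K ∈ 𝓝 ((fun ε : ℝ => x + (ε : ℂ) * nrm t) 0) := by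
      rw [h0]
      exact mem_interior_iff_mem_nhds.1 hint
    have hev' : ∀ᶠ ε : ℝ in 𝓝 (0 : ℝ), x + ((ε : ℝ) : ℂ) * nrm t ∈ K := by
      have := hcont.continuousAt (x := (0 : ℝ)) hnhds
      exact this
    obtain ⟨ρ, hρ, hball⟩ := Metric.eventually_nhds_iff.1 hev'
    set ε : ℝ := ρ / 2
    have hε0' : 0 < ε := by positivity
    have hε : x + (ε : ℂ) * nrm t ∈ K := by
      apply hball
      rw [Real.dist_eq, sub_zero, abs_of_pos hε0']
      exact half_lt_self hρ
    have h1 := hle _ hε t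
    rw [← h, dot_nrm_sp, dot_nrm_sp] at h1
    have h2 : (nrm t).re = Real.sin t := by
      simp [nrm, e, Complex.exp_re, Complex.exp_im]
    have h3 : (nrm t).im = -Real.cos t := by
      simp [nrm, e, Complex.exp_re, Complex.exp_im]
    simp only [Complex.add_re, Complex.add_im, Complex.re_ofReal_mul, Complex.im_ofReal_mul,
      h2, h3] at h1
    nlinarith [Real.sin_sq_add_cos_sq t]

end Pool.Agent.Q188.BT
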