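import Pool.Agent.Q188.BT.Stmts

set_option autoImplicit false

open Complex MeasureTheory Set Filter Topology
open scoped Real ContDiff ENNReal

namespace Pool.Agent.Q188.BT.TaskSupport196

theorem main : TaskSupport := by
  intro K x hK hc hne hx
  have hxK : x ∈ K := hK.isClosed.frontier_subset hx
  have hxi : x ∉ interior K := by
    rw [hK.isClosed.frontier_eq] at hx
    exact hx.2
  obtain ⟨f, hf⟩ := geometric_hahn_banach_open_point hc.interior isOpen_interior hxi
  have hle : ∀ y ∈ K, f y ≤ f x := by
    intro y hy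
    have hcl : K ⊆ closure (interior K) := by
      rw [hc.closure_interior_eq_closure_of_nonempty_interior hne]
      exact subset_closure
    have h1 : closure (interior K) ⊆ {z | f z ≤ f x} :=
      closure_minimal (fun z hz => (hf z hz).le) (isClosed_le f.continuous continuous_const)
    exact h1 (hcl hy)
  have hfv : ∀ v : ℂ, f v = v.re * f 1 + v.im * f Complex.I := by
    intro v
    conv_lhs => rw [← Complex.re_add_im v]
    have h2 : ((v.re : ℂ) + (v.im : ℂ) * Complex.I) = v.re • (1 : ℂ) + v.im • Complex.I := by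
      simp [Complex.real_smul]
    rw [h2, map_add, map_smul, map_smul, smul_eq_mul, smul_eq_mul]
  set w : ℂ := ⟨f 1, f Complex.I⟩ with hw
  have hfd : ∀ v : ℂ, f v = dot v w := by
    intro v
    rw [hfv v, dot]
  have hw0 : w ≠ 0 := by
    intro h0
    obtain ⟨a, ha⟩ := hne
    have h3 := hf a ha
    rw [hfd, hfd, h0] at h3
    simp [dot] at h3
  have hn : 0 < ‖w‖ := norm_pos_iff.mpr hw0
  have hwn : w = (‖w‖ : ℂ) * nrm (Complex.arg w + π / 2) := by
    have h4 : nrm (Complex.arg w + π / 2) = Complex.exp (Complex.arg w * Complex.I) := by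
      unfold nrm e
      push_cast
      rw [add_mul, Complex.exp_add, Complex.exp_pi_div_two_mul_I]
      linear_combination (-Complex.exp (↑w.arg * Complex.I)) * Complex.I_sq
    rw [h4, Complex.norm_mul_exp_arg_mul_I]
  have hd : ∀ v : ℂ, f v = ‖w‖ * dot v (nrm (Complex.arg w + π / 2)) := by
    intro v
    rw [hfd v]
    conv_lhs => rw [hwn]
    unfold dot
    simp only [Complex.re_ofReal_mul, Complex.im_ofReal_mul]
    ring
  have hmax : ∀ y ∈ K, dot y (nrm (Complex.arg w + π / 2)) ≤ dot x (nrm (Complex.arg w + π / 2)) := by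
    intro y hy
    have h5 := hle y hy
    rw [hd, hd] at h5
    exact le_of_mul_le_mul_left h5 hn
  refine ⟨Complex.arg w + π / 2, hmax, ?_⟩
  unfold supp
  have hg : IsGreatest ((fun y => dot y (nrm (Complex.arg w + π / 2))) '' K)
      (dot x (nrm (Complex.arg w + π / 2))) := by
    refine ⟨⟨x, hxK, rfl⟩, ?_⟩
    rintro _ ⟨y, hy, rfl⟩
    exact hmax y hy
  exact hg.csSup_eq.symm

end Pool.Agent.Q188.BT.TaskSupport196
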