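import Pool.Agent.Q188.BT.Stmts

/-!
# Task Tab
-/

set_option autoImplicit false

open Set

namespace Pool.Agent.Q188.BT

theorem taskTab (h1 : TaskInv) (_h2 : TaskPt) (h3 : TaskReg) (h4 : TaskBody) (h5 : TaskSimple) :
    TaskTab := by
  intro p S hS
  obtain ⟨r1, r2, r3, r4, -⟩ := h3 p S hS
  obtain ⟨K, k1, k2, k3, k4⟩ := h4 p S hS
  obtain ⟨θ, -, -, -, -, -, -, t1, t2⟩ := h1 S hS
  refine ⟨r1, r2, r3, r4, h5 p S hS, K, k1, k2, k3, ?_⟩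
  rw [k4]
  ext x
  constructor
  · rintro ⟨t, rfl⟩
    exact ⟨S t, t2 p t⟩
  · rintro ⟨q, rfl⟩
    exact ⟨θ q, (t1 p q).symm⟩

end Pool.Agent.Q188.BT
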