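import Pool.Agent.Q188.BT.Stmts

set_option autoImplicit false

open Complex MeasureTheory Set Filter Topology
open scoped Real ContDiff ENNReal

namespace Pool.Agent.Q188.BT.Width
open Pool.Agent.Q188.BT

theorem dot_sub (u v w : ℂ) : dot (u - v) w = dot u w - dot v w := by
  unfold dot
  rw [Complex.sub_re, Complex.sub_im]; ring

theorem norm_e (t : ℝ) : ‖e t‖ = 1 := by
  unfold e
  exact Complex.norm_exp_ofReal_mul_I t

theorem norm_nrm (t : ℝ) : ‖nrm t‖ = 1 := by
  unfold nrm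
  rw [norm_mul, norm_neg, Complex.norm_I, norm_e, mul_one]

theorem abs_dot_le (u v : ℂ) : |dot u v| ≤ ‖u‖ * ‖v‖ := by
  have h : dot u v = (u * (starRingEnd ℂ) v).re := by
    unfold dot
    rw [Complex.mul_re, Complex.conj_re, Complex.conj_im]; ring
  rw [h]
  refine (Complex.abs_re_le_norm _).trans ?_
  rw [norm_mul, Complex.norm_conj]

theorem nrm_pi (t : ℝ) : nrm (t + π) = - nrm t := by
  unfold nrm e
  push_cast
  rw [add_mul, Complex.exp_add, Complex.exp_pi_mul_I]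
  ring

theorem dot_neg (u v : ℂ) : dot u (-v) = - dot u v := by
  unfold dot
  rw [Complex.neg_re, Complex.neg_im]; ring

theorem cyc (N : ℕ) (F : ℕ → ℝ) (hF : F N = F 0) (i j : ℕ) (hij : i ≤ j) (hj : j ≤ N) :
    |F i - F j| ≤ (∑ l ∈ Finset.range N, |F (l + 1) - F l|) / 2 := by
  have h1 := dist_le_Ico_sum_dist F hij
  have h2 := dist_le_Ico_sum_dist F hj
  have h3 := dist_le_Ico_sum_dist F (Nat.zero_le i)
  have e1 : ∀ l, dist (F l) (F (l + 1)) = |F (l + 1) - F l| := fun l => by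
    rw [Real.dist_eq, abs_sub_comm]
  simp_rw [e1] at h1 h2 h3
  have s1 := Finset.sum_Ico_consecutive (fun l => |F (l + 1) - F l|) hij hj
  have s2 := Finset.sum_Ico_consecutive (fun l => |F (l + 1) - F l|) (Nat.zero_le i) (hij.trans hj)
  rw [← Finset.range_eq_Ico] at s2
  rw [Real.dist_eq] at h1 h2 h3
  have h4 : |F i - F j| ≤ |F j - F N| + |F 0 - F i| := by
    have : F i - F j = - ((F j - F N) + (F 0 - F i)) := by rw [hF]; ring
    rw [this, abs_neg]
    exact abs_add_le _ _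
  simp only [Finset.range_eq_Ico] at s2 ⊢
  linarith

theorem cyc' (N : ℕ) (F : ℕ → ℝ) (hF : F N = F 0) (i j : ℕ) (hi : i ≤ N) (hj : j ≤ N) :
    F i - F j ≤ (∑ l ∈ Finset.range N, |F (l + 1) - F l|) / 2 := by
  rcases le_total i j with h | h
  · exact (le_abs_self _).trans (cyc N F hF i j h hj)
  · rw [← neg_sub]
    exact (neg_le_abs _).trans (cyc N F hF j i h hi)

/-- a value of a 1-periodic 1-Lipschitz function is `1/N`-close to a value at a grid point -/
theorem grid (f : ℝ → ℝ) (hper : ∀ q, f (q + 1) = f q) (hL : ∀ a b, |f a - f b| ≤ |a - b|)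
    (N : ℕ) (hN : 0 < N) (q : ℝ) : ∃ i : ℕ, i ≤ N ∧ |f q - f (i / N)| ≤ 1 / N := by
  have hNr : (0 : ℝ) < N := by exact_mod_cast hN
  have hf : ∀ q, f (Int.fract q) = f q := by
    intro q
    have hp : Function.Periodic f 1 := hper
    have := hp.sub_int_mul_eq (x := q) ⌊q⌋
    rw [mul_one] at this
    exact this
  set r := Int.fract q with hr
  have hr0 : 0 ≤ r := Int.fract_nonneg q
  have hr1 : r < 1 := Int.fract_lt_one q
  refine ⟨⌊r * N⌋₊, ?_, ?_⟩
  · have h1 : r * N ≤ N := by nlinarith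
    have h2 := Nat.floor_le_floor h1
    rwa [Nat.floor_natCast] at h2
  · rw [← hf q]
    refine (hL _ _).trans ?_
    have h1 : (⌊r * N⌋₊ : ℝ) ≤ r * N := Nat.floor_le (by positivity)
    have h2 : r * N < ⌊r * N⌋₊ + 1 := Nat.lt_floor_add_one _
    have h3 : r - (⌊r * N⌋₊ : ℝ) / N = (r * N - ⌊r * N⌋₊) / N := by
      field_simp
    rw [← hr, h3, abs_div, abs_of_nonneg (by linarith), abs_of_pos hNr]
    apply div_le_div_of_nonneg_right _ hNr.le
    linarith

theorem main (hS : TaskSuppProps) (hF : TaskFine) : TaskWidth := by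
  intro C K z ψ hD N hN t
  have hne : K.Nonempty := ⟨z, interior_subset hD.mem⟩
  obtain ⟨-, -, -, -, hS5⟩ := hS K hD.compact hne
  obtain ⟨x, hx, hxt⟩ := hS5 t
  obtain ⟨y, hy, hyt⟩ := hS5 (t + π)
  rw [hD.frontier_eq] at hx hy
  obtain ⟨q, rfl⟩ := hx
  obtain ⟨r, rfl⟩ := hy
  obtain ⟨hL, -⟩ := hF C K z ψ hD
  set f : ℝ → ℝ := fun s => dot (C s) (nrm t) with hf
  have hper : ∀ q, f (q + 1) = f q := fun q => by rw [hf]; simp only [hD.periodic]
  have hfL : ∀ a b, |f a - f b| ≤ |a - b| := by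
    intro a b
    have : f a - f b = dot (C a - C b) (nrm t) := (dot_sub _ _ _).symm
    rw [this]
    refine (abs_dot_le _ _).trans ?_
    rw [norm_nrm, mul_one]
    exact hL a b
  obtain ⟨i, hi, hi'⟩ := grid f hper hfL N hN q
  obtain ⟨j, hj, hj'⟩ := grid f hper hfL N hN r
  have hNr : (0 : ℝ) < N := by exact_mod_cast hN
  have hc := cyc' N (fun l => f (l / N)) (by
    have h1 : ((N : ℕ) : ℝ) / N = 0 + 1 := by rw [div_self hNr.ne', zero_add]
    have h2 : ((0 : ℕ) : ℝ) / N = 0 := by simp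
    show f ((N : ℕ) / N) = f ((0 : ℕ) / N)
    rw [h1, h2, hper]) i j hi hj
  have e1 : ∀ l : ℕ, |f ((l + 1 : ℕ) / N) - f (l / N)| =
      |dot (C ((l + 1) / N) - C (l / N)) (nrm t)| := by
    intro l
    rw [dot_sub, hf]
    push_cast
    rfl
  simp_rw [e1] at hc
  rw [← hxt, ← hyt, nrm_pi, dot_neg]
  have a1 := (le_abs_self _).trans hi'
  have a2 := (neg_le_abs _).trans hj'
  have a3 : f q = dot (C q) (nrm t) := rfl
  have a4 : f r = dot (C r) (nrm t) := rfl
  have a5 : (2 : ℝ) / N = 1 / N + 1 / N := by ring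
  rw [← a3, ← a4, a5]
  linarith

end Pool.Agent.Q188.BT.Width
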